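import Pool.Agent.Y132.AH.Single
import Pool.Agent.Y132.AF.Two

/-!
# The eigenvalues of the adjoint representations which can occur
-/

set_option linter.unusedSectionVars false
set_option linter.unusedVariables false

namespace Pool.Agent.Y132.AH

open Module Finset Function Pool.Agent.TH118.SG Pool.Agent.Y132.EP Pool.Agent.Y132.AF

section gen

variable {K : Type} [Field K] {E : Type} [AddCommGroup E] [Module K E] {Γ : Type} [Group Γ]

/-- An eigenvector in a stable subspace. -/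
theorem eigvec_in {F : E →ₗ[K] E} {U : Submodule K E} (hU : ∀ x ∈ U, F x ∈ U) {β : K} {x : E}
    (hx : x ≠ 0) (hxU : x ∈ U) (hm : x ∈ Module.End.maxGenEigenspace F β) :
    ∃ y ∈ U, y ≠ 0 ∧ F y = β • y := by
  classical
  obtain ⟨n, hn⟩ := mem_gen.1 hm
  have hst : ∀ (n : ℕ), ∀ x ∈ U, ((F - algebraMap K (End K E) β) ^ n) x ∈ U := by
    intro n
    induction n with
    | zero => intro x hx; exact hx
    | succ n ih =>
      intro x hx
      rw [pow_succ, Module.End.mul_apply]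
      refine ih _ ?_
      rw [LinearMap.sub_apply, Module.algebraMap_end_apply]
      exact Submodule.sub_mem _ (hU x hx) (Submodule.smul_mem _ _ hx)
  have hex : ∃ n : ℕ, ((F - algebraMap K (End K E) β) ^ n) x = 0 := ⟨n, hn⟩
  set m := Nat.find hex with hmdef
  have hm0 : ((F - algebraMap K (End K E) β) ^ m) x = 0 := Nat.find_spec hex
  obtain ⟨m', hm'⟩ : ∃ m', m = m' + 1 := by
    refine Nat.exists_eq_succ_of_ne_zero fun h0 => hx ?_
    rwa [h0, pow_zero, Module.End.one_apply] at hm0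
  refine ⟨((F - algebraMap K (End K E) β) ^ m') x, hst _ _ hxU, Nat.find_min hex (by omega), ?_⟩
  rw [hm', pow_succ', Module.End.mul_apply, LinearMap.sub_apply,
    Module.algebraMap_end_apply] at hm0
  exact sub_eq_zero.1 hm0

/-- Conjugation as a linear map. -/
def cjL (σ : Γ →* (E →ₗ[K] E)) (g : Γ) : (E →ₗ[K] E) →ₗ[K] (E →ₗ[K] E) where
  toFun := cj σ g
  map_add' := cj_add σ g
  map_smul' := cj_smul σ g

/-- Generalized eigenvectors of the conjugation shift the generalized eigenspaces. -/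
theorem shift (σ : Γ →* (E →ₗ[K] E)) (g : Γ) (lam β : K) : ∀ (N n k : ℕ), n + k ≤ N →
    ∀ (D : E →ₗ[K] E) (x : E), ((cjL σ g - algebraMap K _ lam) ^ n) D = 0 →
      ((σ g - algebraMap K (End K E) β) ^ k) x = 0 →
        D x ∈ Module.End.maxGenEigenspace (σ g) (lam * β) := by
  intro N
  induction N with
  | zero =>
    intro n k hnk D x hD hx
    obtain rfl : n = 0 := by omega
    rw [pow_zero, Module.End.one_apply] at hD
    rw [hD]
    exact Submodule.zero_mem _
  | succ N ih =>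
    intro n k hnk D x hD hx
    rcases Nat.eq_zero_or_pos n with h0 | hn
    · subst h0
      rw [pow_zero, Module.End.one_apply] at hD
      rw [hD]
      exact Submodule.zero_mem _
    rcases Nat.eq_zero_or_pos k with h0 | hk
    · subst h0
      rw [pow_zero, Module.End.one_apply] at hx
      rw [hx, map_zero]
      exact Submodule.zero_mem _
    obtain ⟨n, rfl⟩ : ∃ n', n = n' + 1 := ⟨n - 1, by omega⟩
    obtain ⟨k, rfl⟩ : ∃ k', k = k' + 1 := ⟨k - 1, by omega⟩
    have e1 : (σ g - algebraMap K (End K E) (lam * β)) (D x) =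
        ((cjL σ g - algebraMap K _ lam) D) (σ g x) +
          lam • D ((σ g - algebraMap K (End K E) β) x) := by
      have e2 : ((cjL σ g - algebraMap K _ lam) D) (σ g x) = σ g (D x) - lam • D (σ g x) := by
        rw [LinearMap.sub_apply, Module.algebraMap_end_apply, LinearMap.sub_apply,
          LinearMap.smul_apply]
        change cj σ g D (σ g x) - _ = _
        rw [cj_apply, ginv']
      rw [e2, LinearMap.sub_apply, LinearMap.sub_apply, Module.algebraMap_end_apply,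
        Module.algebraMap_end_apply, map_sub, map_smul, smul_sub, smul_smul]
      abel
    have hcomm : ∀ (k : ℕ) (x : E), ((σ g - algebraMap K (End K E) β) ^ k) (σ g x) =
        σ g (((σ g - algebraMap K (End K E) β) ^ k) x) := by
      intro k x
      have h1 : Commute ((σ g - algebraMap K (End K E) β) ^ k) (σ g) :=
        ((Commute.refl (σ g)).sub_left (Algebra.commutes β (σ g))).pow_left k
      exact congrArg (fun f : End K E => f x) h1.eq
    have h1 := ih n (k + 1) (by omega) ((cjL σ g - algebraMap K _ lam) D) (σ g x) (by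
      rw [← Module.End.mul_apply, ← pow_succ]
      exact hD) (by rw [hcomm, hx, map_zero])
    have h2 := ih (n + 1) k (by omega) D ((σ g - algebraMap K (End K E) β) x) hD (by
      rw [← Module.End.mul_apply, ← pow_succ]
      exact hx)
    have h3 : (σ g - algebraMap K (End K E) (lam * β)) (D x) ∈
        Module.End.maxGenEigenspace (σ g) (lam * β) := by
      rw [e1]
      exact Submodule.add_mem _ h1 (Submodule.smul_mem _ _ h2)
    obtain ⟨M, hM⟩ := mem_gen.1 h3
    exact mem_gen.2 ⟨M + 1, by rw [pow_succ, Module.End.mul_apply, hM]⟩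

/-- The component of a vector in a generalized eigenspace. -/
theorem comp_vec {V V₁ V₂ : Type} [AddCommGroup V] [Module K V] [FiniteDimensional K V]
    [AddCommGroup V₁] [Module K V₁] [AddCommGroup V₂] [Module K V₂] (P : Submodule K V)
    (C : End K V) (hst : ∀ p ∈ P, C p ∈ P) (C₁ : End K V₁) (π₁ : V →ₗ[K] V₁)
    (h1 : ∀ p, π₁ (C p) = C₁ (π₁ p)) (C₂ : End K V₂) (π₂ : V →ₗ[K] V₂)
    (h2 : ∀ p, π₂ (C p) = C₂ (π₂ p)) {p₀ : V} (hp₀ : p₀ ∈ P) {lam : K}
    (he : C₁ (π₁ p₀) = lam • π₁ p₀) :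
    ∃ p₁ ∈ P, π₁ p₁ = π₁ p₀ ∧ ∃ n : ℕ, ((C₂ - algebraMap K (End K V₂) lam) ^ n) (π₂ p₁) = 0 := by
  have hpoly : ∀ q : Polynomial K, π₁ (Polynomial.aeval C q p₀) = q.eval lam • π₁ p₀ ∧
      Polynomial.aeval C q p₀ ∈ P := by
    intro q
    induction q using Polynomial.induction_on' with
    | add p q hp hq =>
      rw [map_add, LinearMap.add_apply, Polynomial.eval_add, add_smul, map_add, hp.1, hq.1]
      exact ⟨rfl, Submodule.add_mem _ hp.2 hq.2⟩
    | monomial n a =>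
      rw [Polynomial.aeval_monomial, Polynomial.eval_monomial, Module.End.mul_apply,
        Module.algebraMap_end_apply, map_smul, mul_smul]
      have h3 : π₁ ((C ^ n) p₀) = lam ^ n • π₁ p₀ ∧ (C ^ n) p₀ ∈ P := by
        induction n with
        | zero =>
          rw [pow_zero, pow_zero, one_smul]
          exact ⟨rfl, hp₀⟩
        | succ n ih =>
          rw [pow_succ', Module.End.mul_apply, h1, ih.1, map_smul, he, smul_smul, pow_succ]
          exact ⟨rfl, hst _ ih.2⟩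
      rw [h3.1]
      exact ⟨rfl, Submodule.smul_mem _ _ h3.2⟩
  have hmin0 : minpoly K C ≠ 0 := minpoly.ne_zero (Algebra.IsIntegral.isIntegral C)
  obtain ⟨r, hr, hndvd⟩ := Polynomial.exists_eq_pow_rootMultiplicity_mul_and_not_dvd
    (minpoly K C) hmin0 lam
  set n := Polynomial.rootMultiplicity lam (minpoly K C)
  have hr0 : r.eval lam ≠ 0 := fun h0 => hndvd (Polynomial.dvd_iff_isRoot.2 h0)
  have hkill : ((C - algebraMap K (End K V) lam) ^ n) (Polynomial.aeval C r p₀) = 0 := by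
    have h3 : Polynomial.aeval C (minpoly K C) = 0 := minpoly.aeval K C
    rw [hr, map_mul, map_pow, map_sub, Polynomial.aeval_X, Polynomial.aeval_C] at h3
    rw [← Module.End.mul_apply, h3, LinearMap.zero_apply]
  have h3 : ∀ (n : ℕ) (p : V), π₂ (((C - algebraMap K (End K V) lam) ^ n) p) =
      ((C₂ - algebraMap K (End K V₂) lam) ^ n) (π₂ p) := by
    intro n
    induction n with
    | zero => intro p; rfl
    | succ n ih =>
      intro p
      rw [pow_succ, Module.End.mul_apply, ih, pow_succ, Module.End.mul_apply, LinearMap.sub_apply,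
        LinearMap.sub_apply, map_sub, h2, Module.algebraMap_end_apply,
        Module.algebraMap_end_apply, map_smul]
  refine ⟨(r.eval lam)⁻¹ • Polynomial.aeval C r p₀, Submodule.smul_mem _ _ (hpoly r).2, ?_, n, ?_⟩
  · rw [map_smul, (hpoly r).1, smul_smul, inv_mul_cancel₀ hr0, one_smul]
  · rw [map_smul, map_smul, ← h3, hkill, map_zero, smul_zero]

end gen

variable {K : Type} [Field K] {I : Type} {T : I → Type} [∀ i, AddCommGroup (T i)]
  [∀ i, Module K (T i)] {E : Type} [Ring E] [Algebra K E] {Γ : Type} [Group Γ]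
  {χ : Γ →* Kˣ} {w : I → ℕ} {B : ∀ i, T i →ₗ[K] T i →ₗ[K] K}
  {ρ : ∀ i, Γ →* (T i →ₗ[K] T i)} {τ : Γ →* (E →ₗ[K] E)} {J : Type} {gr : J → Submodule K E}
  [CharZero K] [IsAlgClosed K] [Fintype I] [DecidableEq I]
  [∀ i, FiniteDimensional K (T i)] [FiniteDimensional K E]

/-- `lam` is the quotient of two eigenvalues of `g` on the subspaces `gr m`, `m ∈ S`. -/
def Quot' (τ : Γ →* (E →ₗ[K] E)) (gr : J → Submodule K E) (S : Set J) (g : Γ) (lam : K) : Prop :=
  ∃ m ∈ S, ∃ x ∈ gr m, ∃ y ∈ gr m, x ≠ 0 ∧ y ≠ 0 ∧ ∃ β : K,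
    τ g x = (lam * β) • x ∧ τ g y = β • y

/-- The skew operators on `T i` which are compatible with `0`. -/
def ZZ (χ : Γ →* Kˣ) (w : I → ℕ) (B : ∀ i, T i →ₗ[K] T i →ₗ[K] K)
    (ρ : ∀ i, Γ →* (T i →ₗ[K] T i)) (τ : Γ →* (E →ₗ[K] E)) (i : I) :
    Submodule K (T i →ₗ[K] T i) :=
  (GG χ w B ρ τ).comap (LinearMap.prod (LinearMap.single K (fun i => T i →ₗ[K] T i) i) 0) ⊓
    sk (B i)

theorem mem_ZZ {i : I} {A : T i →ₗ[K] T i} : A ∈ ZZ χ w B ρ τ i ↔
    ((Pi.single i A, 0, 0) : (∀ i, T i →ₗ[K] T i) × (E →ₗ[K] E) × K) ∈ GG χ w B ρ τ ∧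
      A ∈ sk (B i) := Iff.rfl

/-- An eigenvector in the adjoint representation whose eigenvalue is not a quotient is compatible
with `0`. -/
theorem mem_ZZ_of_eig (h : AdFam χ w B ρ) (hτ : ∀ g x y, τ g (x * y) = τ g x * τ g y)
    (hgr : ∀ g m, ∀ x ∈ gr m, τ g x ∈ gr m) {S : Set J}
    (hS : ∀ D ∈ dr gr, (∀ m ∈ S, ∀ x ∈ gr m, D x = 0) → D = 0) {i : I} {A : T i →ₗ[K] T i}
    (hA : A ∈ sk (B i)) {g : Γ} {lam : K} (hlam : cj (ρ i) g A = lam • A)
    (hq : ¬Quot' τ gr S g lam) : A ∈ ZZ χ w B ρ τ i := by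
  obtain ⟨D₀, hD₀⟩ := exists_der h τ hτ hgr i hA
  obtain ⟨P, hPm⟩ : ∃ P : Submodule K ((∀ i, T i →ₗ[K] T i) × (E →ₗ[K] E) × K), ∀ p, p ∈ P ↔
      p ∈ DD χ w B ρ τ gr ∧ p.2.2 = 0 ∧ ∀ j, j ∉ ({i} : Set I) → p.1 j = 0 :=
    ⟨PS (DD χ w B ρ τ gr) {i}, fun p => Iff.rfl⟩
  let cg : ((∀ i, T i →ₗ[K] T i) × (E →ₗ[K] E) × K) →ₗ[K]
      ((∀ i, T i →ₗ[K] T i) × (E →ₗ[K] E) × K) :=
    LinearMap.prodMap (LinearMap.pi fun j => cjL (ρ j) g ∘ₗ LinearMap.proj j)
      (LinearMap.prodMap (cjL τ g) LinearMap.id)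
  have hcg : ∀ p, cg p = (fun j => cj (ρ j) g (p.1 j), cj τ g p.2.1, p.2.2) := fun p => rfl
  have hst : ∀ p ∈ P, cg p ∈ P := by
    intro p hp
    obtain ⟨h1, h2, h3⟩ := (hPm p).1 hp
    refine (hPm _).2 ⟨?_, h2, fun j hj => ?_⟩
    · rw [hcg]
      exact DD_conj h.form hτ hgr h1 g
    · rw [hcg]
      change cj (ρ j) g (p.1 j) = 0
      rw [h3 j hj, cj_zero]
  have hp₀ : ((Pi.single i A, D₀, 0) : (∀ i, T i →ₗ[K] T i) × (E →ₗ[K] E) × K) ∈ P := by
    refine (hPm _).2 ⟨hD₀, rfl, fun j hj => ?_⟩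
    exact Pi.single_eq_of_ne (fun h => hj h) _
  have hsing : (Pi.single i A : ∀ i, T i →ₗ[K] T i) i = A := Pi.single_eq_same _ _
  obtain ⟨p₁, hp₁, hpi, n, hn⟩ := comp_vec P cg hst (cjL (ρ i) g)
    (LinearMap.proj i ∘ₗ LinearMap.fst K (∀ i, T i →ₗ[K] T i) ((E →ₗ[K] E) × K))
    (fun p => rfl) (cjL τ g) (LinearMap.fst K (E →ₗ[K] E) K ∘ₗ
      LinearMap.snd K (∀ i, T i →ₗ[K] T i) ((E →ₗ[K] E) × K)) (fun p => rfl) hp₀ (lam := lam) (by
      change cj (ρ i) g ((Pi.single i A : ∀ i, T i →ₗ[K] T i) i) =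
        lam • (Pi.single i A : ∀ i, T i →ₗ[K] T i) i
      rw [hsing, hlam])
  have hpi' : p₁.1 i = A := by
    have h1 : p₁.1 i = (Pi.single i A : ∀ i, T i →ₗ[K] T i) i := hpi
    rw [h1, hsing]
  have hD : ((cjL τ g - algebraMap K _ lam) ^ n) p₁.2.1 = 0 := hn
  obtain ⟨hq1, hq2, hq3⟩ := (hPm _).1 hp₁
  have hDder : p₁.2.1 ∈ dr gr := hq1.2
  have hD0 : p₁.2.1 = 0 := by
    refine hS _ hDder fun m hm x hx => ?_
    by_contra hne
    apply hq
    have hx' := hx
    rw [Submodule.eq_iSup_inf_genEigenspace (p := gr m) (f := τ g) ⊤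
      (fun x hx => hgr g m x hx) (Module.End.iSup_maxGenEigenspace_eq_top (τ g))] at hx'
    obtain ⟨β, z, hz, hzne⟩ : ∃ β, ∃ z ∈ gr m ⊓ Module.End.maxGenEigenspace (τ g) β,
        p₁.2.1 z ≠ 0 := by
      by_contra hcon
      push Not at hcon
      apply hne
      refine Submodule.iSup_induction _ (motive := fun x => p₁.2.1 x = 0) hx' (fun μ x hx => ?_)
        (map_zero _) fun x y hx hy => ?_
      · exact hcon μ x hx
      · rw [map_add, hx, hy, add_zero]
    have hz0 : z ≠ 0 := by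
      rintro rfl
      exact hzne (map_zero _)
    obtain ⟨y, hy, hy0, hy'⟩ := eigvec_in (fun x hx => hgr g m x hx) hz0 hz.1 hz.2
    obtain ⟨k, hk⟩ := mem_gen.1 hz.2
    have h2 := shift τ g lam β (n + k) n k le_rfl p₁.2.1 z hD hk
    obtain ⟨x', hx1, hx0, hx2⟩ := eigvec_in (fun x hx => hgr g m x hx) hzne
      (hDder.2 m z hz.1) h2
    exact ⟨m, hm, x', hx1, y, hy, hx0, hy0, β, hx2, hy'⟩
  refine mem_ZZ.2 ⟨?_, hA⟩
  have h1 : p₁ = (Pi.single i A, 0, 0) := by
    refine Prod.ext (funext fun j => ?_) (Prod.ext hD0 hq2)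
    by_cases hj : j = i
    · subst hj
      rw [hpi']
      exact hsing.symm
    · rw [hq3 j hj]
      change 0 = (Pi.single i A : ∀ i, T i →ₗ[K] T i) j
      rw [Pi.single_eq_of_ne hj]
  rw [← h1]
  exact hq1.1

/-- If one nonzero skew operator is compatible with `0`, all are. -/
theorem ZZ_eq (h : AdFam χ w B ρ) {i : I} {A : T i →ₗ[K] T i} (hA : A ∈ ZZ χ w B ρ τ i)
    (hA0 : A ≠ 0) : ZZ χ w B ρ τ i = sk (B i) := by
  have hst : ∀ g, ∀ A ∈ ZZ χ w B ρ τ i, cj (ρ i) g A ∈ ZZ χ w B ρ τ i := by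
    intro g A hA
    obtain ⟨h1, h2⟩ := mem_ZZ.1 hA
    refine mem_ZZ.2 ⟨?_, sk_cj h h2 g⟩
    have h3 := GG_conj h.form h1 g
    have h4 : ((fun j => cj (ρ j) g ((Pi.single i A : ∀ i, T i →ₗ[K] T i) j), cj τ g 0, 0) :
        (∀ i, T i →ₗ[K] T i) × (E →ₗ[K] E) × K) = (Pi.single i (cj (ρ i) g A), 0, 0) := by
      refine Prod.ext (funext fun j => ?_) (Prod.ext (cj_zero _ _) rfl)
      by_cases hj : j = i
      · subst hj
        change cj (ρ j) g ((Pi.single j A : ∀ i, T i →ₗ[K] T i) j) = (Pi.single j _ :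
          ∀ i, T i →ₗ[K] T i) j
        rw [Pi.single_eq_same, Pi.single_eq_same]
      · change cj (ρ j) g ((Pi.single i A : ∀ i, T i →ₗ[K] T i) j) = (Pi.single i _ :
          ∀ i, T i →ₗ[K] T i) j
        rw [Pi.single_eq_of_ne hj, Pi.single_eq_of_ne hj, cj_zero]
    rw [← h4]
    exact h3
  rcases h.irr i (ZZ χ w B ρ τ i) inf_le_right hst with h1 | h1
  · rw [h1, Submodule.mem_bot] at hA
    exact absurd hA hA0
  · exact h1

/-- If all skew operators on `T i` are compatible with `0` then `i` does not occur. -/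
theorem not_occ (h : AdFam χ w B ρ) (halt : ∀ i x, B i x x = 0) {G : ℕ} {g : I → ℕ}
    {b : ∀ i, Lt G → T i} (hb : ∀ i, SBas (B i) (g i) (b i)) {n : ℕ} {c : Fin n → I} {a : ℤ}
    {f : MultilinearMap K (fun s => T (c s)) E} {U : Submodule K E}
    (hf : OccA χ B ρ τ U c a f) (s₀ : Fin n)
    (hZ : ZZ χ w B ρ τ (c s₀) = sk (B (c s₀))) : False := by
  classical
  obtain ⟨J, hJ, hJ0⟩ := exists_corner h halt hb hf.tate hf.ne hf.tr
  have hk : ((J s₀).2 : ℕ) < g (c s₀) := by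
    by_contra hcon
    exact hJ (wd_off hb f J s₀ (not_lt.1 hcon))
  have hJs : J s₀ = (0, (J s₀).2) := Prod.ext (hJ0 s₀) rfl
  set k := (J s₀).2 with hkdef
  have hop : opA (B (c s₀)) (b (c s₀) (0, k)) (b (c s₀) (1, k)) ∈ sk (B (c s₀)) :=
    fun x y => opA_skew (halt _) _ _ x y
  rw [← hZ] at hop
  have h3 := (mem_GG.1 (mem_ZZ.1 hop).1).2 n c a f hf.tate (fun s => b (c s) (J s))
  simp only [mul_zero, zero_smul, add_zero, LinearMap.zero_apply] at h3
  have h01 : ¬((1 : Fin 2) = 0) := by decide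
  have hbar0 : bar ((0, k) : Lt G) = (1, k) := by simp [bar]
  have hbar1 : bar ((1, k) : Lt G) = (0, k) := by simp [bar]
  have hsg : sg ((1, k) : Lt G) = -1 := by simp [sg]
  have h4 : ∀ s, f (update (fun s => b (c s) (J s)) s
      ((Pi.single (c s₀) (opA (B (c s₀)) (b (c s₀) (0, k)) (b (c s₀) (1, k))) :
        ∀ i, T i →ₗ[K] T i) (c s) (b (c s) (J s)))) =
      if c s = c s₀ ∧ J s = (0, k) then -wd b f J else 0 := by
    intro s
    by_cases hs : c s = c s₀
    · have e0 : ∀ i, i = c s → (Pi.single i (opA (B i) (b i (0, k)) (b i (1, k))) :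
          ∀ i, T i →ₗ[K] T i) (c s) = opA (B (c s)) (b (c s) (0, k)) (b (c s) (1, k)) := by
        rintro i rfl
        exact Pi.single_eq_same _ _
      have hks : (k : ℕ) < g (c s) := by rw [hs]; exact hk
      rw [e0 _ hs.symm, opA_apply, (hb (c s)).form, (hb (c s)).form, hbar0, hbar1]
      have hne : ¬(J s = ((1, k) : Lt G) ∧ ((0 : Fin 2), k).2 < g (c s)) := by
        rintro ⟨h5, -⟩
        have h6 := hJ0 s
        rw [h5] at h6
        exact h01 h6
      rw [if_neg (fun h => hne ⟨h.1, h.2⟩), zero_smul, zero_add]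
      by_cases h5 : J s = (0, k)
      · rw [if_pos ⟨h5, hks⟩, if_pos ⟨hs, h5⟩, hsg, f.map_update_smul, ← h5, update_eq_self]
        simp [wd]
      · rw [if_neg fun h => h5 h.1, if_neg fun h => h5 h.2, zero_smul]
        exact f.map_coord_zero s (by rw [update_self])
    · rw [if_neg fun h => hs h.1]
      refine f.map_coord_zero s ?_
      rw [update_self]
      have e1 : (Pi.single (c s₀) (opA (B (c s₀)) (b (c s₀) (0, k)) (b (c s₀) (1, k))) :
          ∀ i, T i →ₗ[K] T i) (c s) = 0 := Pi.single_eq_of_ne hs _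
      rw [e1, LinearMap.zero_apply]
  rw [Finset.sum_congr rfl fun s _ => h4 s, ← Finset.sum_filter, Finset.sum_const] at h3
  have h5 : (univ.filter fun s => c s = c s₀ ∧ J s = (0, k)).card ≠ 0 := by
    rw [Finset.card_ne_zero]
    exact ⟨s₀, by simp [hJs]⟩
  have h6 : ((univ.filter fun s => c s = c s₀ ∧ J s = (0, k)).card : K) • wd b f J = 0 := by
    rw [Nat.cast_smul_eq_nsmul]
    rw [smul_neg, neg_eq_zero] at h3
    exact h3
  exact (smul_ne_zero (Nat.cast_ne_zero.2 h5) hJ) h6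

/-- **The criterion**: the eigenvalues in the adjoint representation of a colour which occurs are
quotients of eigenvalues on the generators of the algebra. -/
theorem occ_quot (h : AdFam χ w B ρ) (halt : ∀ i x, B i x x = 0)
    (hτ : ∀ g x y, τ g (x * y) = τ g x * τ g y)
    (hgr : ∀ g m, ∀ x ∈ gr m, τ g x ∈ gr m) {S : Set J}
    (hS : ∀ D ∈ dr gr, (∀ m ∈ S, ∀ x ∈ gr m, D x = 0) → D = 0) {G : ℕ} {g : I → ℕ}
    {b : ∀ i, Lt G → T i} (hb : ∀ i, SBas (B i) (g i) (b i)) {n : ℕ} {c : Fin n → I} {a : ℤ}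
    {f : MultilinearMap K (fun s => T (c s)) E} {U : Submodule K E}
    (hf : OccA χ B ρ τ U c a f) (s₀ : Fin n) {A : T (c s₀) →ₗ[K] T (c s₀)}
    (hA : A ∈ sk (B (c s₀))) (hA0 : A ≠ 0) {γ : Γ} {lam : K}
    (hlam : cj (ρ (c s₀)) γ A = lam • A) : Quot' τ gr S γ lam := by
  by_contra hq
  exact not_occ h halt hb hf s₀ (ZZ_eq h (mem_ZZ_of_eig h hτ hgr hS hA hlam hq) hA0)

end Pool.Agent.Y132.AH
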