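import Pool.Agent.Y132.AH.GDefs

/-!
# Motives for absolute Hodge cycles and their Hodge realization: definitions
-/

open CategoryTheory AlgebraicGeometry

universe u v

namespace Pool.Agent.Y132.AH

open Pool.Agent.H914

section Alg

variable {K : Type} [Field K] {A : Type} [Ring A] [Algebra K A] {B : Type} [Ring B] [Algebra K B]

/-- `x` is zero or of type `(p, q)`. -/
def OfType {gr : ℕ → Submodule K A} {n : ℕ} {tr : A →ₗ[K] K} {C : ℕ → Set A}
    (Ψ : HodgeAlg gr n tr C) (p q : ℤ) (x : A) : Prop :=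
  x = 0 ∨ ∃ a b : ℕ, (a : ℤ) = p ∧ (b : ℤ) = q ∧ x ∈ Ψ.hodge (a, b)

/-- The operator `p` has the property `S` and is idempotent. -/
def Idem (S : (A →ₗ[K] A) → Prop) (p : A →ₗ[K] A) : Prop := S p ∧ p ∘ₗ p = p

/-- The operator `q f p`. -/
def cut (p : A →ₗ[K] A) (q : B →ₗ[K] B) (f : A →ₗ[K] B) : A →ₗ[K] B := q ∘ₗ f ∘ₗ p

/-- The linear map `f` is zero or `f = q g p` for some `g` with the property `S`. -/
def InCut (p : A →ₗ[K] A) (q : B →ₗ[K] B) (S : (A →ₗ[K] B) → Prop) (f : A →ₗ[K] B) : Prop :=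
  f = 0 ∨ ∃ g, S g ∧ f = cut p q g

/-- The linear map `f` is rational and maps the type `(p, q)` to the type `(p + s, q + s)`. -/
structure IsHodgeLin {gr : ℕ → Submodule K A} {n : ℕ} {tr : A →ₗ[K] K} {C : ℕ → Set A}
    (Ψ : HodgeAlg gr n tr C) {gr' : ℕ → Submodule K B} {n' : ℕ} {tr' : B →ₗ[K] K}
    {C' : ℕ → Set B} (Ψ' : HodgeAlg gr' n' tr' C') (s : ℤ) (f : A →ₗ[K] B) : Prop where
  rational : ∀ σ x, f (Ψ.coeff σ x) = Ψ'.coeff σ (f x)
  type : ∀ a b, ∀ x ∈ Ψ.hodge (a, b), OfType Ψ' (a + s) (b + s) (f x)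

/-- The linear map `f` is rational, maps the type `(p, q)` to the type `(p + s, q + s)`, and
`f = q f p`. -/
structure IsCutHodge {gr : ℕ → Submodule K A} {n : ℕ} {tr : A →ₗ[K] K} {C : ℕ → Set A}
    (Ψ : HodgeAlg gr n tr C) {gr' : ℕ → Submodule K B} {n' : ℕ} {tr' : B →ₗ[K] K}
    {C' : ℕ → Set B} (Ψ' : HodgeAlg gr' n' tr' C') (s : ℤ) (p : A →ₗ[K] A) (q : B →ₗ[K] B)
    (f : A →ₗ[K] B) : Prop where
  cut_eq : f = cut p q f
  lin : IsHodgeLin Ψ Ψ' s f

/-- For all idempotents `p` with the property `S` and `q` with the property `S'`: the linear maps `f`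
which are rational, map the type `(p, q)` to the type `(p + s, q + s)` and satisfy `f = q f p` are
zero and the maps `q g p` for the `g` with the property `T`. -/
def SameMor {gr : ℕ → Submodule K A} {n : ℕ} {tr : A →ₗ[K] K} {C : ℕ → Set A}
    (Ψ : HodgeAlg gr n tr C) {gr' : ℕ → Submodule K B} {n' : ℕ} {tr' : B →ₗ[K] K}
    {C' : ℕ → Set B} (Ψ' : HodgeAlg gr' n' tr' C') (s : ℤ) (S : (A →ₗ[K] A) → Prop)
    (S' : (B →ₗ[K] B) → Prop) (T : (A →ₗ[K] B) → Prop) : Prop :=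
  ∀ p q, Idem S p → Idem S' q → ∀ f, IsCutHodge Ψ Ψ' s p q f ↔ InCut p q T f

/-- `g` is the operator `x ↦ s (c · r x)` for an element `c` with the property `P j`, `j = d + m`. -/
def IsOpOf {C : Type} [Ring C] [Algebra K C] (r : A →ₐ[K] C) (s : C →ₗ[K] B)
    (P : ℕ → C → Prop) (d : ℕ) (m : ℤ) (g : A →ₗ[K] B) : Prop :=
  ∃ (j : ℕ) (c : C), (j : ℤ) = d + m ∧ P j c ∧ corrOp r s c = g

end Alg

open Pool.Agent.H914 Pool.Agent.H914.VarClass Pool.Agent.H914.VarClass.Obj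
  Pool.Agent.H914.WeilCohomology Pool.Agent.H281R3.HT Pool.Agent.W552

variable {k : Type u} [Field k] {𝒱 : VarClass k} {ops : CycleOps 𝒱}
  {W : WeilCohomology.{u, 0} ops} (Ψ : HodgeData W) (E : Embeddings W)

/-- `g` is the operator `x ↦ pr₂_* (c · pr₁^* x)` from `H(X)` to `H(Y)` of an absolute Hodge class
`c` on `X × Y` of degree `2 (dim X + s)`. The motives for absolute Hodge cycles are the triples
`(X, p, m)` with an idempotent operator `p` on `H(X)` of this kind with `s = 0` and an integer `m`. -/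
def IsAbsOp (X Y : 𝒱.Obj) (s : ℤ) : (W.H X →ₗ[W.K] W.H Y) → Prop :=
  IsOpOf (W.map (fst X Y)) (W.push (snd X Y)) (IsAbsHodge Ψ E (X.prod Y)) X.dim s

/-- The Hodge realization is fully faithful on the motives `(X, p, m)` of the varieties `X` in the
class `𝒲`: the morphisms of rational Hodge structures `f` from `p H(X)(m)` to `q H(Y)(n)` (given by
the map `f = q f p` from `H(X)` to `H(Y)`) are given by `q c p` for an absolute Hodge class `c` on
`X × Y` of degree `2 (dim X + n - m)`. (The class `q c p` is determined by its operator.) -/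
def FullyFaithfulOn (𝒲 : Set 𝒱.Obj) : Prop :=
  ∀ X ∈ 𝒲, ∀ Y ∈ 𝒲, ∀ m n : ℤ, SameMor (Ψ.on X) (Ψ.on Y) (n - m) (IsAbsOp Ψ E X X 0)
    (IsAbsOp Ψ E Y Y 0) (IsAbsOp Ψ E X Y (n - m))

variable {Ψ E}

/-- The varieties isomorphic to a product of a variety in the class `𝒵` and powers of the `X i`. -/
def productsWith (𝒵 : Set 𝒱.Obj) {ι : Type} (X : ι → 𝒱.Obj) : Set 𝒱.Obj :=
  {Y | ∃ Z ∈ 𝒵, ∃ L : List ι, Nonempty (Y ≅ prodList X Z L)}

/-- The small ones of these products: no `X i` which occurs is separated from `Z` by the Hodge types,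
and the number of the factors and the dimensions of their transcendental cohomologies are bounded by
a Betti number of `Z`. -/
def smallProducts (Ψ : HodgeData W) (𝒵 : Set 𝒱.Obj) {ι : Type} [DecidableEq ι]
    (X : ι → 𝒱.Obj) : Set 𝒱.Obj :=
  {Y | ∃ Z ∈ 𝒵, ∃ L : List ι, (∀ i ∈ L, ¬TypeSep Ψ (X i) Z) ∧ SmallDim W X Z L.toFinset L ∧
    Nonempty (Y ≅ prodList X Z L)}

end Pool.Agent.Y132.AH
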