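import Pool.Agent.Y132.AH.Iso

/-!
# Tate classes and Hodge classes on products
-/

open CategoryTheory AlgebraicGeometry

set_option linter.unusedSectionVars false

universe u v

namespace Pool.Agent.Y132.AH

open Pool.Agent.H914 Pool.Agent.H914.VarClass Pool.Agent.H914.VarClass.Obj
  Pool.Agent.H914.WeilCohomology Pool.Agent.H281R3.HT Pool.Agent.W552 Pool.Agent.TH125.Gal
  Pool.Agent.Y132.AF

variable {k : Type u} [Field k] {𝒱 : VarClass k} {ops : CycleOps 𝒱}
  {W : WeilCohomology.{u, 0} ops} {Γ : Type} [Group Γ] (G : GaloisData W Γ) (Ψ : HodgeData W)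

section gal

theorem var_tower {ι : Type} (X : ι → 𝒱.Obj) (Z : 𝒱.Obj) (L : List ι) :
    IsTower (fun i => G.var (X i)) (G.var Z) L (G.var (prodList X Z L)) := by
  induction L with
  | nil => exact IsTower.nil
  | cons i L ih =>
    refine IsTower.cons i ih ?_
    exact IsProdVar.mk _ (fun g a => G.map _ g a) (fun g a => G.map _ g a)

theorem var_graded (Z : 𝒱.Obj) : GradedVar (G.var Z) := (G.galois Z).gr_mem

theorem var_tower_eq {ι : Type} {X : ι → 𝒱.Obj} {Z : 𝒱.Obj} {L : List ι} {Y : GVar W Γ}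
    (hY : IsTower (fun i => G.var (X i)) (G.var Z) L Y) : Y = G.var (prodList X Z L) := by
  let X' : ι → Pool.Agent.Y132.EP.DG W Γ := fun i => ⟨G.var (X i), (G.galois (X i)).gr_mem⟩
  let Z' : Pool.Agent.Y132.EP.DG W Γ := ⟨G.var Z, (G.galois Z).gr_mem⟩
  have e : L = L.map id := (List.map_id L).symm
  have h1 := var_tower G X Z L
  rw [e] at hY
  rw [e] at h1
  have h2 := isTower_unique (X := X') (Z := Z') L hY
  have h3 := isTower_unique (X := X') (Z := Z') L h1
  rw [List.map_id] at h3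
  rw [← h2] at h3
  exact h3.symm

/-- All Tate classes are in the system. -/
def TateIn (𝒞 : ClassSystem W) (X : 𝒱.Obj) : Prop := ∀ j c, IsTate G X j c → c ∈ 𝒞.C X

theorem classConj_tate (𝒞 : ClassSystem W) (X : 𝒱.Obj) :
    ClassConj G.χ 𝒞 (G.var X) ↔ TateIn G 𝒞 X := by
  constructor
  · intro h j c hc
    exact h j c hc.1 hc.2
  · intro h j c hc hc'
    exact h j c ⟨hc, hc'⟩

/-- **Systems of classes and Tate classes.** -/
theorem tate_iff [IsAlgClosed W.K] {ι : Type} [DecidableEq ι] {X : ι → 𝒱.Obj} (Z : 𝒱.Obj)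
    (hX : AdFamily G.χ fun i => G.var (X i)) (𝒞 : ClassSystem W) :
    ∃ B : Finset ι, ∑ i ∈ B, trDim W (X i) ≤ totDim W Z ∧
      (∀ i ∈ B, StableBound G.χ (G.var (X i)) (G.var Z)) ∧
      ∀ L : List ι, TateIn G 𝒞 (prodList X Z L) ↔
        ∀ L' : List ι, L'.Sublist L → SmallList G.χ (fun i => G.var (X i)) (G.var Z) B L' →
          TateIn G 𝒞 (prodList X Z L') := by
  obtain ⟨B, hB, hBa, hiff⟩ := class_iff' 𝒞 hX (var_graded G Z)
  refine ⟨B, hB, hBa, fun L => ⟨fun h L' hsub _ => ?_, fun h => ?_⟩⟩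
  · exact (classConj_tate G 𝒞 _).1 (class_sub hX (var_graded G Z) hsub
      (var_tower G X Z L) (var_tower G X Z L') ((classConj_tate G 𝒞 _).2 h))
  · rw [← classConj_tate]
    refine (hiff L _ (var_tower G X Z L)).2 fun L' Y' hsub hsmall hY' => ?_
    rw [var_tower_eq G hY', classConj_tate]
    exact h L' hsub hsmall

theorem val_mul' {K : Type} [Field K] (ν : Val K) (a b : Kˣ) :
    val ν (a * b) = val ν a + val ν b := by
  rw [val, ofMul_mul, map_add]
  rfl

theorem not_stableBound {X Z : 𝒱.Obj} (h : SlopeSep G X Z) :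
    ¬StableBound G.χ (G.var X) (G.var Z) := by
  intro hB
  obtain ⟨ν, g, N, hν, ⟨𝒰, h𝒰, hsp⟩, a, x, hxT, hx0, hxa, hlt⟩ := h
  set lam : W.Kˣ := a * a * (G.χ g ^ X.dim)⁻¹ with hlam
  obtain ⟨U, hU, z, hz, w, hw, hz0, hw0, β, hzβ, hwβ⟩ := hB 𝒰 ⟨h𝒰.stable, h𝒰.gen⟩ g a a lam
    x hxT x hxT hx0 hx0 hxa hxa (by
      rw [hlam, Units.val_mul, Units.val_mul, Units.val_inv_eq_inv_val, Units.val_pow_eq_pow_val]
      have h1 : ((G.χ g : W.Kˣ) : W.K) ^ X.dim ≠ 0 := pow_ne_zero _ (Units.ne_zero _)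
      change (G.χ g : W.K) ^ X.dim * _ = _
      field_simp)
  have hβ0 : β ≠ 0 := by
    rintro rfl
    rw [zero_smul] at hwβ
    exact hw0 ((G.act Z g).injective (by rw [map_zero]; exact hwβ))
  have h1 := hsp U hU (lam * Units.mk0 β hβ0) (Units.mk0 β hβ0) z w hz hw hz0 hw0
    (by rw [Units.val_mul]; exact hzβ) hwβ
  rw [val_mul'] at h1
  have h2 : val ν lam = 2 * val ν a - X.dim := by
    have h3 : lam * G.χ g ^ X.dim = a * a := by rw [hlam]; simp
    have h4 := congrArg (val ν) h3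
    rw [val_mul' ν lam, val_mul' ν a a, val_pow, hν] at h4
    linarith
  rw [h2] at h1
  linarith

/-- **Systems of classes and Tate classes** on products with varieties of high slopes. -/
theorem tate_sep [IsAlgClosed W.K] {ι : Type} {X : ι → 𝒱.Obj} (Z : 𝒱.Obj)
    (hX : AdFamily G.χ fun i => G.var (X i)) (𝒞 : ClassSystem W)
    (hsep : ∀ i, SlopeSep G (X i) Z) (L : List ι) :
    TateIn G 𝒞 (prodList X Z L) ↔ TateIn G 𝒞 Z := by
  classical
  obtain ⟨B, -, hB, hiff⟩ := tate_iff G Z hX 𝒞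
  have hB0 : ∀ i, i ∉ B := fun i hi => not_stableBound G (hsep i) (hB i hi)
  constructor
  · intro h
    exact (classConj_tate G 𝒞 _).1 (class_sub hX (var_graded G Z) (List.nil_sublist L)
      (var_tower G X Z L) (var_tower G X Z []) ((classConj_tate G 𝒞 _).2 h))
  · intro h
    rw [hiff]
    intro L' _ hsmall
    have h1 : L' = [] := by
      rw [List.eq_nil_iff_forall_not_mem]
      exact fun i hi => hB0 i (hsmall.mem i hi)
    rw [h1]
    exact h

end gal

section hodge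

/-- The Hodge version with stable generating subspaces. -/
theorem hodge_iff' [IsAlgClosed W.K] {ι : Type} [DecidableEq ι] {X : ι → 𝒱.Obj} (Z : 𝒱.Obj)
    (hX : SpFamily Ψ X) (𝒞 : ClassSystem W) :
    ∃ B : Finset ι, ∑ i ∈ B, trDim W (X i) ≤ totDim W Z ∧ (∀ i ∈ B, ¬TypeSep Ψ (X i) Z) ∧
      ∀ L : List ι, HodgeIn Ψ 𝒞 (prodList X Z L) ↔
        ∀ L' : List ι, L'.Sublist L → SmallHodge Ψ X Z B L' →
          HodgeIn Ψ 𝒞 (prodList X Z L') := by
  obtain ⟨B, hB, hBa, hiff⟩ := class_iff' 𝒞 (adFamily Ψ hX) (gradedVar Ψ Z)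
  refine ⟨B, hB, fun i hi hsep => ?_, fun L => ⟨fun h L' hsub _ => ?_, fun h => ?_⟩⟩
  · obtain ⟨N, ⟨𝒰, h𝒰, hw⟩, p, q, ⟨x, hxT, hxH, hx0⟩, hlt⟩ := hsep
    have hpq : p + q = (X i).dim := by
      refine type_sum Ψ (i := (p, q)) ((hX.var i).act.middle hxT) ?_
      rw [prj_same _ hxH]
      exact hx0
    have hst : StableGen (actv Ψ Z) 𝒰 := by
      refine ⟨fun U hU g x hx => ?_, h𝒰.gen⟩
      refine hact_ind (Ψ.isHodgeDec Z) (Ψ.isCoeffAct Z) (p := fun ρ _ => ∀ x ∈ U, ρ x ∈ U)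
        (fun x hx => hx) (fun g x hx => h𝒰.stable U hU g x hx)
        (fun a b _ _ ha hb x hx => ha _ (hb _ hx)) g x hx
    obtain ⟨U, hU, z, hz, w, hw', hz0, hw0, β, hzβ, hwβ⟩ := hBa i hi 𝒰 hst (two W.K) (2 ^ p)
      (2 ^ p) (2 ^ p * 2 ^ p / 2 ^ (X i).dim) x hxT x hxT hx0 hx0 (act_type Ψ hxH)
      (act_type Ψ hxH) (by
        rw [hchar_two]
        change (2 : W.K) ^ (X i).dim * _ = _
        field_simp)
    obtain ⟨a, ha, haa⟩ := exists_type Ψ hz0 hzβ
    obtain ⟨b, hb, hbb⟩ := exists_type Ψ hw0 hwβ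
    obtain ⟨m, hm⟩ := (hw U hU).1
    -- the eigenvectors are of pure type
    have hpure : ∀ {z : W.H Z} {c : W.K} {a : ℕ × ℕ}, z ∈ U → z ≠ 0 →
        ract Ψ Z (two W.K) z = c • z →
        prj (Ψ.isHodgeDec Z).isInternal a z ≠ 0 → TypeOn (Ψ.on Z) U a.1 a.2 := by
      intro z c a hz hz0 hzc hne
      refine ⟨z, hz, mem_of_prj (Ψ.isHodgeDec Z).isInternal fun j hj => ?_, hz0⟩
      by_contra hcon
      rw [act_two] at hzc
      have e1 := tor_eigen _ hzc hne
      have e2 := tor_eigen _ hzc hcon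
      have e3 : a.1 = j.1 := by
        by_contra e4
        exact two_pow_ne e4 (e1.symm.trans e2)
      have e4 := type_sum Ψ (hm hz) hne
      have e5 := type_sum Ψ (hm hz) hcon
      exact hj (Prod.ext e3.symm (by change j.2 = a.2; omega))
    have h1 := (hw U hU).2 a.1 a.2 b.1 b.2 (hpure hz hz0 hzβ ha) (hpure hw' hw0 hwβ hb)
    have h2 : (2 : W.K) ^ (p + p + b.1) = 2 ^ (a.1 + (X i).dim) := by
      rw [hbb] at haa
      have h3 : (2 : W.K) ^ (X i).dim ≠ 0 := pow_ne_zero _ two_ne_zero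
      rw [pow_add, pow_add, pow_add, ← haa]
      field_simp
    have h3 : p + p + b.1 = a.1 + (X i).dim := by
      by_contra h4
      exact two_pow_ne h4 h2
    omega
  · exact (classConj_iff Ψ 𝒞 _).1 (class_sub (adFamily Ψ hX) (gradedVar Ψ Z) hsub
      (isTower_prodList Ψ X Z L) (isTower_prodList Ψ X Z L') ((classConj_iff Ψ 𝒞 _).2 h))
  · rw [← classConj_iff]
    refine (hiff L _ (isTower_prodList Ψ X Z L)).2 fun L' Y' hsub hsmall hY' => ?_
    rw [isTower_eq Ψ hY', classConj_iff]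
    exact h L' hsub (smallHodge Ψ hX hsmall)

theorem hodge_sep [IsAlgClosed W.K] {ι : Type} {X : ι → 𝒱.Obj} (Z : 𝒱.Obj)
    (hX : SpFamily Ψ X) (𝒞 : ClassSystem W) (hsep : ∀ i, TypeSep Ψ (X i) Z) (L : List ι) :
    HodgeIn Ψ 𝒞 (prodList X Z L) ↔ HodgeIn Ψ 𝒞 Z := by
  classical
  obtain ⟨B, -, hB, hiff⟩ := hodge_iff' Ψ Z hX 𝒞
  have hB0 : ∀ i, i ∉ B := fun i hi => hB i hi (hsep i)
  constructor
  · intro h
    exact (classConj_iff Ψ 𝒞 _).1 (class_sub (adFamily Ψ hX) (gradedVar Ψ Z)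
      (List.nil_sublist L) (isTower_prodList Ψ X Z L) (isTower_prodList Ψ X Z [])
      ((classConj_iff Ψ 𝒞 _).2 h))
  · intro h
    rw [hiff]
    intro L' _ hsmall
    have h1 : L' = [] := by
      rw [List.eq_nil_iff_forall_not_mem]
      exact fun i hi => hB0 i (hsmall.mem i hi)
    rw [h1]
    exact h

end hodge

section systems

/-- The elements of degree `2 j` of a graded span. -/
theorem span_graded {X : 𝒱.Obj} {P : ℕ → W.H X → Prop} (hP : ∀ j c, P j c → c ∈ W.gr X (2 * j))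
    {j : ℕ} {c : W.H X} (hc : c ∈ W.gr X (2 * j))
    (h : c ∈ Submodule.span W.K {c | ∃ j, P j c}) : c ∈ Submodule.span W.K {c | P j c} := by
  have h2 : prj (W.isInternal X) (2 * j) c ∈ Submodule.span W.K {c | P j c} := by
    clear hc
    induction h using Submodule.span_induction with
    | mem a ha =>
      obtain ⟨i, ha⟩ := ha
      by_cases hij : i = j
      · subst hij
        rw [prj_same _ (hP _ _ ha)]
        exact Submodule.subset_span ha
      · rw [prj_ne _ (by omega) (hP _ _ ha)]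
        exact Submodule.zero_mem _
    | zero => rw [map_zero]; exact Submodule.zero_mem _
    | add x y _ _ hx hy => rw [map_add]; exact Submodule.add_mem _ hx hy
    | smul r x _ hx => rw [map_smul]; exact Submodule.smul_mem _ _ hx
  rwa [prj_same _ hc] at h2

/-- A class system from classes of degree `2 j`. -/
def mkSystem (P : ∀ X : 𝒱.Obj, ℕ → W.H X → Prop)
    (hcyc : ∀ X j z, X.IsCyc j z → P X j (W.cl X z))
    (hmul : ∀ X i j a b, P X i a → P X j b → P X (i + j) (a * b))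
    (hmap : ∀ {X Y : 𝒱.Obj} (f : X ⟶ Y) j b, P Y j b → P X j (W.map f b))
    (hpush : ∀ {X Y : 𝒱.Obj} (f : X ⟶ Y) j l a, l + X.dim = j + Y.dim → P X j a →
      P Y l (W.push f a))
    (hzero : ∀ {X Y : 𝒱.Obj} (f : X ⟶ Y) j a, j + Y.dim < X.dim → P X j a → W.push f a = 0) :
    ClassSystem W where
  C X := Submodule.span W.K {c | ∃ j, P X j c}
  alg_le X := by
    refine Submodule.span_mono ?_
    rintro c hc
    obtain ⟨j, z, hz, rfl⟩ := Set.mem_iUnion.1 hc
    exact ⟨j, hcyc X j z hz⟩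
  mul_mem {X a b} ha hb := by
    induction ha using Submodule.span_induction with
    | mem a ha =>
      obtain ⟨i, ha⟩ := ha
      induction hb using Submodule.span_induction with
      | mem b hb =>
        obtain ⟨j, hb⟩ := hb
        exact Submodule.subset_span ⟨i + j, hmul _ _ _ _ _ ha hb⟩
      | zero => rw [mul_zero]; exact Submodule.zero_mem _
      | add x y _ _ hx hy => rw [mul_add]; exact Submodule.add_mem _ hx hy
      | smul r x _ hx => rw [mul_smul_comm]; exact Submodule.smul_mem _ _ hx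
    | zero => rw [zero_mul]; exact Submodule.zero_mem _
    | add x y _ _ hx hy => rw [add_mul]; exact Submodule.add_mem _ hx hy
    | smul r x _ hx => rw [smul_mul_assoc]; exact Submodule.smul_mem _ _ hx
  map_mem {X Y} f b hb := by
    induction hb using Submodule.span_induction with
    | mem b hb =>
      obtain ⟨j, hb⟩ := hb
      exact Submodule.subset_span ⟨j, hmap f j b hb⟩
    | zero => rw [map_zero]; exact Submodule.zero_mem _
    | add x y _ _ hx hy => rw [map_add]; exact Submodule.add_mem _ hx hy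
    | smul r x _ hx => rw [map_smul]; exact Submodule.smul_mem _ _ hx
  push_mem {X Y} f a ha := by
    induction ha using Submodule.span_induction with
    | mem a ha =>
      obtain ⟨j, ha⟩ := ha
      by_cases hj : j + Y.dim < X.dim
      · rw [hzero f j a hj ha]
        exact Submodule.zero_mem _
      · exact Submodule.subset_span ⟨j + Y.dim - X.dim, hpush f j _ a (by omega) ha⟩
    | zero => rw [map_zero]; exact Submodule.zero_mem _
    | add x y _ _ hx hy => rw [map_add]; exact Submodule.add_mem _ hx hy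
    | smul r x _ hx => rw [map_smul]; exact Submodule.smul_mem _ _ hx

/-- The linear combinations of Hodge classes. -/
def hodgeSys : ClassSystem W :=
  mkSystem (IsHodge Ψ) (fun _ _ _ hz => isHodge_cyc Ψ hz)
    (fun _ _ _ _ _ ha hb => isHodge_mul Ψ ha hb) (fun f _ _ hb => isHodge_map Ψ f hb)
    (fun f _ _ _ hl ha => isHodge_push Ψ f hl ha) (fun f _ _ hj ha => push_zero Ψ f hj ha)

theorem isTate_add {X : 𝒱.Obj} {j : ℕ} {a b : W.H X} (ha : IsTate G X j a)
    (hb : IsTate G X j b) : IsTate G X j (a + b) := by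
  obtain ⟨ha, Δ, hΔ, h1⟩ := ha
  obtain ⟨hb, Δ', hΔ', h2⟩ := hb
  exact ⟨Submodule.add_mem _ ha hb, Δ ⊓ Δ', inferInstance, fun g hg => by
    rw [map_add, h1 g hg.1, h2 g hg.2, smul_add]⟩

theorem isTate_smul {X : 𝒱.Obj} {j : ℕ} {a : W.H X} (r : W.K) (ha : IsTate G X j a) :
    IsTate G X j (r • a) := by
  obtain ⟨ha, Δ, hΔ, h1⟩ := ha
  exact ⟨Submodule.smul_mem _ _ ha, Δ, hΔ, fun g hg => by rw [map_smul, h1 g hg, smul_comm]⟩

theorem isTate_zero (X : 𝒱.Obj) (j : ℕ) : IsTate G X j 0 :=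
  ⟨Submodule.zero_mem _, ⊤, inferInstance, fun g _ => by rw [map_zero, smul_zero]⟩

theorem isTate_mul {X : 𝒱.Obj} {i j : ℕ} {a b : W.H X} (ha : IsTate G X i a)
    (hb : IsTate G X j b) : IsTate G X (i + j) (a * b) := by
  obtain ⟨ha, Δ, hΔ, h1⟩ := ha
  obtain ⟨hb, Δ', hΔ', h2⟩ := hb
  refine ⟨by rw [mul_add]; exact W.mul_mem ha hb, Δ ⊓ Δ', inferInstance, fun g hg => ?_⟩
  rw [map_mul, h1 g hg.1, h2 g hg.2, smul_mul_smul_comm, pow_add]

theorem isTate_map {X Y : 𝒱.Obj} (f : X ⟶ Y) {j : ℕ} {b : W.H Y} (hb : IsTate G Y j b) :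
    IsTate G X j (W.map f b) := by
  obtain ⟨hb, Δ, hΔ, h1⟩ := hb
  exact ⟨W.map_mem f hb, Δ, hΔ, fun g hg => by rw [G.map f g b, h1 g hg, map_smul]⟩

theorem isTate_cyc {X : 𝒱.Obj} {j : ℕ} {z : X.Cycles} (hz : X.IsCyc j z) :
    IsTate G X j (W.cl X z) :=
  ⟨W.cl_mem hz, (G.galois X).cl_fix j _ ⟨z, hz, rfl⟩⟩

theorem gr_push {X Y : 𝒱.Obj} (f : X ⟶ Y) {i m : ℕ} {a : W.H X} (ha : a ∈ W.gr X i)
    (hm : m + 2 * X.dim ≠ i + 2 * Y.dim) : prj (W.isInternal Y) m (W.push f a) = 0 := by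
  apply W.nondeg
  intro b
  refine int_ind (p := fun b => W.tr Y (prj (W.isInternal Y) m (W.push f a) * b) = 0)
    (W.isInternal Y) b (fun j b hb => ?_) (by simp) fun x y hx hy => ?_
  · by_cases hmj : m + j = 2 * Y.dim
    · have h1 : ∀ y, W.tr Y (prj (W.isInternal Y) m y * b) = W.tr Y (y * b) := by
        intro y
        refine int_ind (p := fun y => W.tr Y (prj (W.isInternal Y) m y * b) = W.tr Y (y * b))
          (W.isInternal Y) y (fun l y hy => ?_) (by simp) fun x y hx hy => ?_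
        · by_cases hl : l = m
          · subst hl
            rw [prj_same _ hy]
          · rw [prj_ne _ hl hy, zero_mul, map_zero]
            exact (W.tr_eq_zero (W.mul_mem hy hb) (by omega)).symm
        · rw [map_add, add_mul, map_add, hx, hy, add_mul, map_add]
      rw [h1, W.tr_push]
      exact W.tr_eq_zero (W.mul_mem ha (W.map_mem f hb)) (by omega)
    · exact W.tr_eq_zero (W.mul_mem (prj_mem _ _ _) hb) hmj
  · rw [mul_add, map_add, hx, hy, add_zero]

theorem isTate_push {X Y : 𝒱.Obj} (f : X ⟶ Y) {j l : ℕ} (hl : l + X.dim = j + Y.dim)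
    {a : W.H X} (ha : IsTate G X j a) : IsTate G Y l (W.push f a) := by
  obtain ⟨ha, Δ, hΔ, h1⟩ := ha
  refine ⟨mem_of_prj (W.isInternal Y) fun m hm => gr_push f ha (by omega), Δ, hΔ, fun g hg => ?_⟩
  rw [← sub_eq_zero]
  apply W.nondeg
  intro b
  have hinv : ∀ (V : 𝒱.Obj) (b : W.H V), G.act V g (G.act V g⁻¹ b) = b := fun V b => by
    rw [← AlgEquiv.mul_apply, ← map_mul, mul_inv_cancel, map_one, AlgEquiv.one_apply]
  have h2 : (G.χ g : W.K) ^ X.dim * W.tr Y (G.act Y g (W.push f a) * b) =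
      (G.χ g : W.K) ^ X.dim * W.tr Y (((G.χ g : W.K) ^ l • W.push f a) * b) := by
    have e1 : W.tr Y (G.act Y g (W.push f a) * b) =
        (G.χ g : W.K) ^ Y.dim * W.tr X (a * W.map f (G.act Y g⁻¹ b)) := by
      conv_lhs => rw [← hinv Y b]
      rw [← map_mul, (G.galois Y).tr_act, W.tr_push]
    have e2 : (G.χ g : W.K) ^ X.dim * W.tr X (a * W.map f (G.act Y g⁻¹ b)) =
        W.tr X (G.act X g a * W.map f b) := by
      rw [← (G.galois X).tr_act g, map_mul, ← G.map f g⁻¹ b, hinv]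
    rw [e1, mul_left_comm, e2, h1 g hg, smul_mul_assoc, map_smul, smul_mul_assoc, map_smul,
      smul_eq_mul, smul_eq_mul, W.tr_push, ← mul_assoc, ← mul_assoc, ← pow_add, ← pow_add]
    congr 2
    omega
  rw [sub_mul, map_sub, sub_eq_zero]
  exact mul_left_cancel₀ (pow_ne_zero _ (Units.ne_zero _)) h2

/-- The linear combinations of Tate classes. -/
def tateSys : ClassSystem W :=
  mkSystem (IsTate G) (fun _ _ _ hz => isTate_cyc G hz)
    (fun _ _ _ _ _ ha hb => isTate_mul G ha hb) (fun f _ _ hb => isTate_map G f hb)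
    (fun f _ _ _ hl ha => isTate_push G f hl ha) (fun f j a hj ha =>
      ext_prj (W.isInternal _) fun m => by
        rw [map_zero]
        exact gr_push f ha.1 (by omega))

theorem tateIn_hodge (X : 𝒱.Obj) : TateIn G (hodgeSys Ψ) X ↔ TateInHodge Ψ G X := by
  constructor
  · intro h j c hc
    exact span_graded (P := IsHodge Ψ X) (fun j c hc => hodge_gr Ψ hc) hc.1 (h j c hc)
  · intro h j c hc
    have h1 : {c | IsHodge Ψ X j c} ⊆ {c | ∃ j, IsHodge Ψ X j c} := fun c hc => ⟨j, hc⟩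
    exact Submodule.span_mono h1 (h j c hc)

theorem hodgeIn_tate (X : 𝒱.Obj) : HodgeIn Ψ (tateSys G) X ↔ HodgeInTate Ψ G X := by
  constructor
  · intro h j c hc
    have h1 := span_graded (P := IsTate G X) (fun j c hc => hc.1) (hodge_gr Ψ hc) (h j c hc)
    clear hc
    induction h1 using Submodule.span_induction with
    | mem x hx => exact hx
    | zero => exact isTate_zero G X j
    | add x y _ _ hx hy => exact isTate_add G hx hy
    | smul r x _ hx => exact isTate_smul G r hx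
  · intro h j c hc
    exact Submodule.subset_span ⟨j, h j c hc⟩

theorem mumfordTate_iff (X : 𝒱.Obj) :
    MumfordTate Ψ G X ↔ TateInHodge Ψ G X ∧ HodgeInTate Ψ G X := by
  constructor
  · intro h
    exact ⟨fun j c hc => (h j c).1 hc, fun j c hc => (h j c).2 (Submodule.subset_span hc)⟩
  · rintro ⟨h1, h2⟩ j c
    refine ⟨h1 j c, fun hc => ?_⟩
    induction hc using Submodule.span_induction with
    | mem x hx => exact h2 j x hx
    | zero => exact isTate_zero G X j
    | add x y _ _ hx hy => exact isTate_add G hx hy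
    | smul r x _ hx => exact isTate_smul G r hx

/-- Invariance under isomorphisms. -/
theorem mumfordTate_iso {A B : 𝒱.Obj} (e : A ≅ B) (h : MumfordTate Ψ G A) :
    MumfordTate Ψ G B := by
  have h1 : ∀ b : W.H B, W.map e.inv (W.map e.hom b) = b := fun b => by
    rw [← W.map_comp, e.inv_hom_id, W.map_id]
  intro j c
  constructor
  · intro hc
    have h2 := (h j _).1 (isTate_map G e.hom hc)
    have h3 : ∀ x ∈ Submodule.span W.K {c | IsHodge Ψ A j c}, W.map e.inv x ∈
        Submodule.span W.K {c | IsHodge Ψ B j c} := by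
      intro x hx
      induction hx using Submodule.span_induction with
      | mem x hx => exact Submodule.subset_span (isHodge_map Ψ e.inv hx)
      | zero => rw [map_zero]; exact Submodule.zero_mem _
      | add x y _ _ hx hy => rw [map_add]; exact Submodule.add_mem _ hx hy
      | smul r x _ hx => rw [map_smul]; exact Submodule.smul_mem _ _ hx
    have h4 := h3 _ h2
    rwa [h1] at h4
  · intro hc
    have h3 : W.map e.hom c ∈ Submodule.span W.K {c | IsHodge Ψ A j c} := by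
      induction hc using Submodule.span_induction with
      | mem x hx => exact Submodule.subset_span (isHodge_map Ψ e.hom hx)
      | zero => rw [map_zero]; exact Submodule.zero_mem _
      | add x y _ _ hx hy => rw [map_add]; exact Submodule.add_mem _ hx hy
      | smul r x _ hx => rw [map_smul]; exact Submodule.smul_mem _ _ hx
    have h4 := isTate_map G e.inv ((h j _).2 h3)
    rwa [h1] at h4

/-- **The Mumford-Tate conjecture for products**, separated case. -/
theorem mt_sep [IsAlgClosed W.K] {ι : Type} {X : ι → 𝒱.Obj} (Z : 𝒱.Obj)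
    (hH : SpFamily Ψ X) (hG : AdFamily G.χ fun i => G.var (X i))
    (h1 : ∀ i, SlopeSep G (X i) Z) (h2 : ∀ i, TypeSep Ψ (X i) Z) (L : List ι) :
    MumfordTate Ψ G (prodList X Z L) ↔ MumfordTate Ψ G Z := by
  rw [mumfordTate_iff, mumfordTate_iff, ← tateIn_hodge, ← hodgeIn_tate, ← tateIn_hodge,
    ← hodgeIn_tate, tate_sep G Z hG (hodgeSys Ψ) h1 L, hodge_sep Ψ Z hH (tateSys G) h2 L]

/-- **The Mumford-Tate conjecture for all powers of products**, separated case. -/
theorem mt_all [IsAlgClosed W.K] {ι : Type} {X : ι → 𝒱.Obj} (Z : 𝒱.Obj)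
    (hH : SpFamily Ψ X) (hG : AdFamily G.χ fun i => G.var (X i))
    (h1 : ∀ i, SlopeSep G (X i) Z) (h2 : ∀ i, TypeSep Ψ (X i) Z) (L : List ι) :
    MumfordTateAll Ψ G (prodList X Z L) ↔ MumfordTateAll Ψ G Z := by
  refine forall_congr' fun n => ?_
  obtain ⟨L', ⟨e⟩⟩ := iso_pow X Z L n
  have h3 := mt_sep G Ψ (powN Z n) hH hG (fun i => slopeSep_pow G (h1 i) n)
    (fun i => typeSep_pow Ψ (h2 i) n) L'
  rw [← h3]
  exact ⟨fun h => mumfordTate_iso G Ψ e h, fun h => mumfordTate_iso G Ψ e.symm h⟩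

/-- **The Mumford-Tate conjecture for products**, general case. -/
theorem mt_iff [IsAlgClosed W.K] {ι : Type} [DecidableEq ι] {X : ι → 𝒱.Obj} (Z : 𝒱.Obj)
    (hH : SpFamily Ψ X) (hG : AdFamily G.χ fun i => G.var (X i)) :
    ∃ B B' : Finset ι, ∑ i ∈ B, trDim W (X i) ≤ totDim W Z ∧
      ∑ i ∈ B', trDim W (X i) ≤ totDim W Z ∧ (∀ i ∈ B, ¬SlopeSep G (X i) Z) ∧
      (∀ i ∈ B', ¬TypeSep Ψ (X i) Z) ∧
      ∀ L : List ι, MumfordTate Ψ G (prodList X Z L) ↔
        (∀ L' : List ι, L'.Sublist L → SmallList G.χ (fun i => G.var (X i)) (G.var Z) B L' →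
          TateInHodge Ψ G (prodList X Z L')) ∧
        (∀ L' : List ι, L'.Sublist L → SmallHodge Ψ X Z B' L' →
          HodgeInTate Ψ G (prodList X Z L')) := by
  obtain ⟨B, hB, hBs, hiff⟩ := tate_iff G Z hG (hodgeSys Ψ)
  obtain ⟨B', hB', hBs', hiff'⟩ := hodge_iff' Ψ Z hH (tateSys G)
  refine ⟨B, B', hB, hB', fun i hi h => not_stableBound G h (hBs i hi), hBs', fun L => ?_⟩
  rw [mumfordTate_iff, ← tateIn_hodge, ← hodgeIn_tate, hiff L, hiff' L]
  simp only [tateIn_hodge, hodgeIn_tate]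

end systems

section final

theorem bigFamily_ad {ι : Type} {X : ι → 𝒱.Obj} (hX : ∀ i, OddMiddle W (X i))
    (h : BigFamily G X) : AdFamily G.χ fun i => G.var (X i) where
  var i := ⟨⟨G.galois (X i), (hX i).odd, (hX i).middle, Or.inl (h.big i).irreducible,
    (h.big i).hyperbolic⟩, (hX i).homEqNum⟩
  adjoint i j hij hiso := h.adjoint i j hij hiso

theorem spFamily_odd {ι : Type} {X : ι → 𝒱.Obj} (h : SpFamily Ψ X) (i : ι) :
    OddMiddle W (X i) := ⟨(h.var i).act.odd, (h.var i).homEqNum, (h.var i).act.middle⟩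

theorem small_list {ι : Type} [DecidableEq ι] {X : ι → 𝒱.Obj} {Z : 𝒱.Obj} {B : Finset ι}
    {L : List ι} (h : SmallList G.χ (fun i => G.var (X i)) (G.var Z) B L) : SmallDim W X Z B L := by
  obtain ⟨h1, m, h2, h3, h4, -⟩ := h
  exact ⟨h1, m, h2, h3, h4⟩

theorem small_hodge {ι : Type} [DecidableEq ι] {X : ι → 𝒱.Obj} {Z : 𝒱.Obj} {B : Finset ι}
    {L : List ι} (h : SmallHodge Ψ X Z B L) : SmallDim W X Z B L := by
  obtain ⟨h1, m, h2, h3, h4, -⟩ := h
  exact ⟨h1, m, h2, h3, h4⟩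

theorem smallDim_mono {ι : Type} [DecidableEq ι] {X : ι → 𝒱.Obj} {Z : 𝒱.Obj} {B B' : Finset ι}
    (hB : B ⊆ B') {L : List ι} (h : SmallDim W X Z B L) : SmallDim W X Z B' L :=
  ⟨fun i hi => hB (h.mem i hi), h.degree⟩

/-- The Mumford-Tate conjecture for a product implies it for the subproducts. -/
theorem mt_sub {ι : Type} {X : ι → 𝒱.Obj} (Z : 𝒱.Obj) (hH : SpFamily Ψ X)
    (hG : AdFamily G.χ fun i => G.var (X i)) [IsAlgClosed W.K] {L L' : List ι}
    (hsub : L'.Sublist L) (h : MumfordTate Ψ G (prodList X Z L)) :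
    MumfordTate Ψ G (prodList X Z L') := by
  rw [mumfordTate_iff, ← tateIn_hodge, ← hodgeIn_tate] at h ⊢
  exact ⟨(classConj_tate G _ _).1 (class_sub hG (var_graded G Z) hsub
      (var_tower G X Z L) (var_tower G X Z L') ((classConj_tate G _ _).2 h.1)),
    (classConj_iff Ψ _ _).1 (class_sub (adFamily Ψ hH) (gradedVar Ψ Z) hsub
      (isTower_prodList Ψ X Z L) (isTower_prodList Ψ X Z L') ((classConj_iff Ψ _ _).2 h.2))⟩

/-- **The Mumford-Tate conjecture for products**, general case, second form. -/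
theorem mt_iff' [IsAlgClosed W.K] {ι : Type} [DecidableEq ι] {X : ι → 𝒱.Obj} (Z : 𝒱.Obj)
    (hH : SpFamily Ψ X) (hG : BigFamily G X) :
    ∃ B : Finset ι, ∑ i ∈ B, trDim W (X i) ≤ 2 * totDim W Z ∧
      (∀ i ∈ B, ¬(SlopeSep G (X i) Z ∧ TypeSep Ψ (X i) Z)) ∧
      ∀ L : List ι, MumfordTate Ψ G (prodList X Z L) ↔
        ∀ L' : List ι, L'.Sublist L → SmallDim W X Z B L' →
          MumfordTate Ψ G (prodList X Z L') := by
  have hG' := bigFamily_ad G (spFamily_odd Ψ hH) hG
  obtain ⟨B, B', hB, hB', hs, hs', hiff⟩ := mt_iff G Ψ Z hH hG'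
  refine ⟨B ∪ B', ?_, fun i hi h => ?_, fun L => ⟨fun h L' hsub _ => mt_sub G Ψ Z hH hG' hsub h,
    fun h => ?_⟩⟩
  · have h1 := Finset.sum_union_inter (s₁ := B) (s₂ := B') (f := fun i => trDim W (X i))
    omega
  · rcases Finset.mem_union.1 hi with hi | hi
    · exact hs i hi h.1
    · exact hs' i hi h.2
  · rw [hiff L]
    exact ⟨fun L' hsub hsmall => ((mumfordTate_iff G Ψ _).1 (h L' hsub (smallDim_mono
        Finset.subset_union_left (small_list G hsmall)))).1,
      fun L' hsub hsmall => ((mumfordTate_iff G Ψ _).1 (h L' hsub (smallDim_mono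
        Finset.subset_union_right (small_hodge Ψ hsmall)))).2⟩

end final

end Pool.Agent.Y132.AH
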