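import Pool.Agent.Y132.AH.FDefs
import Pool.Agent.Y132.AH.MT

/-!
# Full faithfulness of the Hodge realization
-/

open CategoryTheory AlgebraicGeometry

set_option linter.unusedSectionVars false

universe u v

namespace Pool.Agent.Y132.AH

open Pool.Agent.H914 Pool.Agent.H914.VarClass Pool.Agent.H914.VarClass.Obj
  Pool.Agent.H914.WeilCohomology Pool.Agent.H281R3.HT Pool.Agent.W552 Pool.Agent.TH125.Gal
  Pool.Agent.Y132.AF

variable {k : Type u} [Field k] {𝒱 : VarClass k} {ops : CycleOps 𝒱}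
  {W : WeilCohomology.{u, 0} ops} (Ψ : HodgeData W) (E : Embeddings W)

/-- The operator `x ↦ pr₂_* (c · pr₁^* x)` of the correspondence `c` from `X` to `Y`. -/
noncomputable abbrev corr (W : WeilCohomology.{u, 0} ops) (X Y : 𝒱.Obj) (c : W.H (X.prod Y)) :
    W.H X →ₗ[W.K] W.H Y :=
  corrOp (W.map (fst X Y)) (W.push (snd X Y)) c

theorem corr_apply (X Y : 𝒱.Obj) (c : W.H (X.prod Y)) (x : W.H X) :
    corr W X Y c x = W.push (snd X Y) (c * W.map (fst X Y) x) := rfl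

/-- `corr` as a linear map. -/
noncomputable def corrL (W : WeilCohomology.{u, 0} ops) (X Y : 𝒱.Obj) :
    W.H (X.prod Y) →ₗ[W.K] (W.H X →ₗ[W.K] W.H Y) where
  toFun := corr W X Y
  map_add' c c' := by
    ext x
    rw [LinearMap.add_apply, corr_apply, corr_apply, corr_apply, add_mul, map_add]
  map_smul' r c := by
    ext x
    rw [LinearMap.smul_apply, corr_apply, corr_apply, smul_mul_assoc, map_smul]
    rfl

theorem corrL_injective (X Y : 𝒱.Obj) : Function.Injective (corrL W X Y) := by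
  rw [injective_iff_map_eq_zero]
  intro c hc
  apply W.nondeg
  intro b
  obtain ⟨t, rfl⟩ := (W.kunneth X Y).2 b
  induction t using TensorProduct.induction_on with
  | zero => simp
  | tmul x y =>
    have h1 : corr W X Y c x = 0 := by
      have := congrArg (fun f => f x) hc
      exact this
    have h2 := W.tr_push (snd X Y) (c * W.map (fst X Y) x) y
    rw [corr_apply] at h1
    rw [h1, zero_mul, map_zero] at h2
    rw [h2, mul_assoc]
    rfl
  | add s t hs ht => rw [map_add, mul_add, map_add, hs, ht, add_zero]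

theorem corrL_surjective (X Y : 𝒱.Obj) : Function.Surjective (corrL W X Y) := by
  have h1 : Module.finrank W.K (W.H (X.prod Y)) =
      Module.finrank W.K (W.H X →ₗ[W.K] W.H Y) := by
    rw [Module.finrank_linearMap, ← Module.finrank_tensorProduct]
    exact (LinearEquiv.ofBijective _ (W.kunneth X Y)).finrank_eq.symm
  exact (LinearMap.injective_iff_surjective_of_finrank_eq_finrank h1).1 (corrL_injective X Y)

theorem corr_coeff (X Y : 𝒱.Obj) (c : W.H (X.prod Y)) (σ : RingAut W.K) (x : W.H X) :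
    corr W X Y (Ψ.coeff _ σ c) (Ψ.coeff X σ x) = Ψ.coeff Y σ (corr W X Y c x) := by
  rw [corr_apply, corr_apply, push_coeff, ← Ψ.map_coeff, map_mul (Ψ.coeff _ σ)]

theorem corr_prj {X Y : 𝒱.Obj} {c : W.H (X.prod Y)} {i : ℕ × ℕ} (hc : c ∈ Ψ.hodge _ i)
    {a : ℕ × ℕ} {x : W.H X} (hx : x ∈ Ψ.hodge X a) {l : ℕ × ℕ}
    (hl : (l.1 + X.dim, l.2 + X.dim) ≠ (i.1 + a.1, i.2 + a.2)) :
    prj (Ψ.isHodgeDec Y).isInternal l (corr W X Y c x) = 0 := by
  rw [corr_apply]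
  refine push_prj Ψ (snd X Y) (i := (i.1 + a.1, i.2 + a.2))
    ((Ψ.isHodgeDec _).mul_mem hc (Ψ.map_hodge _ a x hx)) fun h1 => hl ?_
  rw [Prod.mk.injEq] at h1
  have h2 : (X.prod Y).dim = X.dim + Y.dim := rfl
  rw [h2] at h1
  refine Prod.ext ?_ ?_
  · change l.1 + X.dim = i.1 + a.1
    have := h1.1
    change l.1 + (X.dim + Y.dim) = i.1 + a.1 + Y.dim at this
    omega
  · change l.2 + X.dim = i.2 + a.2
    have := h1.2
    change l.2 + (X.dim + Y.dim) = i.2 + a.2 + Y.dim at this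
    omega

theorem ofType_prj {X : 𝒱.Obj} {p q : ℤ} {x : W.H X} (hx : OfType (Ψ.on X) p q x)
    {l : ℕ × ℕ} (hl : ((l.1 : ℤ), (l.2 : ℤ)) ≠ (p, q)) :
    prj (Ψ.isHodgeDec X).isInternal l x = 0 := by
  rcases hx with rfl | ⟨a, b, ha, hb, h⟩
  · rw [map_zero]
  · refine prj_ne _ (i := l) (j := (a, b)) ?_ h
    rintro rfl
    exact hl (Prod.ext ha hb)

theorem ofType_of_prj {X : 𝒱.Obj} {p q : ℤ} {x : W.H X}
    (hx : ∀ l : ℕ × ℕ, ((l.1 : ℤ), (l.2 : ℤ)) ≠ (p, q) →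
      prj (Ψ.isHodgeDec X).isInternal l x = 0) : OfType (Ψ.on X) p q x := by
  by_cases h : 0 ≤ p ∧ 0 ≤ q
  · right
    obtain ⟨a, rfl⟩ := Int.eq_ofNat_of_zero_le h.1
    obtain ⟨b, rfl⟩ := Int.eq_ofNat_of_zero_le h.2
    refine ⟨a, b, rfl, rfl, mem_of_prj (Ψ.isHodgeDec X).isInternal fun j hj => hx j fun h1 => hj ?_⟩
    rw [Prod.mk.injEq] at h1
    exact Prod.ext (by exact_mod_cast h1.1) (by exact_mod_cast h1.2)
  · left
    refine ext_prj (Ψ.isHodgeDec X).isInternal fun l => ?_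
    rw [map_zero]
    refine hx l fun h1 => h ?_
    rw [Prod.mk.injEq] at h1
    exact ⟨h1.1 ▸ Int.natCast_nonneg _, h1.2 ▸ Int.natCast_nonneg _⟩

/-- The operator of a Hodge class is a morphism of Hodge structures. -/
theorem isHodgeLin_corr {X Y : 𝒱.Obj} {j : ℕ} {c : W.H (X.prod Y)}
    (hc : IsHodge Ψ (X.prod Y) j c) {s : ℤ} (hs : (j : ℤ) = X.dim + s) :
    IsHodgeLin (Ψ.on X) (Ψ.on Y) s (corr W X Y c) where
  rational σ x := by
    have h1 := corr_coeff Ψ X Y c σ x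
    have h2 : Ψ.coeff _ σ c = c := hc.2 σ
    rw [h2] at h1
    exact h1
  type a b x hx := by
    refine ofType_of_prj Ψ fun l hl => corr_prj Ψ hc.1 hx fun h1 => hl ?_
    rw [Prod.mk.injEq] at h1
    refine Prod.ext ?_ ?_
    · change (l.1 : ℤ) = a + s
      have := h1.1
      change l.1 + X.dim = j + a at this
      omega
    · change (l.2 : ℤ) = b + s
      have := h1.2
      change l.2 + X.dim = j + b at this
      omega

theorem prj_map_int {X Y : 𝒱.Obj} {f g : W.H X →ₗ[W.K] W.H Y}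
    (h : ∀ i, ∀ x ∈ Ψ.hodge X i, f x = g x) : f = g := by
  ext x
  exact int_ind (p := fun x => f x = g x) (Ψ.isHodgeDec X).isInternal x h (by simp)
    fun x y hx hy => by rw [map_add, map_add, hx, hy]

/-- A morphism of Hodge structures is the operator of a Hodge class. -/
theorem exists_hodge {X Y : 𝒱.Obj} {s : ℤ} {f : W.H X →ₗ[W.K] W.H Y}
    (hf : IsHodgeLin (Ψ.on X) (Ψ.on Y) s f) :
    f = 0 ∨ ∃ (j : ℕ) (c : W.H (X.prod Y)), (j : ℤ) = X.dim + s ∧ IsHodge Ψ (X.prod Y) j c ∧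
      f = corr W X Y c := by
  by_cases hs : 0 ≤ (X.dim : ℤ) + s
  · right
    obtain ⟨j, hj⟩ := Int.eq_ofNat_of_zero_le hs
    obtain ⟨c, hc⟩ := corrL_surjective (W := W) X Y f
    have hcf : corr W X Y c = f := hc
    refine ⟨j, c, hj.symm, ⟨?_, fun σ => ?_⟩, hcf.symm⟩
    · refine mem_of_prj (Ψ.isHodgeDec _).isInternal fun i hi => ?_
      apply corrL_injective (W := W) X Y
      rw [map_zero]
      refine prj_map_int Ψ fun a x hx => ?_
      rw [LinearMap.zero_apply]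
      refine ext_prj (Ψ.isHodgeDec Y).isInternal fun l => ?_
      rw [map_zero]
      change prj _ l (corr W X Y (prj _ i c) x) = 0
      by_cases hl : (l.1 + X.dim, l.2 + X.dim) = (i.1 + a.1, i.2 + a.2)
      · have h1 : prj (Ψ.isHodgeDec Y).isInternal l
            (corr W X Y (prj (Ψ.isHodgeDec (X.prod Y)).isInternal i c) x) =
            prj (Ψ.isHodgeDec Y).isInternal l (corr W X Y c x) := by
          obtain ⟨S, hS⟩ := eq_sum_prj (Ψ.isHodgeDec (X.prod Y)).isInternal c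
          have h2 := hS (insert i S) (Finset.subset_insert i S)
          conv_rhs => rw [h2]
          have h3 : corr W X Y (∑ t ∈ insert i S,
              prj (Ψ.isHodgeDec (X.prod Y)).isInternal t c) x =
              ∑ t ∈ insert i S,
                corr W X Y (prj (Ψ.isHodgeDec (X.prod Y)).isInternal t c) x := by
            have h4 := congrArg (fun g => g x) (map_sum (corrL W X Y)
              (fun t => prj (Ψ.isHodgeDec (X.prod Y)).isInternal t c) (insert i S))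
            simp only [LinearMap.sum_apply] at h4
            exact h4
          rw [h3, map_sum, Finset.sum_eq_single_of_mem i (Finset.mem_insert_self i S)]
          intro t _ hti
          refine corr_prj Ψ (prj_mem _ t c) hx fun h5 => hti ?_
          rw [hl, Prod.mk.injEq] at h5
          exact Prod.ext (by have := h5.1; omega) (by have := h5.2; omega)
        rw [h1, hcf]
        refine ofType_prj Ψ (hf.type a.1 a.2 x hx) fun h5 => hi ?_
        rw [Prod.mk.injEq] at h5 hl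
        refine Prod.ext ?_ ?_
        · change i.1 = j
          have := h5.1
          have := hl.1
          omega
        · change i.2 = j
          have := h5.2
          have := hl.2
          omega
      · exact corr_prj Ψ (prj_mem _ i c) hx hl
    · apply corrL_injective (W := W) X Y
      ext x
      change corr W X Y (Ψ.coeff _ σ c) x = corr W X Y c x
      have h1 : Ψ.coeff X σ (Ψ.coeff X σ⁻¹ x) = x := by
        rw [← RingAut.mul_apply, ← map_mul, mul_inv_cancel, map_one, RingAut.one_apply]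
      conv_lhs => rw [← h1]
      rw [corr_coeff, hcf]
      have h2 : f (Ψ.coeff X σ (Ψ.coeff X σ⁻¹ x)) = Ψ.coeff Y σ (f (Ψ.coeff X σ⁻¹ x)) :=
        hf.rational σ _
      rw [← h2, h1]
  · left
    refine prj_map_int Ψ fun a x hx => ?_
    rw [LinearMap.zero_apply]
    rcases hf.type a.1 a.2 x hx with h | ⟨p, q, hp, hq, h⟩
    · exact h
    · have h1 : X.dim < a.1 := by omega
      have h2 := (Ψ.isHodgeDec X).eq_bot a.1 a.2 (Or.inl h1)
      have h3 : x ∈ Ψ.hodge X (a.1, a.2) := hx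
      rw [h2, Submodule.mem_bot] at h3
      rw [h3, map_zero]

theorem isHodgeLin_comp {X Y Z : 𝒱.Obj} {s t : ℤ} {f : W.H X →ₗ[W.K] W.H Y}
    {g : W.H Y →ₗ[W.K] W.H Z} (hf : IsHodgeLin (Ψ.on X) (Ψ.on Y) s f)
    (hg : IsHodgeLin (Ψ.on Y) (Ψ.on Z) t g) :
    IsHodgeLin (Ψ.on X) (Ψ.on Z) (s + t) (g ∘ₗ f) where
  rational σ x := by
    rw [LinearMap.comp_apply, hf.rational, hg.rational]
    rfl
  type a b x hx := by
    rw [LinearMap.comp_apply]
    rcases hf.type a b x hx with h | ⟨p, q, hp, hq, h⟩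
    · left
      rw [h, map_zero]
    · have h1 := hg.type p q _ h
      rw [hp, hq, add_assoc, add_assoc] at h1
      exact h1

theorem isHodgeLin_zero {X Y : 𝒱.Obj} (s : ℤ) :
    IsHodgeLin (Ψ.on X) (Ψ.on Y) s (0 : W.H X →ₗ[W.K] W.H Y) where
  rational σ x := by
    rw [LinearMap.zero_apply, LinearMap.zero_apply]
    exact (map_zero ((Ψ.on Y).coeff σ)).symm
  type a b x _ := Or.inl rfl

variable {Ψ E}

theorem hodge_of_mem {X Y : 𝒱.Obj} {s : ℤ} {g : W.H X →ₗ[W.K] W.H Y}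
    (h : IsAbsOp Ψ E X Y s g) : IsHodgeLin (Ψ.on X) (Ψ.on Y) s g := by
  obtain ⟨j, c, hj, hc, rfl⟩ := h
  exact isHodgeLin_corr Ψ hc.1 hj

theorem hodge_of_motivic {X Y : 𝒱.Obj} {s : ℤ} {p : W.H X →ₗ[W.K] W.H X}
    {q : W.H Y →ₗ[W.K] W.H Y} (hp : Idem (IsAbsOp Ψ E X X 0) p) (hq : Idem (IsAbsOp Ψ E Y Y 0) q)
    {f : W.H X →ₗ[W.K] W.H Y} (h : InCut p q (IsAbsOp Ψ E X Y s) f) :
    IsCutHodge (Ψ.on X) (Ψ.on Y) s p q f := by
  rcases h with rfl | ⟨g, hg, rfl⟩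
  · exact ⟨by rw [cut, LinearMap.zero_comp, LinearMap.comp_zero], isHodgeLin_zero Ψ _⟩
  · constructor
    · have h1 : p ∘ₗ p = p := hp.2
      have h2 : q ∘ₗ q = q := hq.2
      calc cut p q g = (q ∘ₗ q) ∘ₗ g ∘ₗ (p ∘ₗ p) := by rw [h1, h2]; rfl
        _ = _ := by simp only [LinearMap.comp_assoc, cut]
    · have h4 := isHodgeLin_comp Ψ (isHodgeLin_comp Ψ (hodge_of_mem hp.1) (hodge_of_mem hg))
        (hodge_of_mem hq.1)
      rw [zero_add, add_zero] at h4
      exact h4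

theorem motivic_of_hodge {X Y : 𝒱.Obj} {s : ℤ} {p : W.H X →ₗ[W.K] W.H X}
    {q : W.H Y →ₗ[W.K] W.H Y} {f : W.H X →ₗ[W.K] W.H Y}
    (habs : AllAbsolute Ψ E (X.prod Y)) (h : IsCutHodge (Ψ.on X) (Ψ.on Y) s p q f) :
    InCut p q (IsAbsOp Ψ E X Y s) f := by
  obtain ⟨h1, h2⟩ := h
  rcases exists_hodge Ψ h2 with h3 | ⟨j, c, hj, hc, h3⟩
  · exact Or.inl h3
  · exact Or.inr ⟨f, ⟨j, c, hj, habs j c hc, h3.symm⟩, h1⟩

section converse

variable (Ψ E)

theorem isAbs_one (X : 𝒱.Obj) : IsAbsHodge Ψ E X 0 (1 : W.H X) := by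
  have h1 := isAbs_cyc Ψ E (X := X) (j := 0) X.V.fundCycle_mem
  rwa [W.cl_fund] at h1

/-- The class of the diagonal. -/
noncomputable def diagCls (W : WeilCohomology.{u, 0} ops) (X : 𝒱.Obj) : W.H (X.prod X) :=
  W.push (diag X) 1

theorem isAbs_diag (X : 𝒱.Obj) : IsAbsHodge Ψ E (X.prod X) X.dim (diagCls W X) :=
  isAbs_push Ψ E (diag X) (j := 0) (by rw [dim_prod]; omega) (isAbs_one Ψ E X)

theorem corr_diag (X : 𝒱.Obj) : corr W X X (diagCls W X) = LinearMap.id := by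
  ext x
  rw [LinearMap.id_apply, ← sub_eq_zero]
  apply W.nondeg
  intro y
  rw [sub_mul, map_sub, corr_apply, W.tr_push, mul_assoc, diagCls, W.tr_push, one_mul, map_mul,
    ← W.map_comp, ← W.map_comp, diag, lift_fst, lift_snd, W.map_id, W.map_id, sub_self]

theorem isProjector_id (X : 𝒱.Obj) : Idem (IsAbsOp Ψ E X X 0) LinearMap.id :=
  ⟨⟨X.dim, diagCls W X, by simp, isAbs_diag Ψ E X, corr_diag X⟩, LinearMap.id_comp _⟩

theorem corr_one (X Y : 𝒱.Obj) (c : W.H (X.prod Y)) :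
    corr W X Y c 1 = W.push (snd X Y) c := by
  rw [corr_apply, map_one, mul_one]

theorem isHodgeLin_mul {X : 𝒱.Obj} {j : ℕ} {c : W.H X} (hc : IsHodge Ψ X j c) :
    IsHodgeLin (Ψ.on X) (Ψ.on X) ((j : ℤ) - 0) (LinearMap.mulLeft W.K c) where
  rational σ x := by
    rw [LinearMap.mulLeft_apply, LinearMap.mulLeft_apply, map_mul]
    congr 1
    exact (hc.2 σ).symm
  type a b x hx := by
    refine Or.inr ⟨a + j, b + j, by push_cast; ring, by push_cast; ring, ?_⟩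
    have h2 := (Ψ.isHodgeDec X).mul_mem hc.1 hx
    rw [LinearMap.mulLeft_apply, add_comm a, add_comm b]
    exact h2

/-- If the realization is full on the motives of `X` then all Hodge classes on `X` are absolute. -/
theorem abs_of_full {𝒲 : Set 𝒱.Obj} (h : FullyFaithfulOn Ψ E 𝒲) {X : 𝒱.Obj} (hX : X ∈ 𝒲) :
    AllAbsolute Ψ E X := by
  intro j c hc
  have h1 : IsCutHodge (Ψ.on X) (Ψ.on X) ((j : ℤ) - 0) LinearMap.id LinearMap.id
      (LinearMap.mulLeft W.K c) := ⟨rfl, isHodgeLin_mul Ψ hc⟩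
  rcases (h X hX X hX 0 j _ _ (isProjector_id Ψ E X) (isProjector_id Ψ E X) _).1 h1 with
    h2 | ⟨_, ⟨l, c', hl, hc', rfl⟩, h2⟩
  · have h3 : (LinearMap.mulLeft W.K c : W.H X →ₗ[W.K] W.H X) 1 = 0 :=
      congrArg (fun f : W.H X →ₗ[W.K] W.H X => f 1) h2
    rw [LinearMap.mulLeft_apply, mul_one] at h3
    rw [h3]
    exact isAbs_zero Ψ E X j
  · rw [cut, LinearMap.id_comp, LinearMap.comp_id] at h2
    have h3 := congrArg (fun f : W.H X →ₗ[W.K] W.H X => f 1) h2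
    simp only [corr_one, LinearMap.mulLeft_apply, mul_one] at h3
    rw [h3]
    refine isAbs_push Ψ E (snd X X) ?_ hc'
    rw [dim_prod]
    omega

theorem abs_iso {A B : 𝒱.Obj} (e : A ≅ B) (h : AllAbsolute Ψ E A) : AllAbsolute Ψ E B := by
  intro j c hc
  have h1 := isAbs_map Ψ E e.inv (h j _ (isHodge_map Ψ e.hom hc))
  rwa [← W.map_comp, e.inv_hom_id, W.map_id] at h1

end converse

section final

variable (Ψ E) [IsAlgClosed W.K] {ι : Type} {X : ι → 𝒱.Obj} {𝒵 : Set 𝒱.Obj}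

/-- Full faithfulness from absolute Hodge classes. -/
theorem full_of_abs (h𝒵 : ∀ Z ∈ 𝒵, ∀ Z' ∈ 𝒵, Z.prod Z' ∈ 𝒵)
    (h : ∀ Z ∈ 𝒵, ∀ L, AllAbsolute Ψ E (prodList X Z L)) :
    FullyFaithfulOn Ψ E (productsWith 𝒵 X) := by
  rintro A ⟨Z, hZ, L, ⟨e⟩⟩ B ⟨Z', hZ', L', ⟨e'⟩⟩ m n p q hp hq f
  refine ⟨fun hf => motivic_of_hodge ?_ hf, hodge_of_motivic hp hq⟩
  obtain ⟨e''⟩ := iso_append X Z Z' L L'
  exact abs_iso Ψ E (prodIso e e' ≪≫ e'').symm (h _ (h𝒵 Z hZ Z' hZ') _)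

/-- **Full faithfulness for products**, general case. -/
theorem full_iff [DecidableEq ι] (h𝒵 : ∀ Z ∈ 𝒵, ∀ Z' ∈ 𝒵, Z.prod Z' ∈ 𝒵) (hX : SpFamily Ψ X) :
    FullyFaithfulOn Ψ E (productsWith 𝒵 X) ↔ FullyFaithfulOn Ψ E (smallProducts Ψ 𝒵 X) := by
  constructor
  · rintro h A ⟨Z, hZ, L, -, -, e⟩ B ⟨Z', hZ', L', -, -, e'⟩
    exact h A ⟨Z, hZ, L, e⟩ B ⟨Z', hZ', L', e'⟩
  · intro h
    refine full_of_abs Ψ E h𝒵 fun Z hZ L => ?_
    obtain ⟨B, -, hs, hiff⟩ := hodge_iff' Ψ Z hX (absSystem Ψ E)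
    rw [← hodgeIn_abs, hiff L]
    intro L' _ hsmall
    rw [hodgeIn_abs]
    obtain ⟨h1, h2⟩ := small_hodge Ψ hsmall
    exact abs_of_full Ψ E h ⟨Z, hZ, L', fun i hi => hs i (h1 i hi),
      ⟨fun i hi => List.mem_toFinset.2 hi, h2⟩, ⟨Iso.refl _⟩⟩

/-- **Full faithfulness for products** with varieties of high level. -/
theorem full_sep (h𝒵 : ∀ Z ∈ 𝒵, ∀ Z' ∈ 𝒵, Z.prod Z' ∈ 𝒵) (hX : SpFamily Ψ X)
    (hsep : ∀ i, ∀ Z ∈ 𝒵, TypeSep Ψ (X i) Z) :
    FullyFaithfulOn Ψ E (productsWith 𝒵 X) ↔ FullyFaithfulOn Ψ E 𝒵 := by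
  constructor
  · intro h A hA B hB
    exact h A ⟨_, hA, [], ⟨Iso.refl _⟩⟩ B ⟨_, hB, [], ⟨Iso.refl _⟩⟩
  · intro h
    refine full_of_abs Ψ E h𝒵 fun Z hZ L => ?_
    rw [← hodgeIn_abs, hodge_sep Ψ Z hX (absSystem Ψ E) (fun i => hsep i Z hZ) L, hodgeIn_abs]
    exact abs_of_full Ψ E h hZ

end final

end Pool.Agent.Y132.AH
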