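import Pool.Agent.Y132.AH.HDefs

/-!
# Galois actions on a Weil cohomology theory and Tate classes

In the intended use the varieties are the smooth projective varieties over a finitely generated
field, `Γ` is its absolute Galois group and `W` is the étale cohomology over an algebraic closure of
the field, with coefficients in an algebraic closure of the field of `ℓ`-adic numbers.
-/

open CategoryTheory AlgebraicGeometry

universe u v

namespace Pool.Agent.Y132.AH

open Pool.Agent.Y132.AF Pool.Agent.TH125.Gal

section Alg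

variable {K : Type} [Field K] {A : Type} [Ring A] [Algebra K A] {Γ : Type} [Group Γ]

/-- The Tate classes of degree `2 j`: the elements `c` of `gr (2 j)` which are multiplied by
`χ g ^ j` by all elements `g` of a subgroup of finite index. -/
def TateCls (χ : Γ →* Kˣ) (gr : ℕ → Submodule K A) (ρ : Γ →* (A ≃ₐ[K] A)) (j : ℕ) (c : A) : Prop :=
  c ∈ gr (2 * j) ∧ ∃ Δ : Subgroup Γ, Δ.FiniteIndex ∧ ∀ g ∈ Δ, ρ g c = (χ g : K) ^ j • c

/-- An action of `Γ` on the cohomology `A` of a variety of dimension `n` which has the formal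
properties of a Galois action. -/
structure GalAlg (Γ : Type) [Group Γ] (χ : Γ →* Kˣ) (gr : ℕ → Submodule K A) (n : ℕ)
    (tr : A →ₗ[K] K) (C : ℕ → Set A) where
  /-- the action -/
  act : Γ →* (A ≃ₐ[K] A)
  galois : IsGaloisAct χ gr n tr C act

/-- The Tate classes of degree `2 j` are the linear combinations of Hodge classes of degree `2 j`. -/
def TateEqHodge {χ : Γ →* Kˣ} {gr : ℕ → Submodule K A} {n : ℕ} {tr : A →ₗ[K] K} {C : ℕ → Set A}
    (Ψ : HodgeAlg gr n tr C) (G : GalAlg Γ χ gr n tr C) (j : ℕ) : Prop :=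
  ∀ c, TateCls χ gr G.act j c ↔ c ∈ Submodule.span K {c | HodgeCls Ψ j c}

/-- The homomorphism `f` is equivariant. -/
def IsGalMap {B : Type} [Ring B] [Algebra K B] {χ : Γ →* Kˣ} {gr : ℕ → Submodule K A} {n : ℕ}
    {tr : A →ₗ[K] K} {C : ℕ → Set A} {gr' : ℕ → Submodule K B} {n' : ℕ} {tr' : B →ₗ[K] K}
    {C' : ℕ → Set B} (G : GalAlg Γ χ gr n tr C) (G' : GalAlg Γ χ gr' n' tr' C')
    (f : A →ₐ[K] B) : Prop :=
  ∀ g a, G'.act g (f a) = f (G.act g a)

/-- `ν a - ν b ≤ N` for any two eigenvalues `a` and `b` of `g` on the subspace `U`. -/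
def SpreadOn (ν : Val K) (ρ : Γ →* (A ≃ₐ[K] A)) (g : Γ) (U : Submodule K A) (N : ℚ) : Prop :=
  ∀ (a b : Kˣ) (x y : A), x ∈ U → y ∈ U → x ≠ 0 → y ≠ 0 → ρ g x = (a : K) • x →
    ρ g y = (b : K) • y → val ν a ≤ val ν b + N

/-- The subspaces in `𝒰` are stable under the operators `R g` and generate the algebra. -/
structure StabGen {G : Type} (R : G → A → A) (𝒰 : Set (Submodule K A)) : Prop where
  stable : ∀ U ∈ 𝒰, ∀ g, ∀ x ∈ U, R g x ∈ U
  gen : Algebra.adjoin K (⋃ U ∈ 𝒰, (U : Set A)) = ⊤

/-- The algebra is generated by stable subspaces `U` such that `ν a - ν b ≤ N` for any two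
eigenvalues `a` and `b` of `g` on `U`. -/
def SpreadGen (ν : Val K) (ρ : Γ →* (A ≃ₐ[K] A)) (g : Γ) (N : ℚ) : Prop :=
  ∃ 𝒰 : Set (Submodule K A), StabGen (fun γ x => ρ γ x) 𝒰 ∧ ∀ U ∈ 𝒰, SpreadOn ν ρ g U N

/-- The algebra is generated by subspaces `U` of the `gr m` which are stable under the Mumford-Tate
group, such that `p - p' ≤ N` for any two Hodge types `(p, q)` and `(p', q')` of `U`. -/
def WidthOn {gr : ℕ → Submodule K A} {n : ℕ} {tr : A →ₗ[K] K} {C : ℕ → Set A}
    (Ψ : HodgeAlg gr n tr C) (N : ℕ) : Prop :=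
  ∃ 𝒰 : Set (Submodule K A), StabGen (conjTorus Ψ) 𝒰 ∧ ∀ U ∈ 𝒰, (∃ m, U ≤ gr m) ∧
    ∀ p q p' q', TypeOn Ψ U p q → TypeOn Ψ U p' q' → p ≤ p' + N

/-- The group acts irreducibly on the skew operators on `T`, and some element has two eigenvalues on
`T` whose quotient is not a root of unity. -/
structure IsBig (tr : A →ₗ[K] K) (T : Submodule K A) (ρ : Γ →* (A ≃ₐ[K] A)) : Prop where
  irreducible : RelIrr K (ConjSkew tr T ρ)
  hyperbolic : HypAct T ρ

/-- `g` has an eigenvalue `a` on `T` with `2 ν a > n + N`. -/
def HighOn (ν : Val K) (ρ : Γ →* (A ≃ₐ[K] A)) (g : Γ) (T : Submodule K A) (n : ℕ) (N : ℚ) : Prop :=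
  ∃ (a : Kˣ) (x : A), x ∈ T ∧ x ≠ 0 ∧ ρ g x = (a : K) • x ∧ n + N < 2 * val ν a

end Alg

open Pool.Agent.H914 Pool.Agent.H914.VarClass Pool.Agent.H914.VarClass.Obj
  Pool.Agent.H914.WeilCohomology Pool.Agent.H281R3.HT Pool.Agent.W552

variable {k : Type u} [Field k] {𝒱 : VarClass k} {ops : CycleOps 𝒱}

/-- Actions of the group `Γ` on the cohomology of all varieties which have the formal properties of
Galois actions with the character `χ` on the Tate twists and are compatible with pull-backs. -/
structure GaloisData (W : WeilCohomology.{u, 0} ops) (Γ : Type) [Group Γ] where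
  /-- the action on the Tate twists -/
  χ : Γ →* W.Kˣ
  /-- the action on the cohomology of `X` -/
  on : ∀ X : 𝒱.Obj, GalAlg Γ χ (W.gr X) X.dim (W.tr X) (algClasses W X)
  isGalMap : ∀ {X Y : 𝒱.Obj} (f : X ⟶ Y), IsGalMap (on Y) (on X) (W.map f)

variable {W : WeilCohomology.{u, 0} ops} {Γ : Type} [Group Γ]

/-- The action on the cohomology of `X`. -/
abbrev GaloisData.act (G : GaloisData W Γ) (X : 𝒱.Obj) : Γ →* (W.H X ≃ₐ[W.K] W.H X) :=
  (G.on X).act

/-- The variety `X` with the action of `Γ` on the cohomology. -/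
abbrev GaloisData.var (G : GaloisData W Γ) (X : 𝒱.Obj) : GVar W Γ := ⟨X, G.act X⟩

theorem GaloisData.galois (G : GaloisData W Γ) (X : 𝒱.Obj) :
    IsGaloisAct G.χ (W.gr X) X.dim (W.tr X) (algClasses W X) (G.act X) := (G.on X).galois

theorem GaloisData.map (G : GaloisData W Γ) {X Y : 𝒱.Obj} (f : X ⟶ Y) :
    Intertwines (W.map f) (G.act Y) (G.act X) := G.isGalMap f

/-- The Galois representations on the skew operators on the transcendental cohomology of `X` and `Y`
are isomorphic. -/
def SameGal (G : GaloisData W Γ) (X Y : 𝒱.Obj) : Prop :=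
  AdIsoAct (W.tr X) (transcendental W X) (G.on X).act (W.tr Y) (transcendental W Y) (G.on Y).act

/-- For all `i` the group `Γ` acts irreducibly on the operators on the transcendental cohomology of
`X i` which are skew with respect to the intersection form, and some element has two eigenvalues on
the transcendental cohomology whose quotient is not a root of unity; these representations for
different `X i` are not isomorphic. -/
structure BigFamily (G : GaloisData W Γ) {ι : Type} (X : ι → 𝒱.Obj) : Prop where
  big : ∀ i, IsBig (W.tr (X i)) (transcendental W (X i)) (G.on (X i)).act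
  adjoint : ∀ i j, i ≠ j → ¬SameGal G (X i) (X j)

/-- `X` is odd-dimensional, homological and numerical equivalence coincide on `X` and the
transcendental cohomology is in the middle degree. -/
structure OddMiddle (W : WeilCohomology.{u, 0} ops) (X : 𝒱.Obj) : Prop where
  odd : Odd X.dim
  homEqNum : HomEqNum W X
  middle : transcendental W X ≤ W.gr X X.dim

/-- The Tate classes of degree `2 j`. -/
def IsTate (G : GaloisData W Γ) (X : 𝒱.Obj) (j : ℕ) (c : W.H X) : Prop :=
  TateCls G.χ (W.gr X) (G.on X).act j c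

/-- For some place `ν` and some element `g` (a Frobenius element at this place) and some number `N`:
the cohomology of `Z` is generated by stable subspaces on each of which the slopes of `g` differ by
at most `N`, and `g` has a slope greater than `(dim X + N) / 2` on the transcendental cohomology of
`X`. (If `Z` is a product of curves or an abelian variety then `N = 1` is possible.) -/
def SlopeSep (G : GaloisData W Γ) (X Z : 𝒱.Obj) : Prop :=
  ∃ (ν : Val W.K) (g : Γ) (N : ℚ), val ν (G.χ g) = 1 ∧ SpreadGen ν (G.on Z).act g N ∧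
    HighOn ν (G.on X).act g (transcendental W X) X.dim N

/-- For some number `N`: the cohomology of `Z` is generated by subspaces `U` of the `H^m(Z)` which
are stable under the Mumford-Tate group, such that `p - p' ≤ N` for any two Hodge types `(p, q)` and `(p', q')` of
`U`, and the transcendental cohomology of `X` has a Hodge type `(p, q)` with `p - q > N`. -/
def TypeSep (Ψ : HodgeData W) (X Z : 𝒱.Obj) : Prop := ∃ N : ℕ, WidthOn (Ψ.on Z) N ∧ LevelGT Ψ X N

/-- All Tate classes on `X` are linear combinations of Hodge classes. -/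
def TateInHodge (Ψ : HodgeData W) (G : GaloisData W Γ) (X : 𝒱.Obj) : Prop :=
  ∀ j c, IsTate G X j c → c ∈ Submodule.span W.K {c | IsHodge Ψ X j c}

/-- All Hodge classes on `X` are Tate classes. -/
def HodgeInTate (Ψ : HodgeData W) (G : GaloisData W Γ) (X : 𝒱.Obj) : Prop :=
  ∀ j c, IsHodge Ψ X j c → IsTate G X j c

/-- The Mumford-Tate conjecture for the classes on `X`: the Tate classes are the linear combinations
of the Hodge classes. -/
def MumfordTate (Ψ : HodgeData W) (G : GaloisData W Γ) (X : 𝒱.Obj) : Prop :=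
  ∀ j, TateEqHodge (Ψ.on X) (G.on X) j

/-- The entries of the list `L` are in `B`, and for some degree `m` of the parity of the sum of the
dimensions of the `X i`: the product of the numbers `(number of the entries i) + 1` and the sum of
the dimensions of the transcendental cohomologies of the `X i`, over the different entries `i`, are
at most the dimension of the cohomology of `Z` in degree `m`. -/
structure SmallDim (W : WeilCohomology.{u, 0} ops) {ι : Type} [DecidableEq ι] (X : ι → 𝒱.Obj)
    (Z : 𝒱.Obj) (B : Finset ι) (L : List ι) : Prop where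
  mem : ∀ i ∈ L, i ∈ B
  degree : ∃ m, Even (m + (L.map fun i => (X i).dim).sum) ∧
    ∏ i ∈ L.toFinset, (L.count i + 1) ≤ betti W Z m ∧
    ∑ i ∈ L.toFinset, trDim W (X i) ≤ betti W Z m

/-- The product of `n + 1` copies of `Z`. -/
noncomputable def powN (Z : 𝒱.Obj) : ℕ → 𝒱.Obj
  | 0 => Z
  | n + 1 => Z.prod (powN Z n)

/-- The Mumford-Tate conjecture for all powers of `X`. -/
def MumfordTateAll (Ψ : HodgeData W) (G : GaloisData W Γ) (X : 𝒱.Obj) : Prop :=
  ∀ n, MumfordTate Ψ G (powN X n)

end Pool.Agent.Y132.AH
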