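import Pool.Agent.Y132.AH.HMain

/-!
# Hodge classes and systems of classes
-/

open CategoryTheory AlgebraicGeometry

set_option linter.unusedSectionVars false

universe u v

namespace Pool.Agent.Y132.AH

open Pool.Agent.H914 Pool.Agent.H914.VarClass Pool.Agent.H914.VarClass.Obj
  Pool.Agent.H914.WeilCohomology Pool.Agent.H281R3.HT Pool.Agent.W552 Pool.Agent.TH125.Gal
  Pool.Agent.Y132.AF

variable {k : Type u} [Field k] {𝒱 : VarClass k} {ops : CycleOps 𝒱}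
  {W : WeilCohomology.{u, 0} ops} (Ψ : HodgeData W)

theorem hchar_pow_apply {K : Type} [Field K] (σ : RingAut K) (w : Kˣ) (n : ℕ) :
    ((hchar K (FreeGroup.of (σ, w) ^ n) : Kˣ) : K) = σ (((w ^ n : Kˣ) : K)) := by
  rw [map_pow, Units.val_pow_eq_pow_val, hchar_of, Units.val_pow_eq_pow_val, map_pow]

/-- The action on the invariants of a subgroup of finite index. -/
theorem ctor_of_index [IsAlgClosed W.K] {X : 𝒱.Obj} {j : ℕ} {c : W.H X}
    {Δ : Subgroup (FreeGroup (RingAut W.K × W.Kˣ))} (hΔ : Δ.FiniteIndex)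
    (hc : ∀ g ∈ Δ, ract Ψ X g c = ((hchar W.K g : W.Kˣ) : W.K) ^ j • c) (σ : RingAut W.K)
    (z : W.Kˣ) : ctor (Ψ.isHodgeDec X) (Ψ.isCoeffAct X) (σ, z) c = σ (z : W.K) ^ j • c := by
  have hn : 0 < Δ.index.factorial := Nat.factorial_pos _
  obtain ⟨w, hw⟩ := IsAlgClosed.exists_pow_nat_eq (z : W.K) hn
  have hw0 : w ≠ 0 := by
    rintro rfl
    rw [zero_pow hn.ne'] at hw
    exact z.ne_zero hw.symm
  have hwz : (Units.mk0 w hw0) ^ Δ.index.factorial = z := Units.ext (by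
    rw [Units.val_pow_eq_pow_val]
    exact hw)
  have h1 : FreeGroup.of (σ, Units.mk0 w hw0) ^ Δ.index.factorial ∈ Δ :=
    Subgroup.pow_mem_of_index_ne_zero_of_dvd hΔ.index_ne_zero _ fun m hm0 hm =>
      Nat.dvd_factorial hm0 hm
  have h2 := hc _ h1
  rw [hchar_pow_apply, hwz, ract, map_pow, hact_of, ctor_pow, hwz] at h2
  exact h2

/-- The invariants are spanned by the Hodge classes. -/
theorem mem_span_hodge [IsAlgClosed W.K] {X : 𝒱.Obj} {j : ℕ} {c : W.H X}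
    (hcg : c ∈ W.gr X (2 * j))
    {Δ : Subgroup (FreeGroup (RingAut W.K × W.Kˣ))} (hΔ : Δ.FiniteIndex)
    (hc : ∀ g ∈ Δ, ract Ψ X g c = ((hchar W.K g : W.Kˣ) : W.K) ^ j • c) :
    c ∈ Submodule.span W.K {c | IsHodge Ψ X j c} := by
  have hγ := Ψ.isCoeffAct X
  let U : Submodule W.K (W.H X) :=
    { carrier := {a | a ∈ W.gr X (2 * j) ∧ ∀ g : RingAut W.K × W.Kˣ,
        ctor (Ψ.isHodgeDec X) (Ψ.isCoeffAct X) g a = g.1 (g.2 : W.K) ^ j • a}
      zero_mem' := ⟨Submodule.zero_mem _, fun g => by rw [map_zero, smul_zero]⟩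
      add_mem' := fun ha hb => ⟨Submodule.add_mem _ ha.1 hb.1, fun g => by
        rw [map_add, ha.2, hb.2, smul_add]⟩
      smul_mem' := fun r a ha => ⟨Submodule.smul_mem _ _ ha.1, fun g => by
        rw [map_smul, ha.2, smul_comm]⟩ }
  have hcU : c ∈ U := ⟨hcg, fun g => ctor_of_index Ψ hΔ hc g.1 g.2⟩
  have h1 := span_fixed_of_stable (γ := fun σ a => Ψ.coeff X σ a) (fun σ a b => map_add _ a b)
    hγ.smul hγ.span (U := U) (fun τ a ha => ?_) hcU
  · refine Submodule.span_mono ?_ h1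
    rintro a ⟨⟨hag, haU⟩, hfix⟩
    refine ⟨mem_of_prj (Ψ.isHodgeDec X).isInternal fun i hi => ?_, hfix⟩
    by_contra hcon
    have h2 := haU (1, Units.mk0 2 two_ne_zero)
    rw [ctor_apply] at h2
    have h3 : tor (Ψ.isHodgeDec X) 2 a = (2 : W.K) ^ j • a := by simpa using h2
    have h4 := tor_eigen (Ψ.isHodgeDec X) h3 hcon
    have h5 : j = i.1 := by
      by_contra h6
      exact two_pow_ne h6 h4
    have h6 := type_sum Ψ hag hcon
    exact hi (Prod.ext h5.symm (by change i.2 = j; omega))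
  · refine ⟨hγ.gr_mem τ _ a ha.1, fun g => ?_⟩
    obtain ⟨σ, z⟩ := g
    have h2 := ha.2 (τ⁻¹ * σ, z)
    rw [ctor_apply] at h2 ⊢
    have h3 : Ψ.coeff X σ⁻¹ (Ψ.coeff X τ a) = Ψ.coeff X (τ⁻¹ * σ)⁻¹ a := by
      rw [← RingAut.mul_apply, ← map_mul, mul_inv_rev, inv_inv]
    have h4 : ∀ x, Ψ.coeff X σ x = Ψ.coeff X τ (Ψ.coeff X (τ⁻¹ * σ) x) := fun x => by
      rw [← RingAut.mul_apply, ← map_mul, mul_inv_cancel_left]
    change Ψ.coeff X σ (tor (Ψ.isHodgeDec X) (z : W.K) (Ψ.coeff X σ⁻¹ (Ψ.coeff X τ a))) = _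
    rw [h3, h4]
    rw [h2, hγ.smul, map_pow]
    have h5 : τ ((τ⁻¹ * σ) (z : W.K)) = σ (z : W.K) := by
      rw [← RingAut.mul_apply, mul_inv_cancel_left]
    rw [h5]

theorem hodge_act {X : 𝒱.Obj} {j : ℕ} {c : W.H X} (hc : IsHodge Ψ X j c)
    (g : FreeGroup (RingAut W.K × W.Kˣ)) :
    ract Ψ X g c = ((hchar W.K g : W.Kˣ) : W.K) ^ j • c := by
  refine hact_ind (Ψ.isHodgeDec X) (Ψ.isCoeffAct X) (p := fun ρ x => ρ c = (x : W.K) ^ j • c) ?_
    (fun g => ?_) (fun a b x y ha hb => ?_) g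
  · rw [AlgEquiv.one_apply, Units.val_one, one_pow, one_smul]
  · rw [ctor_apply, hc.2, tor_apply _ _ hc.1, (Ψ.isCoeffAct X).smul, hc.2, hchar_of, map_pow]
  · rw [AlgEquiv.mul_apply, hb, map_smul, ha, smul_smul, Units.val_mul, mul_pow, mul_comm]

/-- All Hodge classes are in the system `𝒞`. -/
def HodgeIn (𝒞 : ClassSystem W) (X : 𝒱.Obj) : Prop := ∀ j c, IsHodge Ψ X j c → c ∈ 𝒞.C X

theorem classConj_iff [IsAlgClosed W.K] (𝒞 : ClassSystem W) (X : 𝒱.Obj) :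
    ClassConj (hchar W.K) 𝒞 (actv Ψ X) ↔ HodgeIn Ψ 𝒞 X := by
  constructor
  · intro h j c hc
    exact h j c (by
      have h1 := (Ψ.isHodgeDec X).le j j hc.1
      rwa [← two_mul] at h1) ⟨⊤, inferInstance, fun g _ => hodge_act Ψ hc g⟩
  · rintro h j c hcg ⟨Δ, hΔ, hact⟩
    have h1 := mem_span_hodge Ψ hcg hΔ hact
    exact Submodule.span_le.2 (fun c hc => h j c hc) h1

theorem isTower_eq {ι : Type} {X : ι → 𝒱.Obj} {Z : 𝒱.Obj} {L : List ι}
    {Y : GVar W (FreeGroup (RingAut W.K × W.Kˣ))}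
    (hY : IsTower (fun i => actv Ψ (X i)) (actv Ψ Z) L Y) : Y = actv Ψ (prodList X Z L) := by
  let X' : ι → Pool.Agent.Y132.EP.DG W (FreeGroup (RingAut W.K × W.Kˣ)) :=
    fun i => ⟨actv Ψ (X i), (actv_galois Ψ (X i)).gr_mem⟩
  let Z' : Pool.Agent.Y132.EP.DG W (FreeGroup (RingAut W.K × W.Kˣ)) :=
    ⟨actv Ψ Z, (actv_galois Ψ Z).gr_mem⟩
  have e : L = L.map id := (List.map_id L).symm
  have h1 := isTower_prodList Ψ X Z L
  rw [e] at hY
  rw [e] at h1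
  have h2 := isTower_unique (X := X') (Z := Z') L hY
  have h3 := isTower_unique (X := X') (Z := Z') L h1
  rw [List.map_id] at h3
  rw [← h2] at h3
  exact h3.symm

/-- The conjecture for a product implies it for all subproducts. -/
theorem class_sub {Γ : Type} [Group Γ] {χ : Γ →* W.Kˣ} {ι : Type} {X : ι → GVar W Γ}
    {Z : GVar W Γ} {𝒞 : ClassSystem W} (hX : AdFamily χ X) (hZ : GradedVar Z) {L L' : List ι}
    (hsub : L'.Sublist L) {Y Y' : GVar W Γ} (hY : IsTower X Z L Y) (hY' : IsTower X Z L' Y')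
    (hT : ClassConj χ 𝒞 Y) : ClassConj χ 𝒞 Y' := by
  let X' : ι → Pool.Agent.Y132.EP.DG W Γ := fun i => ⟨X i, (hX.var i).act.galois.gr_mem⟩
  let Z' : Pool.Agent.Y132.EP.DG W Γ := ⟨Z, hZ⟩
  have e : ∀ L : List ι, L = L.map id := fun L => (List.map_id L).symm
  have hone : ∀ i, (1 : W.H (X' i).X) ≠ 0 := by
    intro i h0
    obtain ⟨F, x, hx, y, hy, hx0, -⟩ := (hX.var i).act.hyperbolic
    apply hx0
    rw [← one_mul x]
    change (1 : W.H (X' i).X) * x = 0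
    rw [h0, zero_mul]
  rw [e L] at hY
  rw [e L'] at hY'
  have h2 := isTower_unique (X := X') (Z := Z') L hY
  have h3 := isTower_unique (X := X') (Z := Z') L' hY'
  subst h2
  subst h3
  exact class_sublist (fun i => (hX.var i).homEqNum) hone hsub hT

/-- **Main theorem for systems of classes.** -/
theorem hodge_iff [IsAlgClosed W.K] {ι : Type} [DecidableEq ι] {X : ι → 𝒱.Obj} (Z : 𝒱.Obj)
    (hX : SpFamily Ψ X) (𝒞 : ClassSystem W) :
    ∃ B : Finset ι, ∑ i ∈ B, trDim W (X i) ≤ totDim W Z ∧ (∀ i ∈ B, TypeBound Ψ (X i) Z) ∧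
      ∀ L : List ι, HodgeIn Ψ 𝒞 (prodList X Z L) ↔
        ∀ L' : List ι, L'.Sublist L → SmallHodge Ψ X Z B L' →
          HodgeIn Ψ 𝒞 (prodList X Z L') := by
  obtain ⟨B, hB, hBa, hiff⟩ := class_iff 𝒞 (adFamily Ψ hX) (gradedVar Ψ Z)
  refine ⟨B, hB, fun i hi => typeBound Ψ (hBa i hi), fun L => ⟨fun h L' hsub hsmall => ?_,
    fun h => ?_⟩⟩
  · exact (classConj_iff Ψ 𝒞 _).1 (class_sub (adFamily Ψ hX) (gradedVar Ψ Z) hsub
      (isTower_prodList Ψ X Z L) (isTower_prodList Ψ X Z L') ((classConj_iff Ψ 𝒞 _).2 h))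
  · rw [← classConj_iff]
    refine (hiff L _ (isTower_prodList Ψ X Z L)).2 fun L' Y' hsub hsmall hY' => ?_
    rw [isTower_eq Ψ hY', classConj_iff]
    exact h L' hsub (smallHodge Ψ hX hsmall)

section Abs

variable (E : Embeddings W)

theorem isHodge_mul {X : 𝒱.Obj} {i j : ℕ} {a b : W.H X} (ha : IsHodge Ψ X i a)
    (hb : IsHodge Ψ X j b) : IsHodge Ψ X (i + j) (a * b) :=
  ⟨(Ψ.isHodgeDec X).mul_mem ha.1 hb.1, fun σ => by rw [map_mul, ha.2, hb.2]⟩

theorem isHodge_map {X Y : 𝒱.Obj} (f : X ⟶ Y) {j : ℕ} {b : W.H Y} (hb : IsHodge Ψ Y j b) :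
    IsHodge Ψ X j (W.map f b) :=
  ⟨Ψ.map_hodge f _ b hb.1, fun σ => by rw [Ψ.map_coeff, hb.2]⟩

theorem isHodge_add {X : 𝒱.Obj} {j : ℕ} {a b : W.H X} (ha : IsHodge Ψ X j a)
    (hb : IsHodge Ψ X j b) : IsHodge Ψ X j (a + b) :=
  ⟨Submodule.add_mem _ ha.1 hb.1, fun σ => by rw [map_add, ha.2, hb.2]⟩

theorem isHodge_smul {X : 𝒱.Obj} {j : ℕ} {a : W.H X} (q : ℚ) (ha : IsHodge Ψ X j a) :
    IsHodge Ψ X j ((q : W.K) • a) :=
  ⟨Submodule.smul_mem _ _ ha.1, fun σ => by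
    rw [(Ψ.isCoeffAct X).smul, ha.2, map_ratCast]⟩

theorem isHodge_cyc {X : 𝒱.Obj} {j : ℕ} {z : X.Cycles} (hz : X.IsCyc j z) :
    IsHodge Ψ X j (W.cl X z) :=
  ⟨(Ψ.isHodgeDec X).cl_mem j _ ⟨z, hz, rfl⟩, fun σ => (Ψ.isCoeffAct X).cl_act σ j _ ⟨z, hz, rfl⟩⟩

theorem isHodge_zero (X : 𝒱.Obj) (j : ℕ) : IsHodge Ψ X j 0 :=
  ⟨Submodule.zero_mem _, fun _ => map_zero _⟩

theorem push_coeff {X Y : 𝒱.Obj} (f : X ⟶ Y) (σ : RingAut W.K) (a : W.H X) :
    Ψ.coeff Y σ (W.push f a) = W.push f (Ψ.coeff X σ a) := by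
  rw [← sub_eq_zero]
  apply W.nondeg
  intro b
  have h1 : ∀ b, Ψ.coeff Y σ (Ψ.coeff Y σ⁻¹ b) = b := fun b => by
    rw [← RingAut.mul_apply, ← map_mul, mul_inv_cancel, map_one, RingAut.one_apply]
  have h2 : ∀ b, Ψ.coeff X σ (Ψ.coeff X σ⁻¹ b) = b := fun b => by
    rw [← RingAut.mul_apply, ← map_mul, mul_inv_cancel, map_one, RingAut.one_apply]
  have h3 : W.tr Y (Ψ.coeff Y σ (W.push f a) * b) = W.tr X (Ψ.coeff X σ a * W.map f b) := by
    conv_lhs => rw [← h1 b]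
    rw [← map_mul, (Ψ.isCoeffAct Y).tr_act, W.tr_push, ← Ψ.map_coeff,
      ← (Ψ.isCoeffAct X).tr_act, map_mul, h2]
  rw [sub_mul, map_sub, h3, W.tr_push, sub_self]

theorem push_prj {X Y : 𝒱.Obj} (f : X ⟶ Y) {i : ℕ × ℕ} {a : W.H X} (ha : a ∈ Ψ.hodge X i)
    {l : ℕ × ℕ} (hl : (l.1 + X.dim, l.2 + X.dim) ≠ (i.1 + Y.dim, i.2 + Y.dim)) :
    prj (Ψ.isHodgeDec Y).isInternal l (W.push f a) = 0 := by
  apply W.nondeg
  intro b
  refine int_ind (p := fun b => W.tr Y (prj (Ψ.isHodgeDec Y).isInternal l (W.push f a) * b) = 0)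
    (Ψ.isHodgeDec Y).isInternal b (fun j b hb => ?_) (by simp) fun x y hx hy => ?_
  · by_cases hij : (l.1 + j.1, l.2 + j.2) = (Y.dim, Y.dim)
    · rw [tr_prj_mul (Ψ.isHodgeDec Y) (fun ha hi => W.tr_eq_zero ha hi) hij _ hb, W.tr_push]
      refine tr_hodge (Ψ.isHodgeDec X) (fun ha hi => W.tr_eq_zero ha hi)
        (i := (i.1 + j.1, i.2 + j.2)) ?_ ((Ψ.isHodgeDec X).mul_mem ha (Ψ.map_hodge f j b hb))
      intro h1
      apply hl
      rw [Prod.mk.injEq] at h1 hij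
      exact Prod.ext (by change l.1 + X.dim = i.1 + Y.dim; omega)
        (by change l.2 + X.dim = i.2 + Y.dim; omega)
    · exact tr_hodge (Ψ.isHodgeDec Y) (fun ha hi => W.tr_eq_zero ha hi) hij
        ((Ψ.isHodgeDec Y).mul_mem (prj_mem _ _ _) hb)
  · rw [mul_add, map_add, hx, hy, add_zero]

theorem isHodge_push {X Y : 𝒱.Obj} (f : X ⟶ Y) {j l : ℕ} (hl : l + X.dim = j + Y.dim)
    {a : W.H X} (ha : IsHodge Ψ X j a) : IsHodge Ψ Y l (W.push f a) := by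
  refine ⟨mem_of_prj (Ψ.isHodgeDec Y).isInternal fun i hi => push_prj Ψ f ha.1 fun h1 => ?_,
    fun σ => by rw [push_coeff, ha.2]⟩
  apply hi
  rw [Prod.mk.injEq] at h1
  exact Prod.ext (by change i.1 = l; omega) (by change i.2 = l; omega)

theorem push_zero {X Y : 𝒱.Obj} (f : X ⟶ Y) {j : ℕ} (hj : j + Y.dim < X.dim)
    {a : W.H X} (ha : IsHodge Ψ X j a) : W.push f a = 0 := by
  refine ext_prj (Ψ.isHodgeDec Y).isInternal fun i => ?_
  rw [map_zero]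
  refine push_prj Ψ f ha.1 fun h1 => ?_
  rw [Prod.mk.injEq] at h1
  omega

theorem isAbs_mul {X : 𝒱.Obj} {i j : ℕ} {a b : W.H X} (ha : IsAbsHodge Ψ E X i a)
    (hb : IsAbsHodge Ψ E X j b) : IsAbsHodge Ψ E X (i + j) (a * b) :=
  ⟨isHodge_mul Ψ ha.1 hb.1, fun s => by
    obtain ⟨a', h1, h2⟩ := ha.2 s
    obtain ⟨b', h3, h4⟩ := hb.2 s
    exact ⟨a' * b', ((E.cmp s).form X).mul h1 h3, isHodge_mul _ h2 h4⟩⟩

theorem isAbs_add {X : 𝒱.Obj} {j : ℕ} {a b : W.H X} (ha : IsAbsHodge Ψ E X j a)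
    (hb : IsAbsHodge Ψ E X j b) : IsAbsHodge Ψ E X j (a + b) :=
  ⟨isHodge_add Ψ ha.1 hb.1, fun s => by
    obtain ⟨a', h1, h2⟩ := ha.2 s
    obtain ⟨b', h3, h4⟩ := hb.2 s
    exact ⟨a' + b', ((E.cmp s).form X).add h1 h3, isHodge_add _ h2 h4⟩⟩

theorem isAbs_smul {X : 𝒱.Obj} {j : ℕ} {a : W.H X} (q : ℚ) (ha : IsAbsHodge Ψ E X j a) :
    IsAbsHodge Ψ E X j ((q : W.K) • a) :=
  ⟨isHodge_smul Ψ q ha.1, fun s => by
    obtain ⟨a', h1, h2⟩ := ha.2 s
    exact ⟨_, ((E.cmp s).form X).smul q h1, isHodge_smul _ q h2⟩⟩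

theorem isAbs_cyc {X : 𝒱.Obj} {j : ℕ} {z : X.Cycles} (hz : X.IsCyc j z) :
    IsAbsHodge Ψ E X j (W.cl X z) :=
  ⟨isHodge_cyc Ψ hz, fun s => ⟨(E.V s).cl X z, ((E.cmp s).form X).cyc ⟨z, hz, rfl, rfl⟩,
    isHodge_cyc _ hz⟩⟩

theorem isAbs_zero (X : 𝒱.Obj) (j : ℕ) : IsAbsHodge Ψ E X j 0 := by
  have h1 := isAbs_cyc Ψ E (SmVar.IsCyc.zero X.V j)
  rwa [map_zero] at h1

theorem isAbs_map {X Y : 𝒱.Obj} (f : X ⟶ Y) {j : ℕ} {b : W.H Y} (hb : IsAbsHodge Ψ E Y j b) :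
    IsAbsHodge Ψ E X j (W.map f b) :=
  ⟨isHodge_map Ψ f hb.1, fun s => by
    obtain ⟨b', h1, h2⟩ := hb.2 s
    exact ⟨_, (E.cmp s).map f j b b' h1, isHodge_map _ f h2⟩⟩

theorem isAbs_push {X Y : 𝒱.Obj} (f : X ⟶ Y) {j l : ℕ} (hl : l + X.dim = j + Y.dim)
    {a : W.H X} (ha : IsAbsHodge Ψ E X j a) : IsAbsHodge Ψ E Y l (W.push f a) :=
  ⟨isHodge_push Ψ f hl ha.1, fun s => by
    obtain ⟨a', h1, h2⟩ := ha.2 s
    exact ⟨_, (E.cmp s).push f j l a a' hl h1, isHodge_push _ f hl h2⟩⟩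

/-- The linear combinations of absolute Hodge classes. -/
def absSystem : ClassSystem W where
  C X := Submodule.span W.K {c | ∃ j, IsAbsHodge Ψ E X j c}
  alg_le X := by
    refine Submodule.span_mono ?_
    rintro c hc
    obtain ⟨j, z, hz, rfl⟩ := Set.mem_iUnion.1 hc
    exact ⟨j, isAbs_cyc Ψ E hz⟩
  mul_mem {X a b} ha hb := by
    induction ha using Submodule.span_induction with
    | mem a ha =>
      obtain ⟨i, ha⟩ := ha
      induction hb using Submodule.span_induction with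
      | mem b hb =>
        obtain ⟨j, hb⟩ := hb
        exact Submodule.subset_span ⟨i + j, isAbs_mul Ψ E ha hb⟩
      | zero => rw [mul_zero]; exact Submodule.zero_mem _
      | add x y _ _ hx hy => rw [mul_add]; exact Submodule.add_mem _ hx hy
      | smul r x _ hx => rw [mul_smul_comm]; exact Submodule.smul_mem _ _ hx
    | zero => rw [zero_mul]; exact Submodule.zero_mem _
    | add x y _ _ hx hy => rw [add_mul]; exact Submodule.add_mem _ hx hy
    | smul r x _ hx => rw [smul_mul_assoc]; exact Submodule.smul_mem _ _ hx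
  map_mem {X Y} f b hb := by
    induction hb using Submodule.span_induction with
    | mem b hb =>
      obtain ⟨j, hb⟩ := hb
      exact Submodule.subset_span ⟨j, isAbs_map Ψ E f hb⟩
    | zero => rw [map_zero]; exact Submodule.zero_mem _
    | add x y _ _ hx hy => rw [map_add]; exact Submodule.add_mem _ hx hy
    | smul r x _ hx => rw [map_smul]; exact Submodule.smul_mem _ _ hx
  push_mem {X Y} f a ha := by
    induction ha using Submodule.span_induction with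
    | mem a ha =>
      obtain ⟨j, ha⟩ := ha
      by_cases hj : j + Y.dim < X.dim
      · rw [push_zero Ψ f hj ha.1]
        exact Submodule.zero_mem _
      · exact Submodule.subset_span ⟨j + Y.dim - X.dim, isAbs_push Ψ E f (by omega) ha⟩
    | zero => rw [map_zero]; exact Submodule.zero_mem _
    | add x y _ _ hx hy => rw [map_add]; exact Submodule.add_mem _ hx hy
    | smul r x _ hx => rw [map_smul]; exact Submodule.smul_mem _ _ hx

theorem hodge_gr {X : 𝒱.Obj} {j : ℕ} {c : W.H X} (hc : IsHodge Ψ X j c) : c ∈ W.gr X (2 * j) := by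
  have h1 := (Ψ.isHodgeDec X).le j j hc.1
  rwa [← two_mul] at h1

theorem hodgeIn_abs [IsAlgClosed W.K] (X : 𝒱.Obj) :
    HodgeIn Ψ (absSystem Ψ E) X ↔ AllAbsolute Ψ E X := by
  constructor
  · intro h j c hc
    have h1 : c ∈ Submodule.span W.K {c | ∃ j, IsAbsHodge Ψ E X j c} := h j c hc
    have h2 : prj (W.isInternal X) (2 * j) c ∈ Submodule.span W.K {c | IsAbsHodge Ψ E X j c} := by
      clear hc
      induction h1 using Submodule.span_induction with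
      | mem a ha =>
        obtain ⟨i, ha⟩ := ha
        by_cases hij : i = j
        · subst hij
          rw [prj_same _ (hodge_gr Ψ ha.1)]
          exact Submodule.subset_span ha
        · rw [prj_ne _ (by omega) (hodge_gr Ψ ha.1)]
          exact Submodule.zero_mem _
      | zero => rw [map_zero]; exact Submodule.zero_mem _
      | add x y _ _ hx hy => rw [map_add]; exact Submodule.add_mem _ hx hy
      | smul r x _ hx => rw [map_smul]; exact Submodule.smul_mem _ _ hx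
    rw [prj_same _ (hodge_gr Ψ hc)] at h2
    exact mem_of_mem_span (γ := fun σ a => Ψ.coeff X σ a) (S := {c | IsAbsHodge Ψ E X j c})
      (fun σ a b => map_add _ a b) (Ψ.isCoeffAct X).smul (fun a ha σ => ha.1.2 σ) (isAbs_zero Ψ E X j)
      (fun a ha b hb => isAbs_add Ψ E ha hb) (fun q a ha => isAbs_smul Ψ E q ha) hc.2 h2
  · intro h j c hc
    exact Submodule.subset_span ⟨j, h j c hc⟩

/-- **Main theorem for absolute Hodge classes.** -/
theorem abs_iff [IsAlgClosed W.K] {ι : Type} [DecidableEq ι] {X : ι → 𝒱.Obj} (Z : 𝒱.Obj)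
    (hX : SpFamily Ψ X) :
    ∃ B : Finset ι, ∑ i ∈ B, trDim W (X i) ≤ totDim W Z ∧ (∀ i ∈ B, TypeBound Ψ (X i) Z) ∧
      ∀ L : List ι, AllAbsolute Ψ E (prodList X Z L) ↔
        ∀ L' : List ι, L'.Sublist L → SmallHodge Ψ X Z B L' →
          AllAbsolute Ψ E (prodList X Z L') := by
  obtain ⟨B, hB, hBa, hiff⟩ := hodge_iff Ψ Z hX (absSystem Ψ E)
  refine ⟨B, hB, hBa, fun L => ?_⟩
  rw [← hodgeIn_abs, hiff L]
  exact forall_congr' fun L' => imp_congr_right fun _ => imp_congr_right fun _ =>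
    hodgeIn_abs Ψ E _

end Abs

end Pool.Agent.Y132.AH
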