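import Pool.Agent.Y132.AF.Defs

/-!
# Hodge structures on a Weil cohomology theory with algebraically closed coefficients

In the intended use the varieties are the smooth projective varieties over an algebraically closed
field with a fixed embedding into the field `ℂ` of complex numbers, and `W` is the cohomology of the
associated complex manifolds with complex coefficients, `W.K = ℂ`.
-/

open CategoryTheory AlgebraicGeometry

universe u v

namespace Pool.Agent.Y132.AH

open Pool.Agent.Y132.AF

section Alg

variable {K : Type} [Field K] {A : Type} [Ring A] [Algebra K A]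

/-- The formal properties of the action of the automorphisms `σ` of the field `K` on the cohomology
`A = H ⊗ K`, `H` the cohomology with rational coefficients, by `1 ⊗ σ`; `C j` is the set of the
classes of the algebraic cycles of codimension `j`. -/
structure IsCoeffAct (gr : ℕ → Submodule K A) (tr : A →ₗ[K] K) (C : ℕ → Set A)
    (γ : RingAut K →* RingAut A) : Prop where
  smul : ∀ (σ : RingAut K) (r : K) (a : A), γ σ (r • a) = σ r • γ σ a
  gr_mem : ∀ σ i, ∀ a ∈ gr i, γ σ a ∈ gr i
  tr_act : ∀ σ a, tr (γ σ a) = σ (tr a)
  cl_act : ∀ σ j, ∀ c ∈ C j, γ σ c = c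
  span : Submodule.span K {a | ∀ σ, γ σ a = a} = ⊤

/-- The formal properties of the Hodge decomposition of the cohomology `A` of a variety of dimension
`n` into the subspaces `H (p, q)` with `p, q ≤ n`. -/
structure IsHodgeDec (gr : ℕ → Submodule K A) (n : ℕ) (C : ℕ → Set A)
    (H : ℕ × ℕ → Submodule K A) : Prop where
  isInternal : DirectSum.IsInternal H
  le : ∀ p q, H (p, q) ≤ gr (p + q)
  mul_mem : ∀ {p q p' q' : ℕ} {a b : A}, a ∈ H (p, q) → b ∈ H (p', q') →
    a * b ∈ H (p + p', q + q')
  eq_bot : ∀ p q, n < p ∨ n < q → H (p, q) = ⊥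
  cl_mem : ∀ j, ∀ c ∈ C j, c ∈ H (j, j)

/-- The operator on the direct sum of the subspaces `H i` which multiplies `H i` by `f i`. -/
noncomputable def scaleOp {ι : Type} [DecidableEq ι] {H : ι → Submodule K A}
    (h : DirectSum.IsInternal H) (f : ι → K) : A →ₗ[K] A :=
  (DirectSum.toModule K ι A fun i => f i • (H i).subtype) ∘ₗ
    (LinearEquiv.ofBijective (DirectSum.coeLinearMap H) h).symm.toLinearMap

/-- A rational Hodge structure on the cohomology `A` with coefficients in `K`: the action of the
automorphisms `σ` of `K` by `1 ⊗ σ` (the rational classes are the classes which are fixed by all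
`σ`) and the Hodge decomposition. -/
structure HodgeAlg (gr : ℕ → Submodule K A) (n : ℕ) (tr : A →ₗ[K] K) (C : ℕ → Set A) where
  /-- the action of the automorphisms of the coefficient field -/
  coeff : RingAut K →* RingAut A
  /-- the Hodge decomposition -/
  hodge : ℕ × ℕ → Submodule K A
  isCoeffAct : IsCoeffAct gr tr C coeff
  isHodgeDec : IsHodgeDec gr n C hodge

variable {gr : ℕ → Submodule K A} {n : ℕ} {tr : A →ₗ[K] K} {C : ℕ → Set A}

/-- The Hodge classes of degree `2 j`: the rational classes of type `(j, j)`. -/
def HodgeCls (Ψ : HodgeAlg gr n tr C) (j : ℕ) (c : A) : Prop :=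
  c ∈ Ψ.hodge (j, j) ∧ ∀ σ, Ψ.coeff σ c = c

/-- The conjugate by the automorphism `1 ⊗ σ` of the operator which multiplies the component of type
`(p, q)` by `z ^ p`, for `g = (σ, z)`. The Mumford-Tate group is generated by these operators. -/
noncomputable def conjTorus (Ψ : HodgeAlg gr n tr C) (g : RingAut K × Kˣ) (a : A) : A :=
  Ψ.coeff g.1 (scaleOp Ψ.isHodgeDec.isInternal (fun i => (g.2 : K) ^ i.1) (Ψ.coeff g.1⁻¹ a))

/-- `N'` is the conjugate of the skew operator `N` by the operator `conjTorus g`. -/
def ConjBy (Ψ : HodgeAlg gr n tr C) (T : Submodule K A) (g : RingAut K × Kˣ)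
    (N N' : skewOps tr T) : Prop :=
  ∀ t t' : T, (t' : A) = conjTorus Ψ g t → (N'.1 t' : A) = conjTorus Ψ g (N.1 t)

/-- The dimension `n` is odd, the subspace `T` is in the middle degree and not zero, and the
Mumford-Tate group acts irreducibly on the skew operators on `T`. -/
structure SpAct (Ψ : HodgeAlg gr n tr C) (T : Submodule K A) : Prop where
  odd : Odd n
  middle : T ≤ gr n
  ne_bot : T ≠ ⊥
  irreducible : RelIrr K (ConjBy Ψ T)

/-- The subspace `T` contains a nonzero element of type `(p, q)`. -/
def TypeOn (Ψ : HodgeAlg gr n tr C) (T : Submodule K A) (p q : ℕ) : Prop :=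
  ∃ x ∈ T, x ∈ Ψ.hodge (p, q) ∧ x ≠ 0

/-- The algebra is generated in the degrees in `S`. -/
def GenIn (gr : ℕ → Submodule K A) (S : Set ℕ) : Prop :=
  Algebra.adjoin K (⋃ m ∈ S, (gr m : Set A)) = ⊤

variable {B : Type} [Ring B] [Algebra K B] {gr' : ℕ → Submodule K B} {n' : ℕ} {tr' : B →ₗ[K] K}
  {C' : ℕ → Set B}

/-- The adjoint representations of the Mumford-Tate group on the skew operators are isomorphic. -/
def SameAd (Ψ : HodgeAlg gr n tr C) (T : Submodule K A) (Ψ' : HodgeAlg gr' n' tr' C')
    (T' : Submodule K B) : Prop :=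
  RelIso K (ConjBy Ψ T) (ConjBy Ψ' T')

/-- The homomorphism `f` is compatible with the Hodge structures. -/
structure IsHodgeMap (Ψ : HodgeAlg gr n tr C) (Ψ' : HodgeAlg gr' n' tr' C')
    (f : A →ₐ[K] B) : Prop where
  coeff : ∀ σ a, Ψ'.coeff σ (f a) = f (Ψ.coeff σ a)
  hodge : ∀ i, ∀ a ∈ Ψ.hodge i, f a ∈ Ψ'.hodge i

end Alg

section Rel

variable {K L A B A' B' : Type} [Field K] [Field L] [Ring A] [Algebra K A] [Ring B] [Algebra L B]
  [Ring A'] [Algebra K A'] [Ring B'] [Algebra L B']

/-- The formal properties of a comparison between the elements of degree `2 j` of two algebras (the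
classes `a` and `b` have the same components in de Rham or étale cohomology): the relation is stable
under sums, rational multiples and products, and contains the pairs in `Z j` (the pairs of the two
classes of an algebraic cycle of codimension `j`). -/
structure IsRelation (K L : Type) {A B : Type} [Field K] [Field L] [Ring A] [Algebra K A]
    [Ring B] [Algebra L B] (Z R : ℕ → A → B → Prop) : Prop where
  add : ∀ {j a a' b b'}, R j a b → R j a' b' → R j (a + a') (b + b')
  smul : ∀ (q : ℚ) {j a b}, R j a b → R j ((q : K) • a) ((q : L) • b)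
  mul : ∀ {i j a a' b b'}, R i a b → R j a' b' → R (i + j) (a * a') (b * b')
  cyc : ∀ {j a b}, Z j a b → R j a b

/-- If `a` and `b` are related in degree `2 j` then `f a` and `g b` are related in degree `2 j`. -/
def Preserves (R : ℕ → A → B → Prop) (R' : ℕ → A' → B' → Prop) (f : A →ₐ[K] A')
    (g : B →ₐ[L] B') : Prop :=
  ∀ j a b, R j a b → R' j (f a) (g b)

/-- If `a` and `b` are related in degree `2 j` then `f a` and `g b` are related in degree `2 l`,
where `l + m = j + n`. -/
def Shifts (R : ℕ → A → B → Prop) (R' : ℕ → A' → B' → Prop) (m n : ℕ) (f : A →ₗ[K] A')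
    (g : B →ₗ[L] B') : Prop :=
  ∀ j l a b, l + m = j + n → R j a b → R' l (f a) (g b)

end Rel

open Pool.Agent.H914 Pool.Agent.H914.VarClass Pool.Agent.H914.VarClass.Obj
  Pool.Agent.H914.WeilCohomology Pool.Agent.H281R3.HT Pool.Agent.W552

variable {k : Type u} [Field k] {𝒱 : VarClass k} {ops : CycleOps 𝒱}

/-- Rational Hodge structures on the cohomology `W` with coefficients in the algebraically closed
field `W.K`, compatible with pull-backs. -/
structure HodgeData (W : WeilCohomology.{u, 0} ops) where
  /-- the Hodge structure on the cohomology of `X` -/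
  on : ∀ X : 𝒱.Obj, HodgeAlg (W.gr X) X.dim (W.tr X) (algClasses W X)
  map : ∀ {X Y : 𝒱.Obj} (f : X ⟶ Y), IsHodgeMap (on Y) (on X) (W.map f)

variable {W : WeilCohomology.{u, 0} ops}

/-- The Hodge classes of degree `2 j`: the rational classes of type `(j, j)`. -/
def IsHodge (Ψ : HodgeData W) (X : 𝒱.Obj) (j : ℕ) (c : W.H X) : Prop := HodgeCls (Ψ.on X) j c

/-- `X` is odd-dimensional, homological and numerical equivalence coincide on `X`, the
transcendental cohomology is in the middle degree and not zero, and the Mumford-Tate group acts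
irreducibly on the operators on it which are skew with respect to the intersection form. -/
structure SpVar (Ψ : HodgeData W) (X : 𝒱.Obj) : Prop where
  act : SpAct (Ψ.on X) (transcendental W X)
  homEqNum : HomEqNum W X

/-- The adjoint representations of the Mumford-Tate group on the skew operators on the
transcendental cohomology of `X` and `Y` are isomorphic. -/
def SameAdjoint (Ψ : HodgeData W) (X Y : 𝒱.Obj) : Prop :=
  SameAd (Ψ.on X) (transcendental W X) (Ψ.on Y) (transcendental W Y)

/-- All `X i` satisfy the conditions `SpVar`, and the adjoint representations of the Mumford-Tate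
group on the skew operators for different `X i` are not isomorphic. -/
structure SpFamily (Ψ : HodgeData W) {ι : Type} (X : ι → 𝒱.Obj) : Prop where
  var : ∀ i, SpVar Ψ (X i)
  adjoint : ∀ i j, i ≠ j → ¬SameAdjoint Ψ (X i) (X j)

/-- The product `X i₁ × (X i₂ × (⋯ × Z))` for the list `[i₁, i₂, …]`. -/
noncomputable def prodList {ι : Type} (X : ι → 𝒱.Obj) (Z : 𝒱.Obj) : List ι → 𝒱.Obj
  | [] => Z
  | i :: L => (X i).prod (prodList X Z L)

/-- The Hodge types of the transcendental cohomology. -/
def TrType (Ψ : HodgeData W) (X : 𝒱.Obj) (p q : ℕ) : Prop :=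
  TypeOn (Ψ.on X) (transcendental W X) p q

/-- The Hodge number `h^(p,q)` of `Z` is not zero. -/
def HasType (Ψ : HodgeData W) (Z : 𝒱.Obj) (p q : ℕ) : Prop := TypeOn (Ψ.on Z) ⊤ p q

/-- The cohomology of `Z` is generated as an algebra by the cohomology in the degrees in `S`. -/
def GeneratedIn (W : WeilCohomology.{u, 0} ops) (Z : 𝒱.Obj) (S : Set ℕ) : Prop := GenIn (W.gr Z) S

/-- If the cohomology of `Z` is generated in the degrees in `S` then for any two Hodge types `(p, q)`
and `(p', q')` of the transcendental cohomology of `X` the number `p + p' - dim X` is the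
difference `r - r'` for Hodge types `(r, s)`, `(r', s')` of the cohomology of `Z` in one degree
`r + s = r' + s' ∈ S`. -/
def TypeBound (Ψ : HodgeData W) (X Z : 𝒱.Obj) : Prop :=
  ∀ S : Set ℕ, GeneratedIn W Z S → ∀ p q p' q', TrType Ψ X p q → TrType Ψ X p' q' →
    ∃ m ∈ S, ∃ r s r' s', HasType Ψ Z r s ∧ HasType Ψ Z r' s' ∧ r + s = m ∧ r' + s' = m ∧
      p + p' + r' = r + X.dim

/-- The cohomology of `Z` is generated in some degrees `m ∈ S` such that `r - r' ≤ N` for any two
Hodge types `(r, s)` and `(r', s')` of the cohomology in a degree `r + s = r' + s' ∈ S` (for example,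
`N = 1` if `Z` is an abelian variety, `N = 2` if `Z` is a product of surfaces, and `N = dim Z` for all
varieties `Z`). -/
def WidthLE (Ψ : HodgeData W) (Z : 𝒱.Obj) (N : ℕ) : Prop :=
  ∃ S : Set ℕ, GeneratedIn W Z S ∧ ∀ m ∈ S, ∀ r s r' s', HasType Ψ Z r s → HasType Ψ Z r' s' →
    r + s = m → r' + s' = m → r ≤ r' + N

/-- The transcendental cohomology of `X` has a Hodge type `(p, q)` with `p - q > N`. -/
def LevelGT (Ψ : HodgeData W) (X : 𝒱.Obj) (N : ℕ) : Prop := ∃ p q, TrType Ψ X p q ∧ q + N < p

/-- The dimension of the cohomology of `Z` in degree `m`. -/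
noncomputable def betti (W : WeilCohomology.{u, 0} ops) (Z : 𝒱.Obj) (m : ℕ) : ℕ :=
  subDim (W.gr Z m)

/-- The dimension of the transcendental cohomology of `X`. -/
noncomputable def trDim (W : WeilCohomology.{u, 0} ops) (X : 𝒱.Obj) : ℕ :=
  subDim (transcendental W X)

/-- The dimension of the cohomology of `Z`. -/
noncomputable def totDim (W : WeilCohomology.{u, 0} ops) (Z : 𝒱.Obj) : ℕ :=
  Module.finrank W.K (W.H Z)

/-- `|p - q| ≥ δ` for all Hodge types `(p, q)` of the transcendental cohomology of `X`. -/
def TypeGap (Ψ : HodgeData W) (X : 𝒱.Obj) (δ : ℕ) : Prop :=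
  ∀ p q, TrType Ψ X p q → p + δ ≤ q ∨ q + δ ≤ p

/-- The entries of the list `L` are in `B`, and for some degree `m` of the parity of the sum of the
dimensions of the `X i`: the product of the numbers `(number of the entries i) + 1` and the sum of
the dimensions of the transcendental cohomologies of the `X i`, over the different entries `i`, are
at most the dimension of the cohomology of `Z` in degree `m`; if `|p - q| ≥ δ i` for all Hodge types
`(p, q)` of the transcendental cohomology of `X i` then the sum of the `δ i` over the entries of the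
list is at most `m` and at most `2 dim Z - m`. -/
structure SmallHodge (Ψ : HodgeData W) {ι : Type} [DecidableEq ι] (X : ι → 𝒱.Obj)
    (Z : 𝒱.Obj) (B : Finset ι) (L : List ι) : Prop where
  mem : ∀ i ∈ L, i ∈ B
  degree : ∃ m, Even (m + (L.map fun i => (X i).dim).sum) ∧
    ∏ i ∈ L.toFinset, (L.count i + 1) ≤ betti W Z m ∧
    ∑ i ∈ L.toFinset, trDim W (X i) ≤ betti W Z m ∧
    ∀ δ : ι → ℕ, (∀ i ∈ L, TypeGap Ψ (X i) (δ i)) →
      (L.map δ).sum ≤ m ∧ m + (L.map δ).sum ≤ 2 * Z.dim

/-- The elements `a` and `b` are the two classes of an algebraic cycle of codimension `j`. -/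
def cycPair (W V : WeilCohomology.{u, 0} ops) (X : 𝒱.Obj) (j : ℕ) (a : W.H X) (b : V.H X) : Prop :=
  ∃ z, X.IsCyc j z ∧ W.cl X z = a ∧ V.cl X z = b

/-- A comparison between the cohomology theories `W` and `V`: relations between the classes of
degree `2 j`, stable under sums, rational multiples, products, pull-backs and push-forwards, which
hold for the two classes of an algebraic cycle. -/
structure Comparison (W V : WeilCohomology.{u, 0} ops) where
  /-- the relation for the classes of degree `2 j` on `X` -/
  rel : ∀ X : 𝒱.Obj, ℕ → W.H X → V.H X → Prop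
  form : ∀ X, IsRelation W.K V.K (cycPair W V X) (rel X)
  map : ∀ {X Y : 𝒱.Obj} (f : X ⟶ Y), Preserves (rel Y) (rel X) (W.map f) (V.map f)
  push : ∀ {X Y : 𝒱.Obj} (f : X ⟶ Y), Shifts (rel X) (rel Y) X.dim Y.dim (W.push f) (V.push f)

/-- The other embeddings `s` of the base field into the complex numbers: the corresponding cohomology
theories `V s` with their Hodge structures and comparisons with `W` (the relation `rel` for classes
`a` of `H^(2 j)` for `W` and `b` for `V s` means that `(2 π i) ^ j a` and `(2 π i) ^ j b` have the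
same components in the de Rham and étale cohomology). -/
structure Embeddings (W : WeilCohomology.{u, 0} ops) where
  /-- the set of the embeddings -/
  S : Type
  /-- the cohomology for another embedding -/
  V : S → WeilCohomology.{u, 0} ops
  /-- its Hodge structures -/
  hodge : ∀ s, HodgeData (V s)
  /-- the comparisons -/
  cmp : ∀ s, Comparison W (V s)

/-- The absolute Hodge classes of degree `2 j`: the Hodge classes which for every embedding `s` are
related to a Hodge class. -/
def IsAbsHodge (Ψ : HodgeData W) (E : Embeddings W) (X : 𝒱.Obj) (j : ℕ) (c : W.H X) : Prop :=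
  IsHodge Ψ X j c ∧ ∀ s, ∃ b, (E.cmp s).rel X j c b ∧ IsHodge (E.hodge s) X j b

/-- All Hodge classes on `X` are absolute Hodge classes. -/
def AllAbsolute (Ψ : HodgeData W) (E : Embeddings W) (X : 𝒱.Obj) : Prop :=
  ∀ j c, IsHodge Ψ X j c → IsAbsHodge Ψ E X j c

end Pool.Agent.Y132.AH
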