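import Pool.Agent.Y132.AH.Rat
import Pool.Agent.Y132.AH.HDefs

/-!
# Hodge structures: lemmas
-/

open CategoryTheory AlgebraicGeometry

set_option linter.unusedSectionVars false

universe u v

namespace Pool.Agent.Y132.AH

open Pool.Agent.Y132.AF

section Alg

variable {K : Type} [Field K] {A : Type} [Ring A] [Algebra K A]
  {ι : Type} [DecidableEq ι] {H : ι → Submodule K A} (h : DirectSum.IsInternal H)

include h in
theorem int_ind {p : A → Prop} (x : A) (hp : ∀ i, ∀ x ∈ H i, p x) (h0 : p 0)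
    (hadd : ∀ x y, p x → p y → p (x + y)) : p x := by
  have hx : x ∈ ⨆ i, H i := by
    rw [h.submodule_iSup_eq_top]
    exact Submodule.mem_top
  exact Submodule.iSup_induction H (motive := p) hx hp h0 hadd

include h in
theorem int_ext {f g : A →ₗ[K] A} (hfg : ∀ i, ∀ x ∈ H i, f x = g x) : f = g := by
  apply LinearMap.ext
  intro x
  refine int_ind h x hfg ?_ fun x y hx hy => ?_
  · rw [map_zero, map_zero]
  · rw [map_add, map_add, hx, hy]

theorem int_symm {i : ι} {x : A} (hx : x ∈ H i) :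
    (LinearEquiv.ofBijective (DirectSum.coeLinearMap H) h).symm x =
      DirectSum.lof K ι (fun i => H i) i ⟨x, hx⟩ := by
  rw [LinearEquiv.symm_apply_eq]
  exact (DirectSum.coeLinearMap_lof H i ⟨x, hx⟩).symm

theorem scaleOp_apply (f : ι → K) {i : ι} {x : A} (hx : x ∈ H i) : scaleOp h f x = f i • x := by
  rw [scaleOp, LinearMap.comp_apply]
  change (DirectSum.toModule K ι A fun i => f i • (H i).subtype)
    ((LinearEquiv.ofBijective (DirectSum.coeLinearMap H) h).symm x) = _
  rw [int_symm h hx, DirectSum.toModule_lof]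
  rfl

/-- The projection to `H i`. -/
noncomputable def prj (i : ι) : A →ₗ[K] A := scaleOp h (Pi.single i 1)

theorem prj_same {i : ι} {x : A} (hx : x ∈ H i) : prj h i x = x := by
  rw [prj, scaleOp_apply h _ hx, Pi.single_eq_same, one_smul]

theorem prj_ne {i j : ι} (hij : j ≠ i) {x : A} (hx : x ∈ H j) : prj h i x = 0 := by
  rw [prj, scaleOp_apply h _ hx, Pi.single_eq_of_ne hij, zero_smul]

theorem prj_mem (i : ι) (x : A) : prj h i x ∈ H i := by
  refine int_ind (p := fun x => prj h i x ∈ H i) h x (fun j x hx => ?_) ?_ fun x y hx hy => ?_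
  · by_cases hij : j = i
    · subst hij
      rwa [prj_same h hx]
    · rw [prj_ne h hij hx]
      exact Submodule.zero_mem _
  · rw [map_zero]
    exact Submodule.zero_mem _
  · rw [map_add]
    exact Submodule.add_mem _ hx hy

theorem scaleOp_comm (f : ι → K) (i : ι) (x : A) : prj h i (scaleOp h f x) = f i • prj h i x := by
  refine int_ind (p := fun x => prj h i (scaleOp h f x) = f i • prj h i x) h x
    (fun j x hx => ?_) ?_ fun x y hx hy => ?_
  · rw [scaleOp_apply h f hx, map_smul]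
    by_cases hij : j = i
    · rw [hij]
    · rw [prj_ne h hij hx, smul_zero, smul_zero]
  · simp
  · rw [map_add, map_add, map_add, smul_add, hx, hy]

theorem eq_sum_prj (x : A) : ∃ s : Finset ι, ∀ t, s ⊆ t → x = ∑ i ∈ t, prj h i x := by
  refine int_ind (p := fun x => ∃ s : Finset ι, ∀ t, s ⊆ t → x = ∑ i ∈ t, prj h i x) h x
    (fun j x hx => ⟨{j}, fun t ht => ?_⟩) ⟨∅, fun t _ => by simp⟩
    fun x y ⟨s, hs⟩ ⟨s', hs'⟩ => ⟨s ∪ s', fun t ht => ?_⟩
  · rw [Finset.sum_eq_single_of_mem j (ht (Finset.mem_singleton_self j)) fun i _ hij =>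
      prj_ne h hij.symm hx, prj_same h hx]
  · simp only [map_add, Finset.sum_add_distrib]
    rw [← hs t (Finset.union_subset_left ht), ← hs' t (Finset.union_subset_right ht)]

theorem ext_prj {x y : A} (hxy : ∀ i, prj h i x = prj h i y) : x = y := by
  obtain ⟨s, hs⟩ := eq_sum_prj h x
  obtain ⟨t, ht⟩ := eq_sum_prj h y
  rw [hs (s ∪ t) Finset.subset_union_left, ht (s ∪ t) Finset.subset_union_right]
  exact Finset.sum_congr rfl fun i _ => hxy i

theorem exists_prj_ne {x : A} (hx : x ≠ 0) : ∃ i, prj h i x ≠ 0 := by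
  by_contra hcon
  push Not at hcon
  exact hx (ext_prj h fun i => by rw [hcon i, map_zero])

theorem mem_of_prj {x : A} {i : ι} (hx : ∀ j, j ≠ i → prj h j x = 0) : x ∈ H i := by
  have h1 : x = prj h i x := ext_prj h fun j => by
    by_cases hij : j = i
    · rw [hij, prj_same h (prj_mem h i x)]
    · rw [hx j hij, prj_ne h (Ne.symm hij) (prj_mem h i x)]
  rw [h1]
  exact prj_mem h i x

end Alg

section Dec

variable {K : Type} [Field K] {A : Type} [Ring A] [Algebra K A]
  {gr : ℕ → Submodule K A} {n : ℕ} {C : ℕ → Set A} {H : ℕ × ℕ → Submodule K A}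
  (h : IsHodgeDec gr n C H)

include h in
theorem hodge_prj_zero (hgr : DirectSum.IsInternal gr) {m : ℕ} {x : A} (hx : x ∈ gr m)
    {i : ℕ × ℕ} (hi : i.1 + i.2 ≠ m) : prj h.isInternal i x = 0 := by
  have h1 : scaleOp h.isInternal (fun i => if i.1 + i.2 = m then (0 : K) else 1) =
      LinearMap.id - prj hgr m := by
    refine int_ext h.isInternal fun j x hx => ?_
    have hx' : x ∈ gr (j.1 + j.2) := h.le j.1 j.2 hx
    rw [scaleOp_apply _ _ hx, LinearMap.sub_apply, LinearMap.id_apply]
    by_cases hj : j.1 + j.2 = m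
    · rw [if_pos hj, zero_smul]
      rw [hj] at hx'
      rw [prj_same hgr hx', sub_self]
    · rw [if_neg hj, one_smul, prj_ne hgr hj hx', sub_zero]
  have h2 := congrArg (fun f => prj h.isInternal i (f x)) h1
  simp only [LinearMap.sub_apply, LinearMap.id_apply] at h2
  rw [scaleOp_comm, prj_same hgr hx, sub_self, map_zero, if_neg hi, one_smul] at h2
  exact h2

theorem one_prj_tr {tr : A →ₗ[K] K} (htr : ∀ {i : ℕ} {a : A}, a ∈ gr i → i ≠ 2 * n → tr a = 0)
    (x : A) : tr (prj h.isInternal (n, n) x) = tr x := by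
  refine int_ind (p := fun x => tr (prj h.isInternal (n, n) x) = tr x) h.isInternal x
    (fun j x hx => ?_) ?_ fun x y hx hy => ?_
  · by_cases hj : j = (n, n)
    · subst hj
      rw [prj_same h.isInternal hx]
    · rw [prj_ne h.isInternal hj hx, map_zero]
      by_cases h1 : j.1 + j.2 = 2 * n
      · have h2 : n < j.1 ∨ n < j.2 := by
          by_contra hcon
          push Not at hcon
          exact hj (Prod.ext (by omega) (by omega))
        have h3 : x ∈ (⊥ : Submodule K A) := by
          rw [← h.eq_bot j.1 j.2 h2]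
          exact hx
        rw [(Submodule.mem_bot K).1 h3, map_zero]
      · exact (htr (h.le j.1 j.2 hx) h1).symm
  · simp
  · rw [map_add, map_add, map_add, hx, hy]

end Dec

namespace HodgeData

open Pool.Agent.H914 Pool.Agent.H914.VarClass Pool.Agent.H914.VarClass.Obj
  Pool.Agent.H914.WeilCohomology Pool.Agent.H281R3.HT Pool.Agent.W552

variable {k : Type u} [Field k] {𝒱 : VarClass k} {ops : CycleOps 𝒱}
  {W : WeilCohomology.{u, 0} ops} (Ψ : HodgeData W)

/-- The action on the coefficients. -/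
abbrev coeff (X : 𝒱.Obj) : RingAut W.K →* RingAut (W.H X) := (Ψ.on X).coeff

/-- The Hodge decomposition. -/
abbrev hodge (X : 𝒱.Obj) : ℕ × ℕ → Submodule W.K (W.H X) := (Ψ.on X).hodge

theorem isCoeffAct (X : 𝒱.Obj) : IsCoeffAct (W.gr X) (W.tr X) (algClasses W X) (Ψ.coeff X) :=
  (Ψ.on X).isCoeffAct

theorem isHodgeDec (X : 𝒱.Obj) : IsHodgeDec (W.gr X) X.dim (algClasses W X) (Ψ.hodge X) :=
  (Ψ.on X).isHodgeDec

theorem map_coeff {X Y : 𝒱.Obj} (f : X ⟶ Y) (σ : RingAut W.K) (b : W.H Y) :
    Ψ.coeff X σ (W.map f b) = W.map f (Ψ.coeff Y σ b) := (Ψ.map f).coeff σ b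

theorem map_hodge {X Y : 𝒱.Obj} (f : X ⟶ Y) (i : ℕ × ℕ) (b : W.H Y) (hb : b ∈ Ψ.hodge Y i) :
    W.map f b ∈ Ψ.hodge X i := (Ψ.map f).hodge i b hb

end HodgeData

end Pool.Agent.Y132.AH
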