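import Pool.Agent.Y132.AH.HCls

/-!
# Varieties whose transcendental cohomology has a high level
-/

open CategoryTheory AlgebraicGeometry

set_option linter.unusedSectionVars false

universe u v

namespace Pool.Agent.Y132.AH

open Pool.Agent.H914 Pool.Agent.H914.VarClass Pool.Agent.H914.VarClass.Obj
  Pool.Agent.H914.WeilCohomology Pool.Agent.H281R3.HT Pool.Agent.W552 Pool.Agent.TH125.Gal
  Pool.Agent.Y132.AF

variable {k : Type u} [Field k] {𝒱 : VarClass k} {ops : CycleOps 𝒱}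
  {W : WeilCohomology.{u, 0} ops} (Ψ : HodgeData W)

theorem not_typeBound {X Z : 𝒱.Obj} (hX : SpVar Ψ X) {N : ℕ} (hZ : WidthLE Ψ Z N)
    (hlev : LevelGT Ψ X N) : ¬TypeBound Ψ X Z := by
  intro hB
  obtain ⟨S, hS, hw⟩ := hZ
  obtain ⟨p, q, hpq, hlt⟩ := hlev
  obtain ⟨m, hm, r, s, r', s', hr, hr', hrs, hrs', h1⟩ := hB S hS p q p q hpq hpq
  have h2 := hw m hm r s r' s' hr hr' hrs hrs'
  have h3 : p + q = X.dim := by
    obtain ⟨x, hxT, hxH, hx0⟩ := hpq
    refine type_sum Ψ (i := (p, q)) (hX.act.middle hxT) ?_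
    rw [prj_same _ hxH]
    exact hx0
  omega

/-- The theorem for varieties of high level. -/
theorem hodge_level [IsAlgClosed W.K] {ι : Type} {X : ι → 𝒱.Obj} (Z : 𝒱.Obj)
    (hX : SpFamily Ψ X) (𝒞 : ClassSystem W) {N : ℕ} (hZ : WidthLE Ψ Z N)
    (hlev : ∀ i, LevelGT Ψ (X i) N) (L : List ι) :
    HodgeIn Ψ 𝒞 (prodList X Z L) ↔ HodgeIn Ψ 𝒞 Z := by
  classical
  obtain ⟨B, -, hB, hiff⟩ := hodge_iff Ψ Z hX 𝒞
  have hB0 : ∀ i, i ∉ B := fun i hi => not_typeBound Ψ (hX.var i) hZ (hlev i) (hB i hi)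
  constructor
  · intro h
    have h1 := class_sub (𝒞 := 𝒞) (adFamily Ψ hX) (gradedVar Ψ Z) (List.nil_sublist L)
      (isTower_prodList Ψ X Z L) (isTower_prodList Ψ X Z []) ((classConj_iff Ψ 𝒞 _).2 h)
    exact (classConj_iff Ψ 𝒞 _).1 h1
  · intro h
    rw [hiff]
    intro L' _ hsmall
    have h1 : L' = [] := by
      rw [List.eq_nil_iff_forall_not_mem]
      exact fun i hi => hB0 i (hsmall.mem i hi)
    rw [h1]
    exact h

end Pool.Agent.Y132.AH
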