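import Pool.Agent.Y132.AH.Sys

/-!
# Systems of classes on products with powers: finitely many cases suffice
-/

open CategoryTheory AlgebraicGeometry Finset Function
open Pool.Agent.Y132.EP (DG tow lin lin_apply TateMap get_inj cj cj_apply sk mem_sk)

set_option linter.unusedSectionVars false

universe u v w

namespace Pool.Agent.Y132.AH

open Pool.Agent.H914 Pool.Agent.H914.VarClass Pool.Agent.H914.VarClass.Obj
  Pool.Agent.H914.WeilCohomology Pool.Agent.H281R3.HT Pool.Agent.W552 Pool.Agent.TH125.Gal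
  Pool.Agent.Y132.AF

variable {k : Type u} [Field k] {𝒱 : VarClass k} {ops : CycleOps 𝒱}
  {W : WeilCohomology.{u, 0} ops} {Γ : Type} [Group Γ]

/-- `lam` is the quotient of two eigenvalues of `g` on the cohomology of `Z` in a degree
`m ∈ S`. -/
def IsQuot (Z : GVar W Γ) (S : Set ℕ) (g : Γ) (lam : W.K) : Prop :=
  ∃ m ∈ S, ∃ x ∈ W.gr Z.X m, ∃ y ∈ W.gr Z.X m, x ≠ 0 ∧ y ≠ 0 ∧ ∃ β : W.K,
    Z.act g x = (lam * β) • x ∧ Z.act g y = β • y

/-- The cohomology of `Z` is generated as an algebra by the cohomology in the degrees in `S`. -/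
def GenDeg (Z : GVar W Γ) (S : Set ℕ) : Prop :=
  Algebra.adjoin W.K (⋃ m ∈ S, (W.gr Z.X m : Set (W.H Z.X))) = ⊤

/-- The eigenvalues of all `g` in the adjoint representation of `X`: if `a`, `b` are eigenvalues of
`g` on the transcendental cohomology of `X`, and if the cohomology of `Z` is generated in the
degrees in `S`, then `a b / χ(g) ^ dim X` is the quotient of two eigenvalues of `g` on the
cohomology of `Z` in a degree in `S`. -/
def AdBound (χ : Γ →* W.Kˣ) (X Z : GVar W Γ) : Prop :=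
  ∀ S : Set ℕ, GenDeg Z S → ∀ (g : Γ) (a b lam : W.K), ∀ x ∈ transcendental W X.X,
    ∀ y ∈ transcendental W X.X, x ≠ 0 → y ≠ 0 → X.act g x = a • x → X.act g y = b • y →
      (χ g : W.K) ^ X.X.dim * lam = a * b → IsQuot Z S g lam

/-- `lam` is the quotient of two eigenvalues of `g` on the subspace `U`. -/
def IsQuotOn (Z : GVar W Γ) (U : Submodule W.K (W.H Z.X)) (g : Γ) (lam : W.K) : Prop :=
  ∃ x ∈ U, ∃ y ∈ U, x ≠ 0 ∧ y ≠ 0 ∧ ∃ β : W.K, Z.act g x = (lam * β) • x ∧ Z.act g y = β • y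

/-- The subspaces in `𝒰` are stable under the action and generate the cohomology of `Z` as an
algebra. -/
structure StableGen (Z : GVar W Γ) (𝒰 : Set (Submodule W.K (W.H Z.X))) : Prop where
  stable : ∀ U ∈ 𝒰, ∀ g, ∀ x ∈ U, Z.act g x ∈ U
  gen : Algebra.adjoin W.K (⋃ U ∈ 𝒰, (U : Set (W.H Z.X))) = ⊤

/-- The eigenvalues of all `g` in the adjoint representation of `X`: if `a`, `b` are eigenvalues of
`g` on the transcendental cohomology of `X`, and if the cohomology of `Z` is generated by the stable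
subspaces in `𝒰`, then `a b / χ(g) ^ dim X` is the quotient of two eigenvalues of `g` on a subspace
in `𝒰`. -/
def StableBound (χ : Γ →* W.Kˣ) (X Z : GVar W Γ) : Prop :=
  ∀ 𝒰 : Set (Submodule W.K (W.H Z.X)), StableGen Z 𝒰 →
    ∀ (g : Γ) (a b lam : W.K), ∀ x ∈ transcendental W X.X,
    ∀ y ∈ transcendental W X.X, x ≠ 0 → y ≠ 0 → X.act g x = a • x → X.act g y = b • y →
      (χ g : W.K) ^ X.X.dim * lam = a * b → ∃ U ∈ 𝒰, IsQuotOn Z U g lam

variable {I ι : Type} {χ : Γ →* W.Kˣ} {X : I → DG W Γ}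

/-- The bound for the degrees. -/
theorem StableBound.adBound {X : GVar W Γ} {Z : DG W Γ} (h : StableBound χ X Z.toGVar) :
    AdBound χ X Z.toGVar := by
  intro S hS g a b lam x hx y hy hx0 hy0 ha hb hlam
  have hst : StableGen Z.toGVar {U | ∃ m ∈ S, U = W.gr Z.X m} := by
    constructor
    · rintro U ⟨m, -, rfl⟩ g x hx
      exact Z.deg g m x hx
    · have h1 : Algebra.adjoin W.K (⋃ m ∈ S, (W.gr Z.X m : Set (W.H Z.X))) = ⊤ := hS
      rw [← h1]
      congr 1
      ext x
      simp only [Set.mem_iUnion, Set.mem_setOf_eq, exists_prop]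
      constructor
      · rintro ⟨U, ⟨m, hm, rfl⟩, hx⟩
        exact ⟨m, hm, hx⟩
      · rintro ⟨m, hm, hx⟩
        exact ⟨_, ⟨m, hm, rfl⟩, hx⟩
  obtain ⟨U, ⟨m, hm, rfl⟩, z, hz, w, hw, h1⟩ := h _ hst g a b lam x hx y hy hx0 hy0 ha hb hlam
  exact ⟨m, hm, z, hz, w, hw, h1⟩

theorem der_zero {Z : DG W Γ} {𝒰 : Set (Submodule W.K (W.H Z.X))}
    (hS : StableGen Z.toGVar 𝒰) {D : W.H Z.X →ₗ[W.K] W.H Z.X}
    (hD : D ∈ dr (Subtype.val : 𝒰 → Submodule W.K (W.H Z.X)))
    (h : ∀ U ∈ 𝒰, ∀ x ∈ U, D x = 0) : D = 0 := by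
  have h1 : D 1 = 0 := by
    have h2 := hD.1 1 1
    rw [mul_one, mul_one, one_mul] at h2
    exact left_eq_add.1 h2
  apply LinearMap.ext
  intro x
  have hx : x ∈ Algebra.adjoin W.K (⋃ U ∈ 𝒰, (U : Set (W.H Z.X))) := by
    rw [hS.gen]
    exact Algebra.mem_top
  rw [LinearMap.zero_apply]
  induction hx using Algebra.adjoin_induction with
  | mem x hx =>
    obtain ⟨U, hU, hx⟩ := Set.mem_iUnion₂.1 hx
    exact h U hU x hx
  | algebraMap r => rw [Algebra.algebraMap_eq_smul_one, map_smul, h1, smul_zero]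
  | add x y _ _ hx hy => rw [map_add, hx, hy, add_zero]
  | mul x y _ _ hx hy => rw [hD.1, hx, hy, zero_mul, mul_zero, add_zero]

/-- **The eigenvalues of the colours which occur.** -/
theorem Occ.stableBound [IsAlgClosed W.K] [DecidableEq I] (h : Hy χ X) {Z : DG W Γ} {n : ℕ}
    {c : Fin n → I} {m j : ℕ} (hO : Occ h Z c m j) (s₀ : Fin n) :
    StableBound χ (X (c s₀)).toGVar Z.toGVar := by
  intro 𝒰 hS γ a b lam x hx y hy hx0 hy0 ha hb hlam
  have hS' : ∀ s, c s ∈ univ.image c := fun s => Finset.mem_image_of_mem _ (Finset.mem_univ s)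
  obtain ⟨-, f, hf⟩ := hO.restrict h (univ.image c) hS'
  have hX := h.comp (fun i : (univ.image c : Finset I) => (i : I)) Subtype.val_injective
  obtain ⟨G, g, b', -, hb'⟩ := exists_bases hX
  set s₁ : (univ.image c : Finset I) := ⟨c s₀, hS' s₀⟩ with hs₁
  set u : transcendental W (X (c s₀)).X := ⟨x, hx⟩ with hu
  set v : transcendental W (X (c s₀)).X := ⟨y, hy⟩ with hv
  have halt := h.alt (c s₀)
  have hnd := h.nd (c s₀)
  have hu0 : u ≠ 0 := fun h => hx0 (congrArg Subtype.val h)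
  have hv0 : v ≠ 0 := fun h => hy0 (congrArg Subtype.val h)
  have hχ : (χ γ : W.K) ^ (X (c s₀)).X.dim ≠ 0 := pow_ne_zero _ (Units.ne_zero _)
  have hρu : rhoT (h.gal (c s₀)) γ u = a • u := Subtype.ext (by
    rw [rhoT_apply]
    exact ha)
  have hρv : rhoT (h.gal (c s₀)) γ v = b • v := Subtype.ext (by
    rw [rhoT_apply]
    exact hb)
  have hform : ∀ w w', fB X (c s₀) (rhoT (h.gal (c s₀)) γ w) (rhoT (h.gal (c s₀)) γ w') =
      (χ γ : W.K) ^ (X (c s₀)).X.dim * fB X (c s₀) w w' :=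
    fun w w' => bil_act (h.gal (c s₀)) γ w w'
  -- the eigenvector
  have hcj : cj (rhoT (h.gal (c s₀))) γ (opA (fB X (c s₀)) u v) =
      lam • opA (fB X (c s₀)) u v := by
    apply LinearMap.ext
    intro t
    have e1 := hform u (rhoT (h.gal (c s₀)) γ⁻¹ t)
    have e2 := hform v (rhoT (h.gal (c s₀)) γ⁻¹ t)
    rw [Pool.Agent.Y132.EP.ginv, hρu, map_smul, LinearMap.smul_apply, smul_eq_mul] at e1
    rw [Pool.Agent.Y132.EP.ginv, hρv, map_smul, LinearMap.smul_apply, smul_eq_mul] at e2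
    rw [cj_apply, opA_apply, map_add, map_smul, map_smul, hρu, hρv, LinearMap.smul_apply,
      opA_apply, smul_add, smul_smul, smul_smul, smul_smul, smul_smul]
    have e3 : fB X (c s₀) u (rhoT (h.gal (c s₀)) γ⁻¹ t) * b = lam * fB X (c s₀) u t := by
      apply mul_left_cancel₀ hχ
      rw [← mul_assoc, ← e1, ← mul_assoc, hlam]
      ring
    have e4 : fB X (c s₀) v (rhoT (h.gal (c s₀)) γ⁻¹ t) * a = lam * fB X (c s₀) v t := by
      apply mul_left_cancel₀ hχ
      rw [← mul_assoc, ← e2, ← mul_assoc, hlam]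
      ring
    rw [e3, e4]
  have hop0 : opA (fB X (c s₀)) u v ≠ 0 := by
    intro h0
    obtain ⟨t, ht⟩ : ∃ t, fB X (c s₀) u t ≠ 0 := by
      by_contra hcon
      push Not at hcon
      exact hu0 (hnd u hcon)
    have e1 := congrArg (fun f => f t) h0
    simp only [opA_apply, LinearMap.zero_apply] at e1
    -- pair with `t`
    have e2 := congrArg (fun z => fB X (c s₀) z t) e1
    simp only [map_add, map_smul, LinearMap.add_apply, LinearMap.smul_apply, smul_eq_mul,
      map_zero, LinearMap.zero_apply] at e2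
    have e3 : fB X (c s₀) v t = 0 := by
      have e4 : (2 : W.K) * (fB X (c s₀) u t * fB X (c s₀) v t) = 0 := by linear_combination e2
      exact ((mul_eq_zero.1 ((mul_eq_zero.1 e4).resolve_left two_ne_zero)).resolve_left ht)
    rw [e3, zero_smul, add_zero] at e1
    exact hv0 ((smul_eq_zero.1 e1).resolve_left ht)
  have hq := occ_quot (B := fun i : (univ.image c : Finset I) => fB X i)
    (w := fun i : (univ.image c : Finset I) => (X i).X.dim) (adFam hX) hX.alt
    (τ := lin Z.toGVar) (gr := (Subtype.val : 𝒰 → Submodule W.K (W.H Z.X)))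
    (fun g x y => map_mul (Z.act g) x y)
    (fun g U x hx => hS.stable U.1 U.2 g x hx) (S := Set.univ)
    (fun D hD h => der_zero hS hD fun U hU x hx => h ⟨U, hU⟩ trivial x hx) hb' hf s₀
    (A := opA (fB X (c s₀)) u v) (fun x y => opA_skew halt _ _ x y) hop0 (γ := γ) (lam := lam) hcj
  obtain ⟨U, -, h1⟩ := hq
  exact ⟨U.1, U.2, h1⟩

section

variable {X : ι → DG W Γ} {Z : DG W Γ} {𝒞 : ClassSystem W}

/-- From Tate functions to multilinear maps. -/
theorem exists_occC [IsAlgClosed W.K] (h : Hy χ X) {κ : ℕ} {f : ∀ i, SFrame κ (X i).X W}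
    {n : ℕ} {c : Fin n → ι} {l : List (Fin n)} (hl : l.Nodup)
    (hS : ∀ p ∈ l, ∀ q ∈ l, p ≠ q → StC χ 𝒞 X c f Z ((l.erase p).erase q)) {m j : ℕ}
    {F : (Fin n → Lt κ) → W.H Z.X} (hF : IsT χ X c f Z l m j F)
    (hna : asm X c f Z l F ∉ 𝒞.C (tow X Z c l).X) :
    ∃ m j, Occ h Z (fun s => c (l.get s)) m j := by
  obtain ⟨F', hF', hne, htr⟩ := exists_trC h.gal h.mid h.hom hl hS hF hna
  obtain ⟨F₂, h1, h2, h3⟩ := hF'.flat hl hne fun p hp q hq hpq hc J => htr p hp q hq hpq hc J
  exact ⟨m, j, h1.deg, hmul X f Z _ F₂, ⟨hmul_tate h.gal h1, fun v => by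
    rw [hmul_apply]
    exact Submodule.sum_mem _ fun J _ => Submodule.smul_mem _ _ (h1.gr J),
    hmul_ne h1 h2, hmul_tr h1 h3⟩⟩

/-- **Main theorem**, for the products over lists. -/
theorem main_towC [IsAlgClosed W.K] [DecidableEq ι] (h : Hy χ X)
    {B : Finset ι} (hB : ∀ (n : ℕ) (c : Fin n → ι) (m j : ℕ), Occ h Z c m j → ∀ s, c s ∈ B)
    {n : ℕ} (c : Fin n → ι) {l : List (Fin n)} (hl : l.Nodup)
    (hT : ∀ l', l'.Sublist l → SmallList χ (fun i => (X i).toGVar) Z.toGVar B (l'.map c) →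
      ClassConj χ 𝒞 (tow X Z c l').toGVar) : ClassConj χ 𝒞 (tow X Z c l).toGVar := by
  set S : Finset ι := univ.image c with hSdef
  have hS : ∀ s, c s ∈ S := fun s => Finset.mem_image_of_mem _ (Finset.mem_univ s)
  set c' : Fin n → S := fun s => ⟨c s, hS s⟩ with hc'
  have hX : Hy χ (fun i : S => X i) :=
    h.comp (fun i : S => (i : ι)) Subtype.val_injective
  have htow : ∀ l : List (Fin n), tow (fun i : S => X i) Z c' l = tow X Z c l :=
    fun l => tow_comp X Z S c' l
  obtain ⟨κ, g, b, -, hb⟩ := exists_bases hX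
  have f : ∀ i : S, SFrame κ (X i).X W := fun i =>
    ⟨(exists_SB (h.hom i)).some, g i, b i, hb i, h.alt i⟩
  rw [← htow l]
  refine class_of_sub (f := f) hX.gal hX.mid hl ?_
  have hocc : ∀ l' : List (Fin n), l'.Sublist l →
      (∃ m j, Occ hX Z (fun s => c' (l'.get s)) m j) → StC χ 𝒞 (fun i : S => X i) c' f Z l' := by
    rintro l' hsub ⟨m, j, hO⟩
    have h1 := Occ.small h hB (Occ.unrestrict h S hO)
    have h2 : l'.map c = List.ofFn fun s => ((c' (l'.get s) : S) : ι) := map_get c l'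
    rw [← h2] at h1
    refine StC.of_class (fun i g t ht => act_trans (hX.gal i) g ht) hX.mid (hl.sublist hsub) ?_
    rw [htow l']
    exact hT l' hsub h1
  have key : ∀ (N : ℕ) (l' : List (Fin n)), l'.length ≤ N → l'.Sublist l →
      StC χ 𝒞 (fun i : S => X i) c' f Z l' := by
    intro N
    induction N with
    | zero =>
      intro l' hl' hsub
      by_cases ho : ∃ m j, Occ hX Z (fun s => c' (l'.get s)) m j
      · exact hocc l' hsub ho
      · intro m j F hF
        by_contra hna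
        have hnil : l' = [] := List.length_eq_zero_iff.1 (Nat.le_zero.1 hl')
        exact ho (exists_occC hX (hl.sublist hsub) (fun p hp => by
          rw [hnil] at hp
          exact absurd hp List.not_mem_nil) hF hna)
    | succ N ih =>
      intro l' hl' hsub
      by_cases ho : ∃ m j, Occ hX Z (fun s => c' (l'.get s)) m j
      · exact hocc l' hsub ho
      · intro m j F hF
        by_contra hna
        exact ho (exists_occC hX (hl.sublist hsub) (fun p hp q hq hpq => ih _ (by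
          have hq' : q ∈ l'.erase p := (List.mem_erase_of_ne hpq.symm).2 hq
          rw [List.length_erase_of_mem hq', List.length_erase_of_mem hp]
          omega) ((List.erase_sublist.trans List.erase_sublist).trans hsub)) hF hna)
  exact fun l' hl' => key l'.length l' le_rfl hl'

end

/-- The indices which occur. -/
theorem exists_BC [IsAlgClosed W.K] [DecidableEq I] (h : Hy χ X) (Z : DG W Γ) :
    ∃ B : Finset I, ∑ i ∈ B, Module.finrank W.K (transcendental W (X i).X) ≤
      Module.finrank W.K (W.H Z.X) ∧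
      (∀ (n : ℕ) (c : Fin n → I) (m j : ℕ), Occ h Z c m j → ∀ s, c s ∈ B) ∧
      ∀ i ∈ B, StableBound χ (X i).toGVar Z.toGVar := by
  classical
  obtain ⟨B, hB, hO⟩ := exists_B h Z
  refine ⟨B.filter fun i => ∃ (n : ℕ) (c : Fin n → I) (m j : ℕ), Occ h Z c m j ∧ ∃ s, c s = i,
    (Finset.sum_le_sum_of_subset (Finset.filter_subset _ _)).trans hB,
    fun n c m j hO' s => Finset.mem_filter.2 ⟨hO n c m j hO' s, n, c, m, j, hO', s, rfl⟩,
    fun i hi => ?_⟩
  obtain ⟨-, n, c, m, j, hO', s, rfl⟩ := Finset.mem_filter.1 hi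
  exact Occ.stableBound h hO' s

/-- **Finitely many products suffice**, with the bound for all stable generating subspaces. -/
theorem class_iff' [IsAlgClosed W.K] [DecidableEq ι] {X : ι → GVar W Γ} {Z : GVar W Γ}
    (𝒞 : ClassSystem W) (hX : AdFamily χ X) (hZ : GradedVar Z) :
    ∃ B : Finset ι, ∑ i ∈ B, trRank (X i) ≤ totRank Z ∧ (∀ i ∈ B, StableBound χ (X i) Z) ∧
      ∀ (L : List ι) (Y : GVar W Γ), IsTower X Z L Y →
        (ClassConj χ 𝒞 Y ↔ ∀ (L' : List ι) (Y' : GVar W Γ), L'.Sublist L →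
          SmallList χ X Z B L' → IsTower X Z L' Y' → ClassConj χ 𝒞 Y') := by
  let X' : ι → DG W Γ := fun i => ⟨X i, (hX.var i).act.galois.gr_mem⟩
  let Z' : DG W Γ := ⟨Z, hZ⟩
  have hX' : Hy χ X' := ⟨fun i => isGalois (hX.var i).act.galois,
    fun i => (hX.var i).homEqNum, fun i => (hX.var i).act.middle, fun i => (hX.var i).act.odd,
    fun i => (hX.var i).act.irreducible, fun i => (hX.var i).act.hyperbolic, hX.adjoint⟩
  obtain ⟨B, hBcard, hB, hBa⟩ := exists_BC hX' Z'
  refine ⟨B, hBcard, hBa, fun L Y hY => ⟨fun hT L' Y' hsub _ hY' => ?_, fun hT => ?_⟩⟩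
  · -- subproducts
    have e : ∀ L : List ι, L = L.map id := fun L => (List.map_id L).symm
    have hone : ∀ i, (1 : W.H (X' i).X) ≠ 0 := by
      intro i h0
      obtain ⟨F, x, hx, y, hy, hx0, -⟩ := hX'.hyp i
      apply hx0
      rw [← one_mul x]
      change (1 : W.H (X' i).X) * x = 0
      rw [h0, zero_mul]
    rw [e L] at hY
    rw [e L'] at hY'
    have h2 := isTower_unique (X := X') (Z := Z') L hY
    have h3 := isTower_unique (X := X') (Z := Z') L' hY'
    subst h2
    subst h3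
    exact class_sublist hX'.hom hone hsub hT
  · -- reduction to small lists
    have e : L = (List.finRange L.length).map L.get := by
      rw [← List.ofFn_eq_map, List.ofFn_get]
    have hY' : IsTower X Z ((List.finRange L.length).map L.get) Y := by
      rw [← e]
      exact hY
    have h2 := isTower_unique (X := X') (Z := Z') (List.finRange L.length) hY'
    subst h2
    refine main_towC hX' hB L.get (List.nodup_finRange _) fun l' hl' hsmall => ?_
    refine hT (l'.map L.get) _ ?_ hsmall (isTower_tow X' Z' L.get l')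
    have h3 := hl'.map L.get
    rwa [← e] at h3

/-- **Finitely many products suffice.** -/
theorem class_iff [IsAlgClosed W.K] [DecidableEq ι] {X : ι → GVar W Γ} {Z : GVar W Γ}
    (𝒞 : ClassSystem W) (hX : AdFamily χ X) (hZ : GradedVar Z) :
    ∃ B : Finset ι, ∑ i ∈ B, trRank (X i) ≤ totRank Z ∧ (∀ i ∈ B, AdBound χ (X i) Z) ∧
      ∀ (L : List ι) (Y : GVar W Γ), IsTower X Z L Y →
        (ClassConj χ 𝒞 Y ↔ ∀ (L' : List ι) (Y' : GVar W Γ), L'.Sublist L →
          SmallList χ X Z B L' → IsTower X Z L' Y' → ClassConj χ 𝒞 Y') := by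
  obtain ⟨B, h1, h2, h3⟩ := class_iff' 𝒞 hX hZ
  exact ⟨B, h1, fun i hi => StableBound.adBound (Z := ⟨Z, hZ⟩) (h2 i hi), h3⟩

end Pool.Agent.Y132.AH
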