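import Pool.Agent.Y132.AH.Hact
import Pool.Agent.Y132.AH.Main

/-!
# The main theorem for Hodge structures
-/

open CategoryTheory AlgebraicGeometry

set_option linter.unusedSectionVars false

universe u v

namespace Pool.Agent.Y132.AH

open Pool.Agent.H914 Pool.Agent.H914.VarClass Pool.Agent.H914.VarClass.Obj
  Pool.Agent.H914.WeilCohomology Pool.Agent.H281R3.HT Pool.Agent.W552 Pool.Agent.TH125.Gal
  Pool.Agent.Y132.AF

section Dec

variable {K : Type} [Field K] {A : Type} [Ring A] [Algebra K A]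
  {gr : ℕ → Submodule K A} {n : ℕ} {C : ℕ → Set A} {H : ℕ × ℕ → Submodule K A}
  (h : IsHodgeDec gr n C H) {tr : A →ₗ[K] K}
  (htr : ∀ {i : ℕ} {a : A}, a ∈ gr i → i ≠ 2 * n → tr a = 0)

include h htr in
theorem tr_hodge {i : ℕ × ℕ} (hi : i ≠ (n, n)) {x : A} (hx : x ∈ H i) : tr x = 0 := by
  rw [← one_prj_tr h htr, prj_ne h.isInternal hi hx, map_zero]

include h htr in
theorem tr_prj_mul {i j : ℕ × ℕ} (hij : (i.1 + j.1, i.2 + j.2) = (n, n)) (t : A) {c : A}
    (hc : c ∈ H j) : tr (prj h.isInternal i t * c) = tr (t * c) := by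
  refine int_ind (p := fun t => tr (prj h.isInternal i t * c) = tr (t * c)) h.isInternal t
    (fun i' t ht => ?_) (by simp) fun x y hx hy => ?_
  · by_cases hi : i' = i
    · subst hi
      rw [prj_same h.isInternal ht]
    · rw [prj_ne h.isInternal hi ht, zero_mul, map_zero]
      refine (tr_hodge h htr (i := (i'.1 + j.1, i'.2 + j.2)) ?_ (h.mul_mem ht hc)).symm
      intro h1
      apply hi
      rw [Prod.mk.injEq] at h1 hij
      exact Prod.ext (by omega) (by omega)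
  · rw [map_add, add_mul, map_add, add_mul, map_add, hx, hy]

include h htr in
theorem tr_mul_prj {i j : ℕ × ℕ} (hij : (j.1 + i.1, j.2 + i.2) = (n, n)) (t : A) {c : A}
    (hc : c ∈ H j) : tr (c * prj h.isInternal i t) = tr (c * t) := by
  refine int_ind (p := fun t => tr (c * prj h.isInternal i t) = tr (c * t)) h.isInternal t
    (fun i' t ht => ?_) (by simp) fun x y hx hy => ?_
  · by_cases hi : i' = i
    · subst hi
      rw [prj_same h.isInternal ht]
    · rw [prj_ne h.isInternal hi ht, mul_zero, map_zero]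
      refine (tr_hodge h htr (i := (j.1 + i'.1, j.2 + i'.2)) ?_ (h.mul_mem hc ht)).symm
      intro h1
      apply hi
      rw [Prod.mk.injEq] at h1 hij
      exact Prod.ext (by omega) (by omega)
  · rw [map_add, mul_add, map_add, mul_add, map_add, hx, hy]

/-- Eigenvectors of the torus. -/
theorem tor_eigen {z a : K} {x : A} (hx : tor h z x = a • x) {i : ℕ × ℕ}
    (hi : prj h.isInternal i x ≠ 0) : a = z ^ i.1 := by
  have h1 := congrArg (prj h.isInternal i) hx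
  rw [tor, scaleOp_comm, map_smul] at h1
  by_contra hcon
  have h2 : (z ^ i.1 - a) • prj h.isInternal i x = 0 := by rw [sub_smul, h1, sub_self]
  rcases smul_eq_zero.1 h2 with h3 | h3
  · exact hcon (sub_eq_zero.1 h3).symm
  · exact hi h3

end Dec

/-- **Valuations.** -/
theorem exists_val (K : Type) [Field K] [CharZero K] :
    ∃ ν : Val K, val ν (Units.mk0 (2 : K) two_ne_zero) = 1 := by
  set u : Kˣ := Units.mk0 (2 : K) two_ne_zero with hu
  have hdiv : DivisibleBy ℚ ℤ := inferInstance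
  let f : ℤ →+ Additive Kˣ := (zmultiplesHom (Additive Kˣ)) (Additive.ofMul u)
  have hf : Function.Injective f := by
    rw [injective_iff_map_eq_zero]
    intro m hm
    have h1 : u ^ m = 1 := by
      have h2 : m • Additive.ofMul u = 0 := hm
      rw [← ofMul_zpow] at h2
      exact Additive.ofMul.injective h2
    have h2 : (2 : K) ^ m = 1 := by
      have h3 := congrArg (fun x : Kˣ => (x : K)) h1
      simpa [hu] using h3
    have h3 : ((2 : ℚ) ^ m : ℚ) = 1 := by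
      have h4 : (((2 : ℚ) ^ m : ℚ) : K) = ((1 : ℚ) : K) := by
        push_cast
        exact h2
      exact Rat.cast_injective h4
    exact zpow_right_injective₀ (by norm_num : (0 : ℚ) < 2) (by norm_num) (by simpa using h3)
  obtain ⟨ν, hν⟩ := (Module.Baer.of_divisible ℚ).extension_property_addMonoidHom f hf
    (Int.castAddHom ℚ)
  refine ⟨ν, ?_⟩
  have h1 := congrArg (fun g : ℤ →+ ℚ => g 1) hν
  simp only [AddMonoidHom.comp_apply] at h1
  have h2 : f 1 = Additive.ofMul u := by simp [f]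
  rw [h2] at h1
  simpa [val] using h1

theorem val_pow {K : Type} [Field K] (ν : Val K) (a : Kˣ) (m : ℕ) :
    val ν (a ^ m) = m * val ν a := by
  rw [val, ofMul_pow, map_nsmul, nsmul_eq_mul]
  rfl

variable {k : Type u} [Field k] {𝒱 : VarClass k} {ops : CycleOps 𝒱}
  {W : WeilCohomology.{u, 0} ops} (Ψ : HodgeData W)

/-- The action of the free group. -/
noncomputable def ract (X : 𝒱.Obj) : FreeGroup (RingAut W.K × W.Kˣ) →* (W.H X ≃ₐ[W.K] W.H X) :=
  hact (Ψ.isHodgeDec X) (Ψ.isCoeffAct X)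

/-- A variety with the action of the free group. -/
noncomputable abbrev actv (X : 𝒱.Obj) : GVar W (FreeGroup (RingAut W.K × W.Kˣ)) := ⟨X, ract Ψ X⟩

theorem ract_of (X : 𝒱.Obj) (g : RingAut W.K × W.Kˣ) (x : W.H X) :
    ract Ψ X (FreeGroup.of g) x = ctor (Ψ.isHodgeDec X) (Ψ.isCoeffAct X) g x := by
  rw [ract, hact_of]

theorem actv_galois (X : 𝒱.Obj) : IsGaloisVar (hchar W.K) (actv Ψ X) :=
  hact_galois (Ψ.isHodgeDec X) (Ψ.isCoeffAct X) (W.isInternal X) fun ha hi => W.tr_eq_zero ha hi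

theorem ctor_map {X Y : 𝒱.Obj} (f : X ⟶ Y) (g : RingAut W.K × W.Kˣ) (b : W.H Y) :
    ctor (Ψ.isHodgeDec X) (Ψ.isCoeffAct X) g (W.map f b) =
      W.map f (ctor (Ψ.isHodgeDec Y) (Ψ.isCoeffAct Y) g b) := by
  have h1 : ∀ (z : W.K) b, tor (Ψ.isHodgeDec X) z (W.map f b) =
      W.map f (tor (Ψ.isHodgeDec Y) z b) := by
    intro z b
    refine int_ind (p := fun b => tor (Ψ.isHodgeDec X) z (W.map f b) =
      W.map f (tor (Ψ.isHodgeDec Y) z b)) (Ψ.isHodgeDec Y).isInternal b (fun i b hb => ?_)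
      (by simp) fun x y hx hy => ?_
    · rw [tor_apply _ z hb, tor_apply _ z (Ψ.map_hodge f i b hb), map_smul]
    · rw [map_add, map_add, map_add, map_add, hx, hy]
  rw [ctor_apply, ctor_apply, Ψ.map_coeff, h1, Ψ.map_coeff]

theorem hact_map {X Y : 𝒱.Obj} (f : X ⟶ Y) (g : FreeGroup (RingAut W.K × W.Kˣ)) (b : W.H Y) :
    ract Ψ X g (W.map f b) = W.map f (ract Ψ Y g b) := by
  induction g using FreeGroup.induction_on generalizing b with
  | C1 => rw [map_one, map_one]; rfl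
  | of x => rw [ract_of, ract_of, ctor_map]
  | inv_of x _ =>
    obtain ⟨σ, z⟩ := x
    rw [ract, ract, map_inv, map_inv, hact_of, hact_of, ctor_inv, ctor_inv, ctor_map]
  | mul a c ha hc =>
    rw [map_mul, map_mul, AlgEquiv.mul_apply, AlgEquiv.mul_apply, hc, ha]

theorem isTower_prodList {ι : Type} (X : ι → 𝒱.Obj) (Z : 𝒱.Obj) (L : List ι) :
    IsTower (fun i => actv Ψ (X i)) (actv Ψ Z) L (actv Ψ (prodList X Z L)) := by
  induction L with
  | nil => exact IsTower.nil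
  | cons i L ih =>
    refine IsTower.cons i ih ?_
    exact IsProdVar.mk _ (fun g a => hact_map Ψ _ g a) (fun g a => hact_map Ψ _ g a)

/-- The element of the free group given by the torus element `2`. -/
noncomputable def two (K : Type) [Field K] [CharZero K] : FreeGroup (RingAut K × Kˣ) :=
  FreeGroup.of (1, Units.mk0 2 two_ne_zero)

theorem act_two (X : 𝒱.Obj) (x : W.H X) :
    ract Ψ X (two W.K) x = tor (Ψ.isHodgeDec X) 2 x := by
  rw [two, ract_of, ctor_apply]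
  simp

theorem hchar_two : hchar W.K (two W.K) = Units.mk0 2 two_ne_zero := by
  apply Units.ext
  rw [two, hchar_of]
  simp

/-- The eigenvalues of the element `2`. -/
theorem exists_type {X : 𝒱.Obj} {x : W.H X} (hx0 : x ≠ 0) {a : W.K}
    (hx : ract Ψ X (two W.K) x = a • x) :
    ∃ i : ℕ × ℕ, prj (Ψ.isHodgeDec X).isInternal i x ≠ 0 ∧ a = 2 ^ i.1 := by
  obtain ⟨i, hi⟩ := exists_prj_ne (Ψ.isHodgeDec X).isInternal hx0
  rw [act_two] at hx
  exact ⟨i, hi, tor_eigen _ hx hi⟩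

theorem prj_trans {X : 𝒱.Obj} {t : W.H X} (ht : t ∈ transcendental W X) (i : ℕ × ℕ) :
    prj (Ψ.isHodgeDec X).isInternal i t ∈ transcendental W X := by
  rw [mem_trans] at ht ⊢
  intro j c hc
  have hc' := (Ψ.isHodgeDec X).cl_mem j c hc
  rw [bil_apply]
  by_cases hi : (i.1 + j, i.2 + j) = (X.dim, X.dim)
  · rw [tr_prj_mul (Ψ.isHodgeDec X) (fun ha hi => W.tr_eq_zero ha hi) (j := (j, j)) hi t hc',
      ← bil_apply]
    exact ht j c hc
  · exact tr_hodge (Ψ.isHodgeDec X) (fun ha hi => W.tr_eq_zero ha hi) hi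
      ((Ψ.isHodgeDec X).mul_mem (prj_mem (Ψ.isHodgeDec X).isInternal i t) hc')

theorem type_sum {X : 𝒱.Obj} {m : ℕ} {x : W.H X} (hx : x ∈ W.gr X m) {i : ℕ × ℕ}
    (hi : prj (Ψ.isHodgeDec X).isInternal i x ≠ 0) : i.1 + i.2 = m := by
  by_contra hcon
  exact hi (hodge_prj_zero (Ψ.isHodgeDec X) (W.isInternal X) hx hcon)

theorem type_le {X : 𝒱.Obj} {x : W.H X} {i : ℕ × ℕ}
    (hi : prj (Ψ.isHodgeDec X).isInternal i x ≠ 0) : i.1 ≤ X.dim ∧ i.2 ≤ X.dim := by
  by_contra hcon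
  rw [not_and_or, not_le, not_le] at hcon
  have h1 := (Ψ.isHodgeDec X).eq_bot i.1 i.2 hcon
  have h2 : prj (Ψ.isHodgeDec X).isInternal i x ∈ (⊥ : Submodule W.K (W.H X)) := by
    rw [← h1]
    exact prj_mem _ _ _
  exact hi ((Submodule.mem_bot _).1 h2)

/-- A nonzero transcendental class of pure type and one of the opposite type. -/
theorem exists_pair {X : 𝒱.Obj} (h : SpVar Ψ X) : ∃ p q : ℕ, p + q = X.dim ∧
    TrType Ψ X p q ∧ TrType Ψ X q p := by
  obtain ⟨x, hxT, hx0⟩ := (Submodule.ne_bot_iff _).1 h.act.ne_bot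
  obtain ⟨i, hi⟩ := exists_prj_ne (Ψ.isHodgeDec X).isInternal hx0
  have hsum : i.1 + i.2 = X.dim := type_sum Ψ (h.act.middle hxT) hi
  set x' := prj (Ψ.isHodgeDec X).isInternal i x with hx'
  have hx'T : x' ∈ transcendental W X := prj_trans Ψ hxT i
  have hx'H : x' ∈ Ψ.hodge X i := prj_mem _ _ _
  refine ⟨i.1, i.2, hsum, ⟨x', hx'T, hx'H, hi⟩, ?_⟩
  obtain ⟨y, hy⟩ : ∃ y : transcendental W X, rform W X (transcendental W X) ⟨x', hx'T⟩ y ≠ 0 := by
    by_contra hcon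
    push Not at hcon
    exact hi (congrArg Subtype.val (trans_nondeg h.homEqNum ⟨x', hx'T⟩ hcon))
  refine ⟨prj (Ψ.isHodgeDec X).isInternal (i.2, i.1) y, prj_trans Ψ y.2 _, prj_mem _ _ _,
    fun h0 => hy ?_⟩
  rw [rform_apply, bil_apply]
  change W.tr X (x' * (y : W.H X)) = 0
  rw [← tr_mul_prj (Ψ.isHodgeDec X) (fun ha hi => W.tr_eq_zero ha hi) (i := (i.2, i.1)) (j := i)
    (Prod.ext hsum (by change i.2 + i.1 = X.dim; omega)) (y : W.H X) hx'H, h0, mul_zero, map_zero]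

theorem two_pow_ne {K : Type} [Field K] [CharZero K] {a b : ℕ} (h : a ≠ b) :
    (2 : K) ^ a ≠ 2 ^ b := by
  intro h1
  have h2 : ((2 ^ a : ℕ) : K) = ((2 ^ b : ℕ) : K) := by
    push_cast
    exact h1
  exact h (Nat.pow_right_injective le_rfl (Nat.cast_injective h2))

theorem act_type {X : 𝒱.Obj} {p q : ℕ} {x : W.H X} (hx : x ∈ Ψ.hodge X (p, q)) :
    ract Ψ X (two W.K) x = (2 : W.K) ^ p • x := by
  rw [act_two]
  exact tor_apply (Ψ.isHodgeDec X) 2 hx

theorem hypAct {X : 𝒱.Obj} (h : SpVar Ψ X) : HypAct (transcendental W X) (ract Ψ X) := by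
  obtain ⟨p, q, hpq, ⟨x, hxT, hxH, hx0⟩, ⟨y, hyT, hyH, hy0⟩⟩ := exists_pair Ψ h
  refine ⟨two W.K, x, hxT, y, hyT, hx0, hy0, 2 ^ p, 2 ^ q, act_type Ψ hxH, act_type Ψ hyH,
    fun m hm => ?_⟩
  rw [← pow_mul, ← pow_mul]
  apply two_pow_ne
  intro h1
  have h2 := Nat.eq_of_mul_eq_mul_right hm h1
  have h3 := h.act.odd
  rw [← hpq, h2] at h3
  exact (Nat.not_odd_iff_even.2 (Even.add_self q)) h3

theorem conjBy_conjSkew {X : 𝒱.Obj} (g : RingAut W.K × W.Kˣ)
    (N N' : skewOps (W.tr X) (transcendental W X)) :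
    ConjBy (Ψ.on X) (transcendental W X) g N N' ↔
      ConjSkew (W.tr X) (transcendental W X) (ract Ψ X) (FreeGroup.of g) N N' := by
  have h1 : ∀ x, ract Ψ X (FreeGroup.of g) x = conjTorus (Ψ.on X) g x := fun x => ract_of Ψ X g x
  constructor
  · intro h t t' ht
    rw [h1] at ht ⊢
    exact h t t' ht
  · intro h t t' ht
    rw [← h1] at ht ⊢
    exact h t t' ht

theorem adFamily {ι : Type} {X : ι → 𝒱.Obj} (h : SpFamily Ψ X) :
    AdFamily (hchar W.K) fun i => actv Ψ (X i) where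
  var i := by
    refine ⟨⟨actv_galois Ψ (X i), (h.var i).act.odd, (h.var i).act.middle, Or.inl fun U hU => ?_,
      hypAct Ψ (h.var i)⟩, (h.var i).homEqNum⟩
    exact (h.var i).act.irreducible U fun g x y hxy hx =>
      hU (FreeGroup.of g) x y ((conjBy_conjSkew Ψ g x y).1 hxy) hx
  adjoint i j hij := by
    rintro ⟨f, hf⟩
    exact h.adjoint i j hij ⟨f, fun g x y hxy => (conjBy_conjSkew Ψ g _ _).2
      (hf (FreeGroup.of g) x y ((conjBy_conjSkew Ψ g x y).1 hxy))⟩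

theorem gradedVar (Z : 𝒱.Obj) : GradedVar (actv Ψ Z) := (actv_galois Ψ Z).gr_mem

/-- Small lists. -/
theorem smallHodge {ι : Type} [DecidableEq ι] {X : ι → 𝒱.Obj} (hX : SpFamily Ψ X) {Z : 𝒱.Obj}
    {B : Finset ι} {L : List ι}
    (h : SmallList (hchar W.K) (fun i => actv Ψ (X i)) (actv Ψ Z) B L) :
    SmallHodge Ψ X Z B L := by
  obtain ⟨hm, m, h1, h2, h3, h4⟩ := h
  refine ⟨hm, m, h1, h2, h3, fun δ hδ => ?_⟩
  obtain ⟨ν, hν⟩ := exists_val W.K
  have h5 := h4 ν (two W.K) (fun i => (δ i : ℚ)) (by rw [hchar_two]; exact hν) ?_ ?_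
  · obtain ⟨h6, h7⟩ := h5
    have h8 : ((L.map δ).sum : ℚ) = (L.map fun i => (δ i : ℚ)).sum := by
      rw [Nat.cast_list_sum, List.map_map]
      rfl
    rw [← h8] at h6 h7
    refine ⟨by exact_mod_cast h6, ?_⟩
    have h9 : ((m + (L.map δ).sum : ℕ) : ℚ) ≤ ((2 * Z.dim : ℕ) : ℚ) := by
      rw [Nat.cast_add, Nat.cast_mul]
      exact h7
    exact_mod_cast h9
  · intro a z hz0 hz
    obtain ⟨i, hi, ha⟩ := exists_type Ψ hz0 hz
    have h6 : a = (Units.mk0 (2 : W.K) two_ne_zero) ^ i.1 := Units.ext (by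
      rw [ha, Units.val_pow_eq_pow_val]
      rfl)
    rw [h6, val_pow, hν, mul_one]
    exact ⟨Nat.cast_nonneg _, by exact_mod_cast (type_le Ψ hi).1⟩
  · intro i hiL a z hzT hz0 hz
    obtain ⟨j, hj, ha⟩ := exists_type Ψ hz0 hz
    have h6 : a = (Units.mk0 (2 : W.K) two_ne_zero) ^ j.1 := Units.ext (by
      rw [ha, Units.val_pow_eq_pow_val]
      rfl)
    have h7 : j.1 + j.2 = (X i).dim := type_sum Ψ ((hX.var i).act.middle hzT) hj
    have h8 := hδ i hiL j.1 j.2 ⟨_, prj_trans Ψ hzT j, prj_mem _ _ _, hj⟩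
    rw [h6, val_pow, hν, mul_one]
    change (δ i : ℚ) ≤ |2 * (j.1 : ℚ) - ((X i).dim : ℚ)|
    rw [← h7]
    have h9 : (2 * (j.1 : ℚ) - ((j.1 + j.2 : ℕ) : ℚ)) = (((j.1 : ℤ) - j.2 : ℤ) : ℚ) := by
      push_cast
      ring
    rw [h9]
    have h10 : (δ i : ℤ) ≤ |(j.1 : ℤ) - j.2| := by
      rcases h8 with h8 | h8
      · rw [abs_sub_comm]
        exact le_trans (by omega) (le_abs_self _)
      · exact le_trans (by omega) (le_abs_self _)
    exact_mod_cast h10

/-- The bound for the types. -/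
theorem typeBound {X Z : 𝒱.Obj}
    (h : AdBound (hchar W.K) (actv Ψ X) (actv Ψ Z)) : TypeBound Ψ X Z := by
  intro S hS p q p' q' ⟨x, hxT, hxH, hx0⟩ ⟨y, hyT, hyH, hy0⟩
  have h2 : (2 : W.K) ^ X.dim ≠ 0 := pow_ne_zero _ two_ne_zero
  obtain ⟨m, hm, z, hz, w, hw, hz0, hw0, β, hzβ, hwβ⟩ := h S hS (two W.K) (2 ^ p) (2 ^ p')
    (2 ^ p * 2 ^ p' / 2 ^ X.dim) x hxT y hyT hx0 hy0 (act_type Ψ hxH) (act_type Ψ hyH) (by
      rw [hchar_two]
      change (2 : W.K) ^ X.dim * _ = _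
      field_simp)
  obtain ⟨i, hi, hia⟩ := exists_type Ψ hz0 hzβ
  obtain ⟨j, hj, hja⟩ := exists_type Ψ hw0 hwβ
  have hne : ∀ (V : 𝒱.Obj) (v : W.H V) (i : ℕ × ℕ), prj (Ψ.isHodgeDec V).isInternal i v ≠ 0 →
      HasType Ψ V i.1 i.2 := by
    intro V v i hi
    exact ⟨_, Submodule.mem_top, prj_mem _ _ _, hi⟩
  refine ⟨m, hm, i.1, i.2, j.1, j.2, hne _ _ _ hi, hne _ _ _ hj, type_sum Ψ hz hi,
    type_sum Ψ hw hj, ?_⟩
  rw [hja] at hia
  have h3 : (2 : W.K) ^ (p + p' + j.1) = 2 ^ (i.1 + X.dim) := by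
    rw [pow_add, pow_add, pow_add, ← hia]
    field_simp
  by_contra hcon
  exact two_pow_ne hcon h3

end Pool.Agent.Y132.AH
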