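import Pool.Agent.Y132.AH.HLem

/-!
# The action of the free group generated by the conjugates of the Hodge cocharacter
-/

open CategoryTheory AlgebraicGeometry

set_option linter.unusedSectionVars false

universe u v

namespace Pool.Agent.Y132.AH

open Pool.Agent.Y132.AF Pool.Agent.TH125.Gal

section Alg

variable {K : Type} [Field K] {A : Type} [Ring A] [Algebra K A]
  {gr : ℕ → Submodule K A} {n : ℕ} {C : ℕ → Set A} {H : ℕ × ℕ → Submodule K A}

/-- The torus operator. -/
noncomputable def tor (h : IsHodgeDec gr n C H) (z : K) : A →ₗ[K] A :=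
  scaleOp h.isInternal fun i => z ^ i.1

theorem tor_apply (h : IsHodgeDec gr n C H) (z : K) {i : ℕ × ℕ} {x : A} (hx : x ∈ H i) :
    tor h z x = z ^ i.1 • x := scaleOp_apply _ _ hx

theorem tor_mul (h : IsHodgeDec gr n C H) (z : K) (x y : A) :
    tor h z (x * y) = tor h z x * tor h z y := by
  refine int_ind (p := fun x => tor h z (x * y) = tor h z x * tor h z y) h.isInternal x
    (fun i x hx => ?_) (by simp) fun x x' h1 h2 => ?_
  · refine int_ind (p := fun y => tor h z (x * y) = tor h z x * tor h z y) h.isInternal y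
      (fun j y hy => ?_) (by simp) fun y y' h1 h2 => ?_
    · have h1 : x * y ∈ H (i.1 + j.1, i.2 + j.2) := h.mul_mem hx hy
      rw [tor_apply h z hx, tor_apply h z hy, tor_apply h z h1, smul_mul_smul_comm, pow_add]
    · rw [mul_add, map_add, map_add, mul_add, h1, h2]
  · rw [add_mul, map_add, map_add, add_mul, h1, h2]

theorem tor_tor (h : IsHodgeDec gr n C H) (z w : K) (x : A) :
    tor h z (tor h w x) = tor h (z * w) x := by
  have h1 : tor h z ∘ₗ tor h w = tor h (z * w) := int_ext h.isInternal fun i x hx => by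
    rw [LinearMap.comp_apply, tor_apply h w hx, map_smul, tor_apply h z hx, tor_apply h _ hx,
      smul_smul, mul_pow, mul_comm]
  rw [← h1]
  rfl

theorem tor_one (h : IsHodgeDec gr n C H) (x : A) : tor h 1 x = x := by
  have h1 : tor h 1 = LinearMap.id := int_ext h.isInternal fun i x hx => by
    rw [tor_apply h 1 hx, one_pow, one_smul]
    rfl
  rw [h1]
  rfl

theorem tor_inv (h : IsHodgeDec gr n C H) (z : Kˣ) (x : A) :
    tor h (z : K) (tor h ((z⁻¹ : Kˣ) : K) x) = x := by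
  rw [tor_tor, Units.mul_inv, tor_one]

theorem tor_inv' (h : IsHodgeDec gr n C H) (z : Kˣ) (x : A) :
    tor h ((z⁻¹ : Kˣ) : K) (tor h (z : K) x) = x := by
  rw [tor_tor, Units.inv_mul, tor_one]

theorem tor_map_one (h : IsHodgeDec gr n C H) (z : Kˣ) : tor h (z : K) 1 = 1 := by
  have h1 : ∀ y, tor h (z : K) 1 * y = y := fun y => by
    conv_lhs => rw [← tor_inv h z y]
    rw [← tor_mul, one_mul, tor_inv]
  have h2 := h1 1
  rwa [mul_one] at h2

theorem tor_gr (h : IsHodgeDec gr n C H) (hgr : DirectSum.IsInternal gr) (z : K) {m : ℕ} {x : A}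
    (hx : x ∈ gr m) : tor h z x ∈ gr m := by
  refine mem_of_prj hgr fun j hj => ?_
  have h1 : prj hgr j ∘ₗ tor h z = tor h z ∘ₗ prj hgr j := int_ext h.isInternal fun i x hx => by
    have hx' : x ∈ gr (i.1 + i.2) := h.le i.1 i.2 hx
    rw [LinearMap.comp_apply, LinearMap.comp_apply, tor_apply h z hx, map_smul]
    by_cases hi : i.1 + i.2 = j
    · rw [hi] at hx'
      rw [prj_same hgr hx', tor_apply h z hx]
    · rw [prj_ne hgr hi hx', map_zero, smul_zero]
  have h2 := congrArg (fun f => f x) h1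
  simp only [LinearMap.comp_apply] at h2
  rw [h2, prj_ne hgr (Ne.symm hj) hx, map_zero]

variable {tr : A →ₗ[K] K} {γ : RingAut K →* RingAut A}

/-- The conjugate torus operator. -/
noncomputable def ctor (h : IsHodgeDec gr n C H) (hγ : IsCoeffAct gr tr C γ)
    (g : RingAut K × Kˣ) : A ≃ₐ[K] A where
  toFun a := γ g.1 (tor h (g.2 : K) (γ g.1⁻¹ a))
  invFun a := γ g.1 (tor h ((g.2⁻¹ : Kˣ) : K) (γ g.1⁻¹ a))
  left_inv a := by
    have h1 : ∀ x, γ g.1⁻¹ (γ g.1 x) = x := fun x => by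
      rw [← RingAut.mul_apply, ← map_mul, inv_mul_cancel, map_one, RingAut.one_apply]
    have h2 : ∀ x, γ g.1 (γ g.1⁻¹ x) = x := fun x => by
      rw [← RingAut.mul_apply, ← map_mul, mul_inv_cancel, map_one, RingAut.one_apply]
    simp only [h1, tor_inv', h2]
  right_inv a := by
    have h1 : ∀ x, γ g.1⁻¹ (γ g.1 x) = x := fun x => by
      rw [← RingAut.mul_apply, ← map_mul, inv_mul_cancel, map_one, RingAut.one_apply]
    have h2 : ∀ x, γ g.1 (γ g.1⁻¹ x) = x := fun x => by
      rw [← RingAut.mul_apply, ← map_mul, mul_inv_cancel, map_one, RingAut.one_apply]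
    simp only [h1, tor_inv, h2]
  map_mul' a b := by simp only [map_mul, tor_mul]
  map_add' a b := by simp only [map_add]
  commutes' r := by
    have h2 : g.1 (g.1⁻¹ r) = r := by
      rw [← RingAut.mul_apply, mul_inv_cancel, RingAut.one_apply]
    rw [Algebra.algebraMap_eq_smul_one, hγ.smul, map_one, map_smul, tor_map_one, hγ.smul, map_one,
      h2]

theorem ctor_apply (h : IsHodgeDec gr n C H) (hγ : IsCoeffAct gr tr C γ) (g : RingAut K × Kˣ)
    (a : A) : ctor h hγ g a = γ g.1 (tor h (g.2 : K) (γ g.1⁻¹ a)) := rfl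

theorem ctor_inv (h : IsHodgeDec gr n C H) (hγ : IsCoeffAct gr tr C γ) (σ : RingAut K) (z : Kˣ) :
    (ctor h hγ (σ, z))⁻¹ = ctor h hγ (σ, z⁻¹) := by
  apply AlgEquiv.ext
  intro a
  rfl

theorem inv_inv_act (σ : RingAut K) (x : A) : γ σ⁻¹ (γ σ x) = x := by
  rw [← RingAut.mul_apply, ← map_mul, inv_mul_cancel, map_one, RingAut.one_apply]

theorem act_inv_act (σ : RingAut K) (x : A) : γ σ (γ σ⁻¹ x) = x := by
  rw [← RingAut.mul_apply, ← map_mul, mul_inv_cancel, map_one, RingAut.one_apply]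

theorem ctor_mul (h : IsHodgeDec gr n C H) (hγ : IsCoeffAct gr tr C γ) (σ : RingAut K)
    (z w : Kˣ) : ctor h hγ (σ, z) * ctor h hγ (σ, w) = ctor h hγ (σ, z * w) := by
  apply AlgEquiv.ext
  intro a
  rw [AlgEquiv.mul_apply, ctor_apply, ctor_apply, ctor_apply, inv_inv_act, tor_tor, Units.val_mul]

theorem ctor_pow (h : IsHodgeDec gr n C H) (hγ : IsCoeffAct gr tr C γ) (σ : RingAut K)
    (z : Kˣ) (m : ℕ) : ctor h hγ (σ, z) ^ m = ctor h hγ (σ, z ^ m) := by
  induction m with
  | zero =>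
    rw [pow_zero, pow_zero]
    apply AlgEquiv.ext
    intro a
    rw [ctor_apply, Units.val_one, tor_one, act_inv_act]
    rfl
  | succ m ih => rw [pow_succ, pow_succ, ih, ctor_mul]

/-- The action of the free group. -/
noncomputable def hact (h : IsHodgeDec gr n C H) (hγ : IsCoeffAct gr tr C γ) :
    FreeGroup (RingAut K × Kˣ) →* (A ≃ₐ[K] A) := FreeGroup.lift (ctor h hγ)

/-- The character of the free group. -/
noncomputable def hchar (K : Type) [Field K] : FreeGroup (RingAut K × Kˣ) →* Kˣ :=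
  FreeGroup.lift fun g => Units.map (g.1 : K →* K) g.2

theorem hact_of (h : IsHodgeDec gr n C H) (hγ : IsCoeffAct gr tr C γ) (g : RingAut K × Kˣ) :
    hact h hγ (FreeGroup.of g) = ctor h hγ g := by
  simp [hact]

theorem hchar_of (g : RingAut K × Kˣ) :
    ((hchar K (FreeGroup.of g) : Kˣ) : K) = g.1 (g.2 : K) := by
  simp [hchar]

/-- Induction. -/
theorem hact_ind (h : IsHodgeDec gr n C H) (hγ : IsCoeffAct gr tr C γ)
    {p : (A ≃ₐ[K] A) → Kˣ → Prop} (h1 : p 1 1)
    (hof : ∀ g : RingAut K × Kˣ, p (ctor h hγ g) (hchar K (FreeGroup.of g)))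
    (hmul : ∀ a b x y, p a x → p b y → p (a * b) (x * y)) (g : FreeGroup (RingAut K × Kˣ)) :
    p (hact h hγ g) (hchar K g) := by
  induction g using FreeGroup.induction_on with
  | C1 => rw [map_one, map_one]; exact h1
  | of x => rw [hact_of]; exact hof x
  | inv_of x _ =>
    have h2 : (FreeGroup.of x)⁻¹ = (FreeGroup.of x)⁻¹ := rfl
    rw [map_inv, map_inv, hact_of]
    obtain ⟨σ, z⟩ := x
    rw [ctor_inv]
    have h3 : (hchar K (FreeGroup.of (σ, z)))⁻¹ = hchar K (FreeGroup.of (σ, z⁻¹)) := by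
      simp [hchar]
    rw [h3]
    exact hof (σ, z⁻¹)
  | mul a b ha hb => rw [map_mul, map_mul]; exact hmul _ _ _ _ ha hb

theorem hact_galois (h : IsHodgeDec gr n C H) (hγ : IsCoeffAct gr tr C γ)
    (hgr : DirectSum.IsInternal gr)
    (htr : ∀ {i : ℕ} {a : A}, a ∈ gr i → i ≠ 2 * n → tr a = 0) :
    IsGaloisAct (hchar K) gr n tr C (hact h hγ) := by
  have hcl : ∀ g j, ∀ c ∈ C j, hact h hγ g c = ((hchar K g : Kˣ) : K) ^ j • c := by
    intro g j c hc
    refine hact_ind h hγ (p := fun ρ x => ρ c = (x : K) ^ j • c) ?_ (fun g => ?_)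
      (fun a b x y ha hb => ?_) g
    · rw [AlgEquiv.one_apply, Units.val_one, one_pow, one_smul]
    · rw [ctor_apply, hγ.cl_act _ _ _ hc, tor_apply h _ (h.cl_mem j c hc), hγ.smul,
        hγ.cl_act _ _ _ hc, hchar_of, map_pow]
    · rw [AlgEquiv.mul_apply, hb, map_smul, ha, smul_smul, Units.val_mul, mul_pow, mul_comm]
  refine ⟨fun g i a ha => ?_, fun g a => ?_, fun g j c hc => ⟨c, hc, hcl g j c hc⟩,
    fun j c hc => ⟨⊤, inferInstance, fun g _ => hcl g j c hc⟩⟩
  · refine hact_ind h hγ (p := fun ρ _ => ∀ a ∈ gr i, ρ a ∈ gr i) (fun a ha => ha)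
      (fun g a ha => ?_) (fun a b x y ha hb c hc => ?_) g a ha
    · rw [ctor_apply]
      exact hγ.gr_mem _ _ _ (tor_gr h hgr _ (hγ.gr_mem _ _ _ ha))
    · rw [AlgEquiv.mul_apply]
      exact ha _ (hb _ hc)
  · refine hact_ind h hγ (p := fun ρ x => ∀ a, tr (ρ a) = (x : K) ^ n * tr a) ?_
      (fun g a => ?_) (fun a b x y ha hb c => ?_) g a
    · intro a
      rw [AlgEquiv.one_apply, Units.val_one, one_pow, one_mul]
    · rw [ctor_apply, hγ.tr_act]
      have h1 : tr (tor h (g.2 : K) (γ g.1⁻¹ a)) = (g.2 : K) ^ n * tr (γ g.1⁻¹ a) := by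
        rw [← one_prj_tr h htr (tor h (g.2 : K) (γ g.1⁻¹ a)), tor, scaleOp_comm, map_smul,
          one_prj_tr h htr, smul_eq_mul]
      have h2 : g.1 (g.1⁻¹ (tr a)) = tr a := by
        rw [← RingAut.mul_apply, mul_inv_cancel, RingAut.one_apply]
      rw [h1, map_mul, hγ.tr_act, h2, hchar_of, map_pow]
    · rw [AlgEquiv.mul_apply, ha, hb, Units.val_mul, mul_pow, mul_assoc]

end Alg

end Pool.Agent.Y132.AH
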