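import Pool.Agent.Y132.AH.HCls
import Pool.Agent.Y132.AH.GDefs

/-!
# Isomorphisms of products, and generation of the cohomology of powers
-/

open CategoryTheory AlgebraicGeometry

set_option linter.unusedSectionVars false

universe u v

namespace Pool.Agent.Y132.AH

open Pool.Agent.H914 Pool.Agent.H914.VarClass Pool.Agent.H914.VarClass.Obj
  Pool.Agent.H914.WeilCohomology Pool.Agent.H281R3.HT Pool.Agent.W552 Pool.Agent.TH125.Gal
  Pool.Agent.Y132.AF

variable {k : Type u} [Field k] {𝒱 : VarClass k} {ops : CycleOps 𝒱}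

theorem prod_hom_ext {A X Y : 𝒱.Obj} {f g : A ⟶ X.prod Y} (h1 : f ≫ fst X Y = g ≫ fst X Y)
    (h2 : f ≫ snd X Y = g ≫ snd X Y) : f = g := by
  apply SmVar.hom_ext (X := A.V) (Y := X.V.prod Y.V)
  exact Limits.pullback.hom_ext (congrArg SmVar.Hom.hom h1) (congrArg SmVar.Hom.hom h2)

/-- The product of two isomorphisms. -/
noncomputable def prodIso {A A' B B' : 𝒱.Obj} (e : A ≅ A') (f : B ≅ B') :
    A.prod B ≅ A'.prod B' where
  hom := Obj.lift (fst A B ≫ e.hom) (snd A B ≫ f.hom)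
  inv := Obj.lift (fst A' B' ≫ e.inv) (snd A' B' ≫ f.inv)
  hom_inv_id := by
    apply prod_hom_ext
    · rw [Category.assoc, lift_fst, lift_fst_assoc, Category.assoc, e.hom_inv_id, Category.comp_id,
        Category.id_comp]
    · rw [Category.assoc, lift_snd, lift_snd_assoc, Category.assoc, f.hom_inv_id, Category.comp_id,
        Category.id_comp]
  inv_hom_id := by
    apply prod_hom_ext
    · rw [Category.assoc, lift_fst, lift_fst_assoc, Category.assoc, e.inv_hom_id, Category.comp_id,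
        Category.id_comp]
    · rw [Category.assoc, lift_snd, lift_snd_assoc, Category.assoc, f.inv_hom_id, Category.comp_id,
        Category.id_comp]

/-- Associativity. -/
noncomputable def assocIso (A B C : 𝒱.Obj) : (A.prod B).prod C ≅ A.prod (B.prod C) where
  hom := Obj.lift (fst (A.prod B) C ≫ fst A B)
    (Obj.lift (fst (A.prod B) C ≫ snd A B) (snd (A.prod B) C))
  inv := Obj.lift (Obj.lift (fst A (B.prod C)) (snd A (B.prod C) ≫ fst B C))
    (snd A (B.prod C) ≫ snd B C)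
  hom_inv_id := by
    apply prod_hom_ext
    · apply prod_hom_ext
      · simp only [Category.assoc, lift_fst, Category.id_comp]
      · simp only [Category.assoc, lift_fst, lift_snd, lift_snd_assoc, Category.id_comp]
    · simp only [Category.assoc, lift_snd, lift_snd_assoc, Category.id_comp]
  inv_hom_id := by
    apply prod_hom_ext
    · simp only [Category.assoc, lift_fst, lift_fst_assoc, Category.id_comp]
    · apply prod_hom_ext
      · simp only [Category.assoc, lift_fst, lift_snd, lift_fst_assoc, Category.id_comp]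
      · simp only [Category.assoc, lift_snd, Category.id_comp]

/-- Exchange. -/
noncomputable def exchIso (A B C : 𝒱.Obj) : A.prod (B.prod C) ≅ B.prod (A.prod C) where
  hom := Obj.lift (snd A (B.prod C) ≫ fst B C) (Obj.lift (fst A (B.prod C))
    (snd A (B.prod C) ≫ snd B C))
  inv := Obj.lift (snd B (A.prod C) ≫ fst A C) (Obj.lift (fst B (A.prod C))
    (snd B (A.prod C) ≫ snd A C))
  hom_inv_id := by
    apply prod_hom_ext
    · simp only [Category.assoc, lift_fst, lift_snd_assoc, Category.id_comp]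
    · apply prod_hom_ext
      · simp only [Category.assoc, lift_fst, lift_snd, Category.id_comp]
      · simp only [Category.assoc, lift_snd, lift_snd_assoc, Category.id_comp]
  inv_hom_id := by
    apply prod_hom_ext
    · simp only [Category.assoc, lift_fst, lift_snd_assoc, Category.id_comp]
    · apply prod_hom_ext
      · simp only [Category.assoc, lift_fst, lift_snd, Category.id_comp]
      · simp only [Category.assoc, lift_snd, lift_snd_assoc, Category.id_comp]

theorem iso_append {ι : Type} (X : ι → 𝒱.Obj) (Z Z' : 𝒱.Obj) (L L' : List ι) :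
    Nonempty ((prodList X Z L).prod (prodList X Z' L') ≅ prodList X (Z.prod Z') (L ++ L')) := by
  induction L with
  | nil =>
    induction L' with
    | nil => exact ⟨Iso.refl _⟩
    | cons i L' ih =>
      obtain ⟨e⟩ := ih
      exact ⟨exchIso Z (X i) (prodList X Z' L') ≪≫ prodIso (Iso.refl (X i)) e⟩
  | cons i L ih =>
    obtain ⟨e⟩ := ih
    exact ⟨assocIso (X i) (prodList X Z L) (prodList X Z' L') ≪≫ prodIso (Iso.refl (X i)) e⟩

/-- Powers of products. -/
theorem iso_pow {ι : Type} (X : ι → 𝒱.Obj) (Z : 𝒱.Obj) (L : List ι) (n : ℕ) :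
    ∃ L' : List ι, Nonempty (powN (prodList X Z L) n ≅ prodList X (powN Z n) L') := by
  induction n with
  | zero => exact ⟨L, ⟨Iso.refl _⟩⟩
  | succ n ih =>
    obtain ⟨L', ⟨e⟩⟩ := ih
    obtain ⟨e'⟩ := iso_append X Z (powN Z n) L L'
    exact ⟨L ++ L', ⟨prodIso (Iso.refl _) e ≪≫ e'⟩⟩

section inj

variable {W : WeilCohomology.{u, 0} ops}

theorem map_fst_inj {A B : 𝒱.Obj} (hB : (1 : W.H B) ≠ 0) {x : W.H A}
    (hx : W.map (fst A B) x = 0) : x = 0 := by
  obtain ⟨b, hb⟩ : ∃ b, W.tr B b ≠ 0 := by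
    by_contra hcon
    push Not at hcon
    exact hB (W.nondeg 1 fun b => hcon _)
  apply W.nondeg
  intro a
  have h1 : W.tr (A.prod B) (W.map (fst A B) (x * a) * W.map (snd A B) b) = 0 := by
    rw [map_mul (W.map (fst A B)), hx, zero_mul, zero_mul, map_zero]
  rw [W.tr_prod] at h1
  exact (mul_eq_zero.1 h1).resolve_right hb

theorem map_snd_inj {A B : 𝒱.Obj} (hA : (1 : W.H A) ≠ 0) {x : W.H B}
    (hx : W.map (snd A B) x = 0) : x = 0 := by
  obtain ⟨b, hb⟩ : ∃ b, W.tr A b ≠ 0 := by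
    by_contra hcon
    push Not at hcon
    exact hA (W.nondeg 1 fun b => hcon _)
  apply W.nondeg
  intro a
  have h1 : W.tr (A.prod B) (W.map (fst A B) b * W.map (snd A B) (x * a)) = 0 := by
    rw [map_mul (W.map (snd A B)), hx, zero_mul, mul_zero, map_zero]
  rw [W.tr_prod] at h1
  exact (mul_eq_zero.1 h1).resolve_left hb

/-- The subspaces induced on a product. -/
def prodFam {A B : 𝒱.Obj} (𝒰 : Set (Submodule W.K (W.H A))) (𝒰' : Set (Submodule W.K (W.H B))) :
    Set (Submodule W.K (W.H (A.prod B))) :=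
  {U | (∃ V ∈ 𝒰, U = V.map (W.map (fst A B)).toLinearMap) ∨
    ∃ V ∈ 𝒰', U = V.map (W.map (snd A B)).toLinearMap}

theorem prodFam_gen {A B : 𝒱.Obj} {𝒰 : Set (Submodule W.K (W.H A))}
    {𝒰' : Set (Submodule W.K (W.H B))}
    (h : Algebra.adjoin W.K (⋃ U ∈ 𝒰, (U : Set (W.H A))) = ⊤)
    (h' : Algebra.adjoin W.K (⋃ U ∈ 𝒰', (U : Set (W.H B))) = ⊤) :
    Algebra.adjoin W.K (⋃ U ∈ prodFam 𝒰 𝒰', (U : Set (W.H (A.prod B)))) = ⊤ := by
  set R := Algebra.adjoin W.K (⋃ U ∈ prodFam 𝒰 𝒰', (U : Set (W.H (A.prod B)))) with hR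
  have h1 : ∀ a : W.H A, W.map (fst A B) a ∈ R := by
    intro a
    have ha : a ∈ Algebra.adjoin W.K (⋃ U ∈ 𝒰, (U : Set (W.H A))) := by
      rw [h]
      exact Algebra.mem_top
    induction ha using Algebra.adjoin_induction with
    | mem x hx =>
      obtain ⟨U, hU, hx⟩ := Set.mem_iUnion₂.1 hx
      exact Algebra.subset_adjoin (Set.mem_iUnion₂.2
        ⟨U.map (W.map (fst A B)).toLinearMap, Or.inl ⟨U, hU, rfl⟩, Submodule.mem_map_of_mem hx⟩)
    | algebraMap r => rw [AlgHom.commutes]; exact R.algebraMap_mem r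
    | add x y _ _ hx hy => rw [map_add]; exact R.add_mem hx hy
    | mul x y _ _ hx hy => rw [map_mul]; exact R.mul_mem hx hy
  have h2 : ∀ b : W.H B, W.map (snd A B) b ∈ R := by
    intro b
    have hb : b ∈ Algebra.adjoin W.K (⋃ U ∈ 𝒰', (U : Set (W.H B))) := by
      rw [h']
      exact Algebra.mem_top
    induction hb using Algebra.adjoin_induction with
    | mem x hx =>
      obtain ⟨U, hU, hx⟩ := Set.mem_iUnion₂.1 hx
      exact Algebra.subset_adjoin (Set.mem_iUnion₂.2
        ⟨U.map (W.map (snd A B)).toLinearMap, Or.inr ⟨U, hU, rfl⟩, Submodule.mem_map_of_mem hx⟩)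
    | algebraMap r => rw [AlgHom.commutes]; exact R.algebraMap_mem r
    | add x y _ _ hx hy => rw [map_add]; exact R.add_mem hx hy
    | mul x y _ _ hx hy => rw [map_mul]; exact R.mul_mem hx hy
  rw [eq_top_iff]
  intro x _
  refine W.kunneth_induction (p := fun x => x ∈ R) ?_ ?_ x
  · intro a b ha hb
    exact R.add_mem ha hb
  · intro i j a _ b _
    exact R.mul_mem (h1 a) (h2 b)

end inj

section width

variable {W : WeilCohomology.{u, 0} ops} (Ψ : HodgeData W)

theorem conjTorus_map {X Y : 𝒱.Obj} (f : X ⟶ Y) (g : RingAut W.K × W.Kˣ) (b : W.H Y) :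
    conjTorus (Ψ.on X) g (W.map f b) = W.map f (conjTorus (Ψ.on Y) g b) := ctor_map Ψ f g b

theorem prj_map {X Y : 𝒱.Obj} (f : X ⟶ Y) (i : ℕ × ℕ) (b : W.H Y) :
    prj (Ψ.isHodgeDec X).isInternal i (W.map f b) =
      W.map f (prj (Ψ.isHodgeDec Y).isInternal i b) := by
  refine int_ind (p := fun b => prj (Ψ.isHodgeDec X).isInternal i (W.map f b) =
    W.map f (prj (Ψ.isHodgeDec Y).isInternal i b)) (Ψ.isHodgeDec Y).isInternal b
    (fun j b hb => ?_) (by simp) fun x y hx hy => ?_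
  · by_cases hij : j = i
    · subst hij
      rw [prj_same _ hb, prj_same _ (Ψ.map_hodge f j b hb)]
    · rw [prj_ne _ hij hb, prj_ne _ hij (Ψ.map_hodge f j b hb), map_zero]
  · rw [map_add, map_add, map_add, map_add, hx, hy]

/-- Types of the image of a subspace. -/
theorem typeOn_map {X Y : 𝒱.Obj} (f : X ⟶ Y) (hf : ∀ x, W.map f x = 0 → x = 0)
    {U : Submodule W.K (W.H Y)} {p q : ℕ}
    (h : TypeOn (Ψ.on X) (U.map (W.map f).toLinearMap) p q) : TypeOn (Ψ.on Y) U p q := by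
  obtain ⟨x, ⟨u, hu, rfl⟩, hxH, hx0⟩ := h
  refine ⟨u, hu, ?_, fun h0 => hx0 (by rw [h0, map_zero])⟩
  refine mem_of_prj (Ψ.isHodgeDec Y).isInternal fun j hj => ?_
  apply hf
  rw [← prj_map]
  exact prj_ne _ (Ne.symm hj) hxH

theorem width_prod {A B : 𝒱.Obj} {N : ℕ} (hA : WidthOn (Ψ.on A) N) (hB : WidthOn (Ψ.on B) N) :
    WidthOn (Ψ.on (A.prod B)) N := by
  obtain ⟨𝒰, h1, h2⟩ := hA
  obtain ⟨𝒰', h1', h2'⟩ := hB
  refine ⟨prodFam 𝒰 𝒰', ⟨?_, prodFam_gen h1.gen h1'.gen⟩, ?_⟩
  · rintro _ (⟨V, hV, rfl⟩ | ⟨V, hV, rfl⟩) g _ ⟨v, hv, rfl⟩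
    · exact ⟨_, h1.stable V hV g v hv, (conjTorus_map Ψ _ g v).symm⟩
    · exact ⟨_, h1'.stable V hV g v hv, (conjTorus_map Ψ _ g v).symm⟩
  · intro U hU
    refine ⟨?_, ?_⟩
    · rcases hU with ⟨V, hV, rfl⟩ | ⟨V, hV, rfl⟩
      · obtain ⟨m, hm⟩ := (h2 V hV).1
        refine ⟨m, ?_⟩
        rintro _ ⟨v, hv, rfl⟩
        exact W.map_mem _ (hm hv)
      · obtain ⟨m, hm⟩ := (h2' V hV).1
        refine ⟨m, ?_⟩
        rintro _ ⟨v, hv, rfl⟩
        exact W.map_mem _ (hm hv)
    revert U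
    by_cases hAB : (1 : W.H (A.prod B)) = 0
    · rintro U - p q p' q' ⟨x, -, -, hx0⟩
      exact absurd (by rw [← one_mul x, hAB, zero_mul]) hx0
    · have hA1 : (1 : W.H A) ≠ 0 := fun h0 => hAB (by
        rw [← map_one (W.map (fst A B)), h0, map_zero])
      have hB1 : (1 : W.H B) ≠ 0 := fun h0 => hAB (by
        rw [← map_one (W.map (snd A B)), h0, map_zero])
      rintro _ (⟨V, hV, rfl⟩ | ⟨V, hV, rfl⟩) p q p' q' h3 h4
      · exact (h2 V hV).2 p q p' q' (typeOn_map Ψ _ (fun x => map_fst_inj hB1) h3)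
          (typeOn_map Ψ _ (fun x => map_fst_inj hB1) h4)
      · exact (h2' V hV).2 p q p' q' (typeOn_map Ψ _ (fun x => map_snd_inj hA1) h3)
          (typeOn_map Ψ _ (fun x => map_snd_inj hA1) h4)

theorem width_pow {Z : 𝒱.Obj} {N : ℕ} (h : WidthOn (Ψ.on Z) N) (n : ℕ) :
    WidthOn (Ψ.on (powN Z n)) N := by
  induction n with
  | zero => exact h
  | succ n ih => exact width_prod Ψ h ih

theorem typeSep_pow {X Z : 𝒱.Obj} (h : TypeSep Ψ X Z) (n : ℕ) : TypeSep Ψ X (powN Z n) := by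
  obtain ⟨N, h1, h2⟩ := h
  exact ⟨N, width_pow Ψ h1 n, h2⟩

end width

section spread

variable {W : WeilCohomology.{u, 0} ops} {Γ : Type} [Group Γ] (G : GaloisData W Γ)

theorem spread_prod {A B : 𝒱.Obj} {ν : Val W.K} {g : Γ} {N : ℚ}
    (hA : SpreadGen ν (G.act A) g N) (hB : SpreadGen ν (G.act B) g N) :
    SpreadGen ν (G.act (A.prod B)) g N := by
  obtain ⟨𝒰, h1, h2⟩ := hA
  obtain ⟨𝒰', h1', h2'⟩ := hB
  refine ⟨prodFam 𝒰 𝒰', ⟨?_, prodFam_gen h1.gen h1'.gen⟩, ?_⟩
  · rintro _ (⟨V, hV, rfl⟩ | ⟨V, hV, rfl⟩) g _ ⟨v, hv, rfl⟩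
    · exact ⟨_, h1.stable V hV g v hv, (G.map _ g v).symm⟩
    · exact ⟨_, h1'.stable V hV g v hv, (G.map _ g v).symm⟩
  · by_cases hAB : (1 : W.H (A.prod B)) = 0
    · rintro U - a b x y - - hx0
      exact absurd (by rw [← one_mul x, hAB, zero_mul]) hx0
    · have hA1 : (1 : W.H A) ≠ 0 := fun h0 => hAB (by
        rw [← map_one (W.map (fst A B)), h0, map_zero])
      have hB1 : (1 : W.H B) ≠ 0 := fun h0 => hAB (by
        rw [← map_one (W.map (snd A B)), h0, map_zero])
      rintro _ (⟨V, hV, rfl⟩ | ⟨V, hV, rfl⟩) a b _ _ ⟨u, hu, rfl⟩ ⟨v, hv, rfl⟩ hu0 hv0 hua hvb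
      · refine h2 V hV a b u v hu hv (fun h0 => hu0 (by rw [h0, map_zero]))
          (fun h0 => hv0 (by rw [h0, map_zero])) ?_ ?_
        · rw [← sub_eq_zero]
          apply map_fst_inj (B := B) hB1
          rw [map_sub, map_smul, ← G.map (fst A B) g u, sub_eq_zero]
          exact hua
        · rw [← sub_eq_zero]
          apply map_fst_inj (B := B) hB1
          rw [map_sub, map_smul, ← G.map (fst A B) g v, sub_eq_zero]
          exact hvb
      · refine h2' V hV a b u v hu hv (fun h0 => hu0 (by rw [h0, map_zero]))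
          (fun h0 => hv0 (by rw [h0, map_zero])) ?_ ?_
        · rw [← sub_eq_zero]
          apply map_snd_inj (A := A) hA1
          rw [map_sub, map_smul, ← G.map (snd A B) g u, sub_eq_zero]
          exact hua
        · rw [← sub_eq_zero]
          apply map_snd_inj (A := A) hA1
          rw [map_sub, map_smul, ← G.map (snd A B) g v, sub_eq_zero]
          exact hvb

theorem spread_pow {Z : 𝒱.Obj} {ν : Val W.K} {g : Γ} {N : ℚ} (h : SpreadGen ν (G.act Z) g N)
    (n : ℕ) : SpreadGen ν (G.act (powN Z n)) g N := by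
  induction n with
  | zero => exact h
  | succ n ih => exact spread_prod G h ih

theorem slopeSep_pow {X Z : 𝒱.Obj} (h : SlopeSep G X Z) (n : ℕ) : SlopeSep G X (powN Z n) := by
  obtain ⟨ν, g, N, h1, h2, h3⟩ := h
  exact ⟨ν, g, N, h1, spread_pow G h2 n, h3⟩

end spread

end Pool.Agent.Y132.AH
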