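import Pool.Agent.Y132.AH.MT

/-!
# Tate classes in a system of classes, for all powers
-/

open CategoryTheory AlgebraicGeometry

set_option linter.unusedSectionVars false

universe u v

namespace Pool.Agent.Y132.AH

open Pool.Agent.H914 Pool.Agent.H914.VarClass Pool.Agent.H914.VarClass.Obj
  Pool.Agent.H914.WeilCohomology Pool.Agent.H281R3.HT Pool.Agent.W552 Pool.Agent.TH125.Gal
  Pool.Agent.Y132.AF

/-- All Tate classes are in the subspace `S`. -/
def TateClsIn {K : Type} [Field K] {A : Type} [Ring A] [Algebra K A] {Γ : Type} [Group Γ]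
    (χ : Γ →* Kˣ) (gr : ℕ → Submodule K A) (ρ : Γ →* (A ≃ₐ[K] A)) (S : Submodule K A) : Prop :=
  ∀ j c, TateCls χ gr ρ j c → c ∈ S

/-- The subspace `S` is closed under products. -/
def MulClosed {K : Type} [Field K] {A : Type} [Ring A] [Algebra K A] (S : Submodule K A) : Prop :=
  ∀ a ∈ S, ∀ b ∈ S, a * b ∈ S

/-- The homomorphism `f` maps the subspace `S` to the subspace `S'`. -/
def MapsTo {K : Type} [Field K] {A : Type} [Ring A] [Algebra K A] {B : Type} [Ring B] [Algebra K B]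
    (f : A →ₗ[K] B) (S : Submodule K A) (S' : Submodule K B) : Prop := ∀ a ∈ S, f a ∈ S'

variable {k : Type u} [Field k] {𝒱 : VarClass k} {ops : CycleOps 𝒱}

/-- A system of classes (for example the linear combinations of algebraic, motivated or absolute
Hodge classes): spaces of cohomology classes on all varieties which contain the algebraic classes
and are closed under products, pull-backs and push-forwards. -/
structure Classes (W : WeilCohomology.{u, 0} ops) where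
  /-- the classes -/
  C : ∀ X : 𝒱.Obj, Submodule W.K (W.H X)
  alg_le : ∀ X, algSpan W X ≤ C X
  mul_mem : ∀ X, MulClosed (C X)
  map_mem : ∀ {X Y : 𝒱.Obj} (f : X ⟶ Y), MapsTo (W.map f).toLinearMap (C Y) (C X)
  push_mem : ∀ {X Y : 𝒱.Obj} (f : X ⟶ Y), MapsTo (W.push f) (C X) (C Y)

/-- The corresponding `ClassSystem`. -/
def Classes.sys {W : WeilCohomology.{u, 0} ops} (𝒞 : Classes W) : ClassSystem W where
  C := 𝒞.C
  alg_le := 𝒞.alg_le
  mul_mem ha hb := 𝒞.mul_mem _ _ ha _ hb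
  map_mem f _ hb := 𝒞.map_mem f _ hb
  push_mem f _ ha := 𝒞.push_mem f _ ha

variable {W : WeilCohomology.{u, 0} ops} {Γ : Type} [Group Γ] (G : GaloisData W Γ)

/-- All Tate classes on `X` belong to the system `𝒞`. -/
def TateOn (𝒞 : Classes W) (X : 𝒱.Obj) : Prop :=
  TateClsIn G.χ (W.gr X) (G.on X).act (𝒞.C X)

theorem tateOn_iff (𝒞 : Classes W) (X : 𝒱.Obj) : TateOn G 𝒞 X ↔ TateIn G 𝒞.sys X := Iff.rfl

/-- All Tate classes on all powers of `X` belong to the system `𝒞`. -/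
def TateOnAll (𝒞 : Classes W) (X : 𝒱.Obj) : Prop := ∀ n, TateOn G 𝒞 (powN X n)

theorem tateIn_iso (𝒞 : ClassSystem W) {A B : 𝒱.Obj} (e : A ≅ B) (h : TateIn G 𝒞 A) :
    TateIn G 𝒞 B := by
  intro j c hc
  have h1 := 𝒞.map_mem e.inv (h j _ (isTate_map G e.hom hc))
  rwa [← W.map_comp, e.inv_hom_id, W.map_id] at h1

theorem tateOnAll_sep [IsAlgClosed W.K] {ι : Type} {X : ι → 𝒱.Obj} (Z : 𝒱.Obj)
    (hX : AdFamily G.χ fun i => G.var (X i)) (𝒞 : Classes W)
    (hsep : ∀ i, SlopeSep G (X i) Z) (L : List ι) :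
    TateOnAll G 𝒞 (prodList X Z L) ↔ TateOnAll G 𝒞 Z := by
  refine forall_congr' fun n => ?_
  rw [tateOn_iff, tateOn_iff]
  obtain ⟨L', ⟨e⟩⟩ := iso_pow X Z L n
  rw [← tate_sep G (powN Z n) hX 𝒞.sys (fun i => slopeSep_pow G (hsep i) n) L']
  exact ⟨fun h => tateIn_iso G _ e h, fun h => tateIn_iso G _ e.symm h⟩

theorem tateOn_iff_sep [IsAlgClosed W.K] {ι : Type} [DecidableEq ι] {X : ι → 𝒱.Obj} (Z : 𝒱.Obj)
    (hO : ∀ i, OddMiddle W (X i)) (hX : BigFamily G X) (𝒞 : Classes W) :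
    ∃ B : Finset ι, ∑ i ∈ B, trDim W (X i) ≤ totDim W Z ∧ (∀ i ∈ B, ¬SlopeSep G (X i) Z) ∧
      ∀ L : List ι, TateOn G 𝒞 (prodList X Z L) ↔
        ∀ L' : List ι, L'.Sublist L → SmallDim W X Z B L' → TateOn G 𝒞 (prodList X Z L') := by
  have hX' := bigFamily_ad G hO hX
  obtain ⟨B, h1, h2, h3⟩ := tate_iff G Z hX' 𝒞.sys
  refine ⟨B, h1, fun i hi h => not_stableBound G h (h2 i hi), fun L => ⟨fun h L' hsub _ => ?_,
    fun h => (h3 L).2 fun L' hsub hs => h L' hsub (small_list G hs)⟩⟩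
  exact (classConj_tate G 𝒞.sys _).1 (class_sub hX' (var_graded G Z) hsub
      (var_tower G X Z L) (var_tower G X Z L') ((classConj_tate G 𝒞.sys _).2 h))

end Pool.Agent.Y132.AH
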