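import Mathlib

/-!
# Rational structures given by the action of the automorphisms of the field
-/

set_option linter.unusedSectionVars false

namespace Pool.Agent.Y132.AH

section fixed

variable {K : Type*} [Field K] [CharZero K]

/-- The translation automorphism of the polynomial ring. -/
noncomputable def shiftE {ι : Type*} (c : ι → ℚ) : MvPolynomial ι ℚ ≃ₐ[ℚ] MvPolynomial ι ℚ :=
  AlgEquiv.ofAlgHom (MvPolynomial.aeval fun i => MvPolynomial.X i + MvPolynomial.C (c i))
    (MvPolynomial.aeval fun i => MvPolynomial.X i - MvPolynomial.C (c i))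
    (by ext i; simp) (by ext i; simp)

theorem eval_shiftE {ι : Type*} (c a : ι → ℚ) (p : MvPolynomial ι ℚ) :
    MvPolynomial.eval a (shiftE c p) = MvPolynomial.eval (fun i => a i + c i) p := by
  change MvPolynomial.eval a (MvPolynomial.aeval
    (fun i => MvPolynomial.X i + MvPolynomial.C (c i)) p) = _
  induction p using MvPolynomial.induction_on with
  | C r => simp
  | add p q hp hq => rw [map_add, map_add, map_add, hp, hq]
  | mul_X p i hp => rw [map_mul, map_mul, map_mul, hp]; simp

/-- Automorphisms of an algebraically closed field. -/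
theorem exists_shift [IsAlgClosed K] {ι : Type*} {v : ι → K}
    (hv : IsTranscendenceBasis ℚ v) (c : ι → ℚ) :
    ∃ σ : K ≃+* K, ∀ p : MvPolynomial ι ℚ,
      σ (MvPolynomial.aeval v p) = MvPolynomial.aeval v (shiftE c p) := by
  have := IsAlgClosed.isAlgClosure_of_transcendence_basis v hv
  let e : Algebra.adjoin ℚ (Set.range v) ≃+* Algebra.adjoin ℚ (Set.range v) :=
    (hv.1.aevalEquiv.symm.trans ((shiftE c).trans hv.1.aevalEquiv)).toRingEquiv
  refine ⟨IsAlgClosure.equivOfEquiv K K e, fun p => ?_⟩
  have h1 := IsAlgClosure.equivOfEquiv_algebraMap K K e (hv.1.aevalEquiv p)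
  have h2 : algebraMap (Algebra.adjoin ℚ (Set.range v)) K (hv.1.aevalEquiv p) =
      MvPolynomial.aeval v p := hv.1.algebraMap_aevalEquiv p
  rw [h2] at h1
  rw [h1]
  have h3 : e (hv.1.aevalEquiv p) = hv.1.aevalEquiv (shiftE c p) := by
    change hv.1.aevalEquiv (shiftE c (hv.1.aevalEquiv.symm (hv.1.aevalEquiv p))) = _
    rw [AlgEquiv.symm_apply_apply]
  rw [h3]
  exact hv.1.algebraMap_aevalEquiv _

/-- **The elements fixed by all automorphisms of an algebraically closed field are rational.** -/
theorem fixed_rat [IsAlgClosed K] {x : K} (h : ∀ σ : K ≃+* K, σ x = x) : ∃ q : ℚ, (q : K) = x := by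
  obtain ⟨s, hs⟩ := exists_isTranscendenceBasis ℚ K
  set v : s → K := Subtype.val with hvdef
  have hv : IsTranscendenceBasis ℚ v := hs
  -- the field generated by the basis
  have halg : Algebra.IsAlgebraic (IntermediateField.adjoin ℚ (Set.range v)) K :=
    hv.isAlgebraic_field
  have : IsGalois (IntermediateField.adjoin ℚ (Set.range v)) K := by
    have : IsAlgClosure (IntermediateField.adjoin ℚ (Set.range v)) K := ⟨inferInstance, halg⟩
    have : Normal (IntermediateField.adjoin ℚ (Set.range v)) K := IsAlgClosure.normal _ _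
    have : Algebra.IsSeparable (IntermediateField.adjoin ℚ (Set.range v)) K := inferInstance
    exact IsGalois.mk
  have hx : x ∈ Set.range (algebraMap (IntermediateField.adjoin ℚ (Set.range v)) K) :=
    (InfiniteGalois.mem_range_algebraMap_iff_fixed x).2 fun f => h f.toRingEquiv
  obtain ⟨⟨y, hy⟩, rfl⟩ := hx
  change ∃ q : ℚ, (q : K) = y
  obtain ⟨f, g, hfg⟩ := (IntermediateField.mem_adjoin_range_iff ℚ v y).1 hy
  by_cases hg : g = 0
  · refine ⟨0, ?_⟩
    rw [hfg, hg, map_zero, div_zero, Rat.cast_zero]
  have hinj : Function.Injective (MvPolynomial.aeval v : MvPolynomial s ℚ →ₐ[ℚ] K) := hv.1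
  have hg' : ∀ p : MvPolynomial s ℚ, p ≠ 0 → MvPolynomial.aeval v p ≠ 0 := fun p hp h0 =>
    hp (hinj (by rw [h0, map_zero]))
  obtain ⟨a, ha⟩ : ∃ a : s → ℚ, MvPolynomial.eval a g ≠ 0 := by
    by_contra hcon
    push Not at hcon
    exact hg (MvPolynomial.funext fun a => by rw [hcon a, map_zero])
  refine ⟨MvPolynomial.eval a f / MvPolynomial.eval a g, ?_⟩
  have key : f = MvPolynomial.C (MvPolynomial.eval a f / MvPolynomial.eval a g) * g := by
    apply MvPolynomial.funext
    intro b
    obtain ⟨σ, hσ⟩ := exists_shift hv (fun i => b i - a i)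
    have h1 := h σ
    change σ y = y at h1
    rw [hfg, map_div₀, hσ, hσ] at h1
    have hsg : shiftE (fun i => b i - a i) g ≠ 0 := by
      intro h0
      exact hg ((shiftE fun i => b i - a i).injective (by rw [h0, map_zero]))
    rw [div_eq_div_iff (hg' _ hsg) (hg' _ hg), ← map_mul, ← map_mul] at h1
    have h2 := congrArg (MvPolynomial.eval a) (hinj h1)
    rw [map_mul, map_mul, eval_shiftE, eval_shiftE] at h2
    have h3 : (fun i => a i + (b i - a i)) = b := by
      funext i
      ring
    rw [h3] at h2
    rw [map_mul, MvPolynomial.eval_C, div_mul_eq_mul_div, eq_div_iff ha, h2]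
  rw [hfg]
  nth_rewrite 2 [key]
  rw [map_mul, MvPolynomial.aeval_C, mul_div_assoc, div_self (hg' _ hg), mul_one]
  rfl

end fixed

section descent

variable {K : Type*} [Field K] {A : Type*} [AddCommGroup A] [Module K A]
  {γ : (K ≃+* K) → A → A}

/-- The vectors fixed by all automorphisms. -/
def fixedSet (γ : (K ≃+* K) → A → A) : Set A := {a | ∀ σ, γ σ a = a}

/-- **Descent.** A subspace which is stable under the semilinear automorphisms is spanned by fixed
vectors. -/
theorem span_fixed_of_stable (hadd : ∀ σ a b, γ σ (a + b) = γ σ a + γ σ b)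
    (hsmul : ∀ σ (r : K) a, γ σ (r • a) = σ r • γ σ a)
    (hspan : Submodule.span K (fixedSet γ) = ⊤) {U : Submodule K A}
    (hU : ∀ σ, ∀ a ∈ U, γ σ a ∈ U) {x : A} (hx : x ∈ U) :
    x ∈ Submodule.span K {a | a ∈ U ∧ ∀ σ, γ σ a = a} := by
  classical
  obtain ⟨b, hb, hbs, hbi⟩ := exists_linearIndependent K (fixedSet γ)
  rw [hspan] at hbs
  let B : Module.Basis b K A := Module.Basis.mk hbi (by rw [Subtype.range_coe]; exact hbs.ge)
  have hBf : ∀ (i : b) σ, γ σ (B i) = B i := fun i σ => by
    have h1 : B i = (i : A) := Module.Basis.mk_apply hbi _ i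
    rw [h1]
    exact hb i.2 σ
  have h0 : ∀ σ, γ σ 0 = 0 := fun σ => by
    have h1 := hsmul σ 0 0
    rwa [zero_smul, map_zero, zero_smul] at h1
  have hsum : ∀ σ (s : Finset b) (f : b → A), γ σ (∑ i ∈ s, f i) = ∑ i ∈ s, γ σ (f i) := by
    intro σ s f
    induction s using Finset.induction_on with
    | empty => simp [h0]
    | insert a s ha ih => rw [Finset.sum_insert ha, Finset.sum_insert ha, hadd, ih]
  have hrepr : ∀ σ y i, B.repr (γ σ y) i = σ (B.repr y i) := by
    intro σ y i
    have h1 : y = ∑ j ∈ (B.repr y).support, B.repr y j • B j := by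
      conv_lhs => rw [← B.linearCombination_repr y]
      rfl
    have h2 : γ σ y = ∑ j ∈ (B.repr y).support, σ (B.repr y j) • B j := by
      conv_lhs => rw [h1]
      rw [hsum]
      exact Finset.sum_congr rfl fun j _ => by rw [hsmul, hBf]
    rw [h2, map_sum, Finsupp.finsetSum_apply]
    simp only [map_smul, Finsupp.smul_apply, Module.Basis.repr_self, smul_eq_mul,
      Finsupp.single_apply, mul_ite, mul_one, mul_zero, Finset.sum_ite_eq', Finsupp.mem_support_iff]
    by_cases hi : B.repr y i = 0
    · simp [hi]
    · simp [hi]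
  -- induction on the support
  have key : ∀ (n : ℕ) (x : A), x ∈ U → (B.repr x).support.card ≤ n →
      x ∈ Submodule.span K {a | a ∈ U ∧ ∀ σ, γ σ a = a} := by
    intro n
    induction n with
    | zero =>
      intro x _ hcard
      have h1 : (B.repr x).support = ∅ := Finset.card_eq_zero.1 (Nat.le_zero.1 hcard)
      have h2 : B.repr x = 0 := Finsupp.support_eq_empty.1 h1
      have h3 : x = 0 := B.repr.injective (by rw [h2, map_zero])
      rw [h3]
      exact Submodule.zero_mem _
    | succ n ih =>
      intro x hxU hcard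
      by_cases hx0 : x = 0
      · rw [hx0]
        exact Submodule.zero_mem _
      -- a nonzero element with minimal support
      have hex : ∃ m, ∃ y ∈ U, y ≠ 0 ∧ (B.repr y).support ⊆ (B.repr x).support ∧
          (B.repr y).support.card = m := ⟨_, x, hxU, hx0, subset_rfl, rfl⟩
      obtain ⟨y, hyU, hy0, hysub, hycard⟩ := Nat.find_spec hex
      have hne : (B.repr y).support.Nonempty := by
        rw [Finsupp.support_nonempty_iff]
        intro h1
        exact hy0 (B.repr.injective (by rw [h1, map_zero]))
      obtain ⟨i, hi⟩ := hne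
      have hi' : B.repr y i ≠ 0 := Finsupp.mem_support_iff.1 hi
      set z : A := (B.repr y i)⁻¹ • y with hz
      have hzi : B.repr z i = 1 := by
        rw [hz, map_smul, Finsupp.smul_apply, smul_eq_mul, inv_mul_cancel₀ hi']
      have hzU : z ∈ U := U.smul_mem _ hyU
      have hzs : (B.repr z).support ⊆ (B.repr y).support := by
        rw [hz, map_smul]
        exact Finsupp.support_smul
      have hfix : ∀ σ, γ σ z = z := by
        intro σ
        by_contra hcon
        have hw0 : γ σ z - z ≠ 0 := sub_ne_zero.2 hcon
        have hws : (B.repr (γ σ z - z)).support ⊆ (B.repr y).support.erase i := by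
          intro j hj
          rw [Finsupp.mem_support_iff, map_sub, Finsupp.sub_apply, hrepr] at hj
          rw [Finset.mem_erase]
          refine ⟨?_, ?_⟩
          · rintro rfl
            rw [hzi, map_one, sub_self] at hj
            exact hj rfl
          · by_contra hjs
            have h1 : B.repr z j = 0 := by
              by_contra h2
              exact hjs (hzs (Finsupp.mem_support_iff.2 h2))
            rw [h1, map_zero, sub_self] at hj
            exact hj rfl
        have hlt : (B.repr (γ σ z - z)).support.card < Nat.find hex := by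
          rw [← hycard]
          refine (Finset.card_le_card hws).trans_lt ?_
          rw [Finset.card_erase_of_mem hi]
          exact Nat.sub_lt (Finset.card_pos.2 ⟨i, hi⟩) one_pos
        exact Nat.find_min hex hlt ⟨_, U.sub_mem (hU σ z hzU) hzU, hw0,
          (hws.trans (Finset.erase_subset _ _)).trans hysub, rfl⟩
      have hx2 : x - B.repr x i • z ∈ Submodule.span K {a | a ∈ U ∧ ∀ σ, γ σ a = a} := by
        refine ih _ (U.sub_mem hxU (U.smul_mem _ hzU)) ?_
        have hs : (B.repr (x - B.repr x i • z)).support ⊆ (B.repr x).support.erase i := by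
          intro j hj
          rw [Finsupp.mem_support_iff, map_sub, Finsupp.sub_apply, map_smul, Finsupp.smul_apply,
            smul_eq_mul] at hj
          rw [Finset.mem_erase]
          refine ⟨?_, ?_⟩
          · rintro rfl
            rw [hzi, mul_one, sub_self] at hj
            exact hj rfl
          · by_contra hjs
            have h1 : B.repr z j = 0 := by
              by_contra h2
              exact hjs (hysub (hzs (Finsupp.mem_support_iff.2 h2)))
            have h2 : B.repr x j = 0 := by
              by_contra h3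
              exact hjs (Finsupp.mem_support_iff.2 h3)
            rw [h1, h2, mul_zero, sub_self] at hj
            exact hj rfl
        have h1 := Finset.card_le_card hs
        rw [Finset.card_erase_of_mem (hysub hi)] at h1
        omega
      have h3 : x = (x - B.repr x i • z) + B.repr x i • z := by abel
      rw [h3]
      exact Submodule.add_mem _ hx2 (Submodule.smul_mem _ _ (Submodule.subset_span ⟨hzU, hfix⟩))
  exact key _ x hx le_rfl

/-- A fixed vector which is a linear combination of fixed vectors is a rational linear combination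
of them. -/
theorem mem_of_mem_span [CharZero K] [IsAlgClosed K]
    (hadd : ∀ σ a b, γ σ (a + b) = γ σ a + γ σ b)
    (hsmul : ∀ σ (r : K) a, γ σ (r • a) = σ r • γ σ a) {S : Set A} (hS : S ⊆ fixedSet γ)
    (hS0 : (0 : A) ∈ S) (hSadd : ∀ a ∈ S, ∀ b ∈ S, a + b ∈ S)
    (hSsmul : ∀ (q : ℚ), ∀ a ∈ S, (q : K) • a ∈ S) {x : A} (hx : ∀ σ, γ σ x = x)
    (hxS : x ∈ Submodule.span K S) : x ∈ S := by
  classical
  obtain ⟨b, hb, hbs, hbi⟩ := exists_linearIndependent K S
  rw [← hbs] at hxS
  have h0 : ∀ σ, γ σ 0 = 0 := fun σ => by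
    have h1 := hsmul σ 0 0
    rwa [zero_smul, map_zero, zero_smul] at h1
  have hsum : ∀ σ (s : Finset b) (f : b → A), γ σ (∑ i ∈ s, f i) = ∑ i ∈ s, γ σ (f i) := by
    intro σ s f
    induction s using Finset.induction_on with
    | empty => simp [h0]
    | insert a s ha ih => rw [Finset.sum_insert ha, Finset.sum_insert ha, hadd, ih]
  obtain ⟨c, hc⟩ := (Finsupp.mem_span_iff_linearCombination K b x).1 hxS
  rw [Finsupp.linearCombination_apply, Finsupp.sum] at hc
  have hrat : ∀ i : b, ∃ q : ℚ, (q : K) = c i := by
    intro i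
    refine fixed_rat fun σ => ?_
    have h1 : ∑ j ∈ c.support, (σ (c j) - c j) • (j : A) = 0 := by
      simp only [sub_smul, Finset.sum_sub_distrib]
      rw [hc, sub_eq_zero]
      conv_rhs => rw [← hx σ, ← hc]
      rw [hsum]
      exact Finset.sum_congr rfl fun j _ => by rw [hsmul, hS (hb j.2) σ]
    have h2 := linearIndependent_iff'.1 hbi c.support (fun j => σ (c j) - c j) h1
    by_cases hi : i ∈ c.support
    · exact sub_eq_zero.1 (h2 i hi)
    · rw [Finsupp.notMem_support_iff.1 hi, map_zero]
  choose q hq using hrat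
  rw [← hc]
  have h3 : ∀ s : Finset b, (∑ j ∈ s, c j • (j : A)) ∈ S := by
    intro s
    induction s using Finset.induction_on with
    | empty => simpa using hS0
    | insert a s ha ih =>
      rw [Finset.sum_insert ha]
      refine hSadd _ ?_ _ ih
      rw [← hq a]
      exact hSsmul _ _ (hb a.2)
  exact h3 _

end descent

end Pool.Agent.Y132.AH
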