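import Pool.Agent.Y132.EP.Goursat

/-!
# The components of the compatible operators in a stable subspace; derivations
-/

set_option linter.unusedSectionVars false

namespace Pool.Agent.Y132.AH

open Module Finset Function Pool.Agent.TH118.SG Pool.Agent.Y132.EP

variable {K : Type} [Field K] {I : Type} {T : I → Type} [∀ i, AddCommGroup (T i)]
  [∀ i, Module K (T i)] {E : Type} [Ring E] [Algebra K E] {Γ : Type} [Group Γ] {J : Type}

/-- `D` is a derivation which preserves the subspaces `gr m`. -/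
def dr (gr : J → Submodule K E) : Submodule K (E →ₗ[K] E) where
  carrier := {D | (∀ x y, D (x * y) = D x * y + x * D y) ∧ ∀ m, ∀ x ∈ gr m, D x ∈ gr m}
  zero_mem' := ⟨fun x y => by simp, fun m x _ => Submodule.zero_mem _⟩
  add_mem' := by
    rintro D D' ⟨h1, h2⟩ ⟨h3, h4⟩
    refine ⟨fun x y => ?_, fun m x hx => Submodule.add_mem _ (h2 m x hx) (h4 m x hx)⟩
    simp only [LinearMap.add_apply, h1, h3, add_mul, mul_add]
    abel
  smul_mem' := by
    rintro r D ⟨h1, h2⟩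
    refine ⟨fun x y => ?_, fun m x hx => Submodule.smul_mem _ r (h2 m x hx)⟩
    simp only [LinearMap.smul_apply, h1, smul_add, smul_mul_assoc, mul_smul_comm]

theorem mem_dr {gr : J → Submodule K E} {D : E →ₗ[K] E} : D ∈ dr gr ↔
    (∀ x y, D (x * y) = D x * y + x * D y) ∧ ∀ m, ∀ x ∈ gr m, D x ∈ gr m := Iff.rfl

variable {χ : Γ →* Kˣ} {w : I → ℕ} {B : ∀ i, T i →ₗ[K] T i →ₗ[K] K}
  {ρ : ∀ i, Γ →* (T i →ₗ[K] T i)} {τ : Γ →* (E →ₗ[K] E)} {gr : J → Submodule K E}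

theorem dr_cj (hτ : ∀ g x y, τ g (x * y) = τ g x * τ g y)
    (hgr : ∀ g m, ∀ x ∈ gr m, τ g x ∈ gr m) {D : E →ₗ[K] E} (hD : D ∈ dr gr) (g : Γ) :
    cj τ g D ∈ dr gr := by
  obtain ⟨h1, h2⟩ := mem_dr.1 hD
  refine mem_dr.2 ⟨fun x y => ?_, fun m x hx => ?_⟩
  · rw [cj_apply, cj_apply, cj_apply, hτ, h1, map_add, hτ, hτ, ginv, ginv]
  · rw [cj_apply]
    exact hgr _ _ _ (h2 _ _ (hgr _ _ _ hx))

/-- The compatible triples whose second component is a derivation. -/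
def DD (χ : Γ →* Kˣ) (w : I → ℕ) (B : ∀ i, T i →ₗ[K] T i →ₗ[K] K)
    (ρ : ∀ i, Γ →* (T i →ₗ[K] T i)) (τ : Γ →* (E →ₗ[K] E)) (gr : J → Submodule K E) :
    Submodule K ((∀ i, T i →ₗ[K] T i) × (E →ₗ[K] E) × K) :=
  GG χ w B ρ τ ⊓ (dr gr).comap (LinearMap.fst K (E →ₗ[K] E) K ∘ₗ
    LinearMap.snd K (∀ i, T i →ₗ[K] T i) ((E →ₗ[K] E) × K))

theorem mem_DD {p : (∀ i, T i →ₗ[K] T i) × (E →ₗ[K] E) × K} :
    p ∈ DD χ w B ρ τ gr ↔ p ∈ GG χ w B ρ τ ∧ p.2.1 ∈ dr gr := Iff.rfl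

theorem DD_conj (hB : ∀ i g x y, B i (ρ i g x) (ρ i g y) = (χ g : K) ^ w i * B i x y)
    (hτ : ∀ g x y, τ g (x * y) = τ g x * τ g y) (hgr : ∀ g m, ∀ x ∈ gr m, τ g x ∈ gr m)
    {p : (∀ i, T i →ₗ[K] T i) × (E →ₗ[K] E) × K} (hp : p ∈ DD χ w B ρ τ gr) (γ : Γ) :
    ((fun i => cj (ρ i) γ (p.1 i), cj τ γ p.2.1, p.2.2) :
      (∀ i, T i →ₗ[K] T i) × (E →ₗ[K] E) × K) ∈ DD χ w B ρ τ gr :=
  mem_DD.2 ⟨GG_conj hB (mem_DD.1 hp).1 γ, dr_cj hτ hgr (mem_DD.1 hp).2 γ⟩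

section

variable [CharZero K] [IsAlgClosed K] [Fintype I] [DecidableEq I]
  [∀ i, FiniteDimensional K (T i)] [FiniteDimensional K E]

/-- The logarithm of a graded automorphism is a derivation. -/
theorem log_dr (hτ : ∀ g x y, τ g (x * y) = τ g x * τ g y)
    (hgr : ∀ g m, ∀ x ∈ gr m, τ g x ∈ gr m) (θ : Additive Kˣ →+ K) (F : Γ)
    {D : E →ₗ[K] E} (hD : ∀ β, ∀ x ∈ Module.End.maxGenEigenspace (τ F) β, D x = ext0 θ β • x) :
    D ∈ dr gr := by
  have hinj : Function.Injective (τ F) := fun x y h => by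
    have h1 := congrArg (τ F⁻¹) h
    rwa [ginv', ginv'] at h1
  have hm : ∀ v : Fin 2 → E, MultilinearMap.mkPiAlgebraFin K 2 E v = v 0 * v 1 := by
    intro v
    rw [MultilinearMap.mkPiAlgebraFin_apply, List.ofFn_succ, List.ofFn_succ, List.ofFn_zero,
      List.prod_cons, List.prod_cons, List.prod_nil, mul_one]
    rfl
  refine mem_dr.2 ⟨fun x y => ?_, fun m x hx => ?_⟩
  · have h1 := deriv_op (S := Fin 2) θ (τ F) hinj (τ F) (Y := D) hD (Y' := D) hD
      (h := MultilinearMap.mkPiAlgebraFin K 2 E) (M := 1) one_pos (fun v => ?_) ![x, y]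
    · rw [Fin.sum_univ_two, hm, hm, hm] at h1
      simpa using h1.symm
    · rw [hm, hm, pow_one]
      exact (hτ F _ _).symm
  · have h1 : gr m = ⨆ μ, gr m ⊓ Module.End.maxGenEigenspace (τ F) μ := by
      have h2 := Submodule.eq_iSup_inf_genEigenspace (p := gr m) (f := τ F) ⊤
        (fun x hx => hgr F m x hx) (Module.End.iSup_maxGenEigenspace_eq_top (τ F))
      exact h2
    rw [h1] at hx
    refine Submodule.iSup_induction _ (motive := fun x => D x ∈ gr m) hx (fun μ x hx => ?_)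
      (by rw [map_zero]; exact Submodule.zero_mem _) fun x y hx hy => ?_
    · rw [hD μ x hx.2]
      exact Submodule.smul_mem _ _ hx.1
    · rw [map_add]
      exact Submodule.add_mem _ hx hy

/-- There is a compatible tuple with nonzero skew component. -/
theorem exists_startD (h : AdFam χ w B ρ) (τ : Γ →* (E →ₗ[K] E))
    (hτ : ∀ g x y, τ g (x * y) = τ g x * τ g y)
    (hgr : ∀ g m, ∀ x ∈ gr m, τ g x ∈ gr m) (i : I) :
    ∃ p ∈ DD χ w B ρ τ gr, p.2.2 = 0 ∧ p.1 i ≠ 0 := by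
  obtain ⟨F, u, v, hu0, hv0, al, be, hu, hv, hab⟩ := h.hyp i
  have hinj : Function.Injective (ρ i F) := fun x y hxy => by
    have h1 := congrArg (ρ i F⁻¹) hxy
    rwa [ginv', ginv'] at h1
  have hal : al ≠ 0 := by
    rintro rfl
    rw [zero_smul] at hu
    exact hu0 (hinj (by rw [hu, map_zero]))
  have hbe : be ≠ 0 := by
    rintro rfl
    rw [zero_smul] at hv
    exact hv0 (hinj (by rw [hv, map_zero]))
  obtain ⟨θ, hθ⟩ := Pool.Agent.TH118.CR.exists_add (Units.mk0 al hal * (Units.mk0 be hbe)⁻¹)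
    (fun k hk h => hab k hk (by
      rw [mul_pow, inv_pow, mul_inv_eq_one] at h
      exact congrArg Units.val h))
  have hθ' : ext0 θ al ≠ ext0 θ be := by
    intro h
    apply hθ
    rw [ofMul_mul, ofMul_inv, map_add, map_neg, ← ext0_ne θ hal, ← ext0_ne θ hbe, h,
      add_neg_cancel]
  choose Y hY using fun j => exists_op (ρ j F) (ext0 θ)
  obtain ⟨D, hD⟩ := exists_op (τ F) (ext0 θ)
  have hp' := log_mem h.form θ F hY hD
  have hp : ((Y, D, ext0 θ (χ F)) : (∀ i, T i →ₗ[K] T i) × (E →ₗ[K] E) × K) ∈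
    DD χ w B ρ τ gr := mem_DD.2 ⟨hp', log_dr hτ hgr θ F hD⟩
  set p : (∀ i, T i →ₗ[K] T i) × (E →ₗ[K] E) × K := (Y, D, ext0 θ (χ F)) with hpdef
  by_contra hcon
  push Not at hcon
  -- the component is invariant
  have h1 : ∀ g, cj (ρ i) g (Y i) = Y i := by
    intro g
    have h2 := Submodule.sub_mem _ (DD_conj h.form hτ hgr hp g) hp
    have h3 := hcon _ h2 (by simp [hpdef])
    exact sub_eq_zero.1 h3
  -- subtract a scalar
  set y : K := ext0 θ (χ F) with hy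
  have h2 : Y i - ((w i : K) * y / 2) • (LinearMap.id : T i →ₗ[K] T i) ∈ sk (B i) := by
    intro a b
    have h3 := hp.1.1 i a b
    simp only [LinearMap.sub_apply, LinearMap.smul_apply, LinearMap.id_apply, map_sub, map_smul,
      smul_eq_mul]
    linear_combination h3
  have h3 := h.inv i _ h2 (fun g => by
    rw [cj_sub, h1, cj_smul]
    congr 2
    ext x
    rw [cj_apply, LinearMap.id_apply, LinearMap.id_apply, ginv])
  have h4 : ∀ x, Y i x = ((w i : K) * y / 2) • x := by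
    intro x
    have h5 := congrArg (fun f => f x) h3
    simp only [LinearMap.sub_apply, LinearMap.smul_apply, LinearMap.id_apply,
      LinearMap.zero_apply] at h5
    exact sub_eq_zero.1 h5
  apply hθ'
  have hgen : ∀ (w : T i) (α : K), ρ i F w = α • w →
      w ∈ Module.End.maxGenEigenspace (ρ i F) α := by
    intro w α h
    refine mem_gen.2 ⟨1, ?_⟩
    rw [pow_one, LinearMap.sub_apply, h, Module.algebraMap_end_apply, sub_self]
  have h5 := hY i al u (hgen u al hu)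
  have h6 := hY i be v (hgen v be hv)
  rw [h4] at h5 h6
  have h7 : ((w i : K) * y / 2) = ext0 θ al := by
    have h8 : ((w i : K) * y / 2 - ext0 θ al) • u = 0 := by rw [sub_smul, h5, sub_self]
    exact sub_eq_zero.1 ((smul_eq_zero.1 h8).resolve_right hu0)
  have h8 : ((w i : K) * y / 2) = ext0 θ be := by
    have h9 : ((w i : K) * y / 2 - ext0 θ be) • v = 0 := by rw [sub_smul, h6, sub_self]
    exact sub_eq_zero.1 ((smul_eq_zero.1 h9).resolve_right hv0)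
  rw [← h7, ← h8]

/-- The elements of the submodule `P` supported in a set and with last component zero. -/
def PS (P : Submodule K ((∀ i, T i →ₗ[K] T i) × (E →ₗ[K] E) × K)) (Φ : Set I) :
    Submodule K ((∀ i, T i →ₗ[K] T i) × (E →ₗ[K] E) × K) where
  carrier := {p | p ∈ P ∧ p.2.2 = 0 ∧ ∀ j, j ∉ Φ → p.1 j = 0}
  zero_mem' := ⟨Submodule.zero_mem _, rfl, fun _ _ => rfl⟩
  add_mem' := by
    rintro p q ⟨hp, hp0, hp'⟩ ⟨hq, hq0, hq'⟩
    refine ⟨Submodule.add_mem _ hp hq, ?_, fun j hj => ?_⟩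
    · change p.2.2 + q.2.2 = 0
      rw [hp0, hq0, add_zero]
    · change p.1 j + q.1 j = 0
      rw [hp' j hj, hq' j hj, add_zero]
  smul_mem' := by
    rintro r p ⟨hp, hp0, hp'⟩
    refine ⟨Submodule.smul_mem _ r hp, ?_, fun j hj => ?_⟩
    · change r * p.2.2 = 0
      rw [hp0, mul_zero]
    · change r • p.1 j = 0
      rw [hp' j hj, smul_zero]

/-- **The components are independent**, for a stable space of compatible tuples. -/
theorem exists_single' (h : AdFam χ w B ρ)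
    {P₀ : Submodule K ((∀ i, T i →ₗ[K] T i) × (E →ₗ[K] E) × K)} (hP₀ : P₀ ≤ GG χ w B ρ τ)
    (hst₀ : ∀ p ∈ P₀, ∀ γ : Γ, ((fun i => cj (ρ i) γ (p.1 i), cj τ γ p.2.1, p.2.2) :
      (∀ i, T i →ₗ[K] T i) × (E →ₗ[K] E) × K) ∈ P₀) (i : I)
    (hstart : ∃ p ∈ P₀, p.2.2 = 0 ∧ p.1 i ≠ 0) {A : T i →ₗ[K] T i}
    (hA : A ∈ sk (B i)) : ∃ D : E →ₗ[K] E, ((Pi.single i A, D, 0) :
      (∀ i, T i →ₗ[K] T i) × (E →ₗ[K] E) × K) ∈ P₀ := by
  classical
  have hPS : ∀ {Φ : Set I} {p : (∀ i, T i →ₗ[K] T i) × (E →ₗ[K] E) × K}, p ∈ PS P₀ Φ →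
      ∀ γ : Γ, ((fun i => cj (ρ i) γ (p.1 i), cj τ γ p.2.1, p.2.2) :
      (∀ i, T i →ₗ[K] T i) × (E →ₗ[K] E) × K) ∈ PS P₀ Φ := by
    rintro Φ p ⟨h1, h2, h3⟩ γ
    refine ⟨hst₀ _ h1 γ, h2, fun j hj => ?_⟩
    change cj (ρ j) γ (p.1 j) = 0
    rw [h3 j hj, cj_zero]
  -- a minimal support
  have hex : ∃ N : ℕ, ∃ Φ : Finset I, Φ.card = N ∧
      ∃ p ∈ PS P₀ (Φ : Set I), p.1 i ≠ 0 := by
    obtain ⟨p, hp, hp0, hpi⟩ := hstart
    exact ⟨_, univ, rfl, p, ⟨hp, hp0, fun j hj => absurd (mem_coe.2 (mem_univ j)) hj⟩, hpi⟩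
  obtain ⟨Φ, hΦ, p, hp, hpi⟩ := Nat.find_spec hex
  have hmin : ∀ j ∈ Φ, ∀ q ∈ PS P₀ (Φ : Set I), q.1 j = 0 → q.1 i = 0 := by
    intro j hj q hq hqj
    by_contra hqi
    refine Nat.find_min hex (m := (Φ.erase j).card) ?_ ⟨Φ.erase j, rfl, q, ⟨hq.1, hq.2.1, ?_⟩, hqi⟩
    · rw [← hΦ]
      exact Finset.card_erase_lt_of_mem hj
    · intro l hl
      by_cases hlj : l = j
      · rw [hlj, hqj]
      · exact hq.2.2 l fun hl' => hl (by
          rw [mem_coe, mem_erase]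
          exact ⟨hlj, hl'⟩)
  have hiΦ : i ∈ Φ := by
    by_contra hi
    exact hpi (hp.2.2 i (by simpa using hi))
  have hst : ∀ p ∈ PS P₀ (Φ : Set I), ∀ γ : Γ,
      ((fun i => cj (ρ i) γ (p.1 i), cj τ γ p.2.1, p.2.2) :
      (∀ i, T i →ₗ[K] T i) × (E →ₗ[K] E) × K) ∈ PS P₀ (Φ : Set I) :=
    fun p hp γ => hPS hp γ
  -- the support is `{i}`
  have hΦi : ∀ j ∈ Φ, j = i := by
    intro j hj
    by_contra hji
    have hstar : ∀ q ∈ PS P₀ (Φ : Set I), q.1 i = 0 → q.1 j = 0 := by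
      intro q₀ hq₀ hq₀i
      by_contra hq₀j
      let P := PS P₀ (Φ : Set I) ⊓ LinearMap.ker
        (LinearMap.proj i ∘ₗ LinearMap.fst K (∀ i, T i →ₗ[K] T i) ((E →ₗ[K] E) × K))
      have hPm : ∀ q, q ∈ P ↔ q ∈ PS P₀ (Φ : Set I) ∧ q.1 i = 0 := fun q => Iff.rfl
      obtain ⟨q, hq, hqj⟩ := full_comp h (i := j) (P := P)
        (fun q hq => hP₀ ((hPm q).1 hq).1.1) (fun q hq => ((hPm q).1 hq).1.2.1)
        (fun q hq γ => (hPm _).2 ⟨hst q ((hPm q).1 hq).1 γ, by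
          change cj (ρ i) γ (q.1 i) = 0
          rw [((hPm q).1 hq).2, cj_zero]⟩) ⟨q₀, (hPm _).2 ⟨hq₀, hq₀i⟩, hq₀j⟩
        (skew_of_GG (hP₀ hp.1) hp.2.1 j)
      obtain ⟨hq1, hq2⟩ := (hPm q).1 hq
      have h1 := hmin j hj (p - q) (Submodule.sub_mem _ hp hq1) (by
        change p.1 j - q.1 j = 0
        rw [hqj, sub_self])
      apply hpi
      have h2 : p.1 i - q.1 i = 0 := h1
      rwa [hq2, sub_zero] at h2
    have hpj : p.1 j ≠ 0 := fun hpj => hpi (hmin j hj p hp hpj)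
    have hfi : ∀ A : sk (B i), ∃ q ∈ PS P₀ (Φ : Set I), q.1 i = A := fun A =>
      full_comp h (P := PS P₀ (Φ : Set I)) (fun q hq => hP₀ hq.1) (fun q hq => hq.2.1) hst
        ⟨p, hp, hpi⟩ A.2
    have hfj : ∀ A : sk (B j), ∃ q ∈ PS P₀ (Φ : Set I), q.1 j = A := fun A =>
      full_comp h (P := PS P₀ (Φ : Set I)) (fun q hq => hP₀ hq.1) (fun q hq => hq.2.1) hst
        ⟨p, hp, hpj⟩ A.2
    choose q hq hqi using hfi
    have huniq : ∀ r ∈ PS P₀ (Φ : Set I), ∀ r' ∈ PS P₀ (Φ : Set I),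
        r.1 i = r'.1 i → r.1 j = r'.1 j := by
      intro r hr r' hr' hrr
      have h1 := hstar (r - r') (Submodule.sub_mem _ hr hr') (by
        change r.1 i - r'.1 i = 0
        rw [hrr, sub_self])
      exact sub_eq_zero.1 h1
    have huniq' : ∀ r ∈ PS P₀ (Φ : Set I), ∀ r' ∈ PS P₀ (Φ : Set I),
        r.1 j = r'.1 j → r.1 i = r'.1 i := by
      intro r hr r' hr' hrr
      have h1 := hmin j hj (r - r') (Submodule.sub_mem _ hr hr') (by
        change r.1 j - r'.1 j = 0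
        rw [hrr, sub_self])
      exact sub_eq_zero.1 h1
    let f : sk (B i) →ₗ[K] sk (B j) :=
      { toFun := fun A => ⟨(q A).1 j, skew_of_GG (hP₀ (hq A).1) (hq A).2.1 j⟩
        map_add' := fun A A' => Subtype.ext (huniq _ (hq _) (q A + q A')
          (Submodule.add_mem _ (hq A) (hq A')) (by
            rw [hqi]
            change (A : T i →ₗ[K] T i) + A' = (q A).1 i + (q A').1 i
            rw [hqi, hqi]))
        map_smul' := fun r A => Subtype.ext (huniq _ (hq _) (r • q A)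
          (Submodule.smul_mem _ r (hq A)) (by
            rw [hqi]
            change r • (A : T i →ₗ[K] T i) = r • (q A).1 i
            rw [hqi])) }
    have hf : ∀ A, (f A : T j →ₗ[K] T j) = (q A).1 j := fun A => rfl
    have hbij : Function.Bijective f := by
      constructor
      · intro A A' hAA
        have h1 := congrArg Subtype.val hAA
        have h2 := huniq' _ (hq A) _ (hq A') h1
        rw [hqi, hqi] at h2
        exact Subtype.ext h2
      · intro A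
        obtain ⟨r, hr, hrj⟩ := hfj A
        refine ⟨⟨r.1 i, skew_of_GG (hP₀ hr.1) hr.2.1 i⟩, Subtype.ext ?_⟩
        rw [hf, huniq _ (hq _) r hr (hqi _), hrj]
    refine h.iso i j (Ne.symm hji) ⟨LinearEquiv.ofBijective f hbij, fun g A A' hAA => ?_⟩
    change (q A').1 j = cj (ρ j) g ((q A).1 j)
    exact huniq _ (hq A') _ (hst _ (hq A) g) (by
      rw [hqi, hAA]
      change _ = cj (ρ i) g ((q A).1 i)
      rw [hqi])
  obtain ⟨q, hq, hqi⟩ := full_comp h (P := PS P₀ (Φ : Set I)) (fun q hq => hP₀ hq.1)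
    (fun q hq => hq.2.1) hst ⟨p, hp, hpi⟩ hA
  refine ⟨q.2.1, ?_⟩
  have h1 : q = (Pi.single i A, q.2.1, 0) := by
    refine Prod.ext (funext fun j => ?_) (Prod.ext rfl hq.2.1)
    by_cases hj : j = i
    · subst hj
      rw [hqi]
      simp
    · have h2 := hq.2.2 j fun hj' => hj (hΦi j hj')
      rw [h2]
      simp [Pi.single_eq_of_ne hj]
  rw [← h1]
  exact hq.1

/-- Every skew operator on `T i` is accompanied by a graded derivation. -/
theorem exists_der (h : AdFam χ w B ρ) (τ : Γ →* (E →ₗ[K] E))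
    (hτ : ∀ g x y, τ g (x * y) = τ g x * τ g y)
    (hgr : ∀ g m, ∀ x ∈ gr m, τ g x ∈ gr m) (i : I) {A : T i →ₗ[K] T i}
    (hA : A ∈ sk (B i)) : ∃ D : E →ₗ[K] E, ((Pi.single i A, D, 0) :
      (∀ i, T i →ₗ[K] T i) × (E →ₗ[K] E) × K) ∈ DD χ w B ρ τ gr :=
  exists_single' h inf_le_left (fun _ hp γ => DD_conj h.form hτ hgr hp γ) i
    (exists_startD h τ hτ hgr i) hA

end

end Pool.Agent.Y132.AH
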