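import Pool.Agent.Y132.AF.Main
import Pool.Agent.Y132.AH.Crit

/-!
# Systems of classes
-/

open CategoryTheory AlgebraicGeometry Finset Function
open Pool.Agent.Y132.EP (DG tow)

set_option linter.unusedSectionVars false

universe u v w

namespace Pool.Agent.Y132.AH

open Pool.Agent.H914 Pool.Agent.H914.VarClass Pool.Agent.H914.VarClass.Obj
  Pool.Agent.H914.WeilCohomology Pool.Agent.H281R3.HT Pool.Agent.W552 Pool.Agent.TH125.Gal
  Pool.Agent.Y132.AF

variable {k : Type u} [Field k] {𝒱 : VarClass k} {ops : CycleOps 𝒱}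

/-- A system of classes (for example the linear combinations of algebraic, motivated or absolute
Hodge classes): spaces of cohomology classes on all varieties which contain the algebraic classes
and are closed under products, pull-backs and push-forwards. -/
structure ClassSystem (W : WeilCohomology.{u, v} ops) where
  /-- the classes -/
  C : ∀ X : 𝒱.Obj, Submodule W.K (W.H X)
  alg_le : ∀ X, algSpan W X ≤ C X
  mul_mem : ∀ {X : 𝒱.Obj} {a b : W.H X}, a ∈ C X → b ∈ C X → a * b ∈ C X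
  map_mem : ∀ {X Y : 𝒱.Obj} (f : X ⟶ Y) {b : W.H Y}, b ∈ C Y → W.map f b ∈ C X
  push_mem : ∀ {X Y : 𝒱.Obj} (f : X ⟶ Y) {a : W.H X}, a ∈ C X → W.push f a ∈ C Y

/-- All elements of `H^(2j)(X)` which are multiplied by `χ g ^ j` by all `g` in a subgroup of
finite index belong to the system. -/
def ClassConj {W : WeilCohomology.{u, v} ops} {Γ : Type w} [Group Γ] (χ : Γ →* W.Kˣ)
    (𝒞 : ClassSystem W) (X : GVar W Γ) : Prop :=
  ∀ j, ∀ c ∈ W.gr X.X (2 * j), (∃ Δ : Subgroup Γ, Δ.FiniteIndex ∧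
    ∀ g ∈ Δ, X.act g c = (χ g : W.K) ^ j • c) → c ∈ 𝒞.C X.X

section sub

variable {W : WeilCohomology.{u, v} ops} {Γ : Type w} [Group Γ] {ι : Type} {Λ : Type}
  {χ : Γ →* W.Kˣ} {X : ι → DG W Γ} {c : Λ → ι} {Z : DG W Γ} {𝒞 : ClassSystem W}

open Pool.Agent.Y132.EP (EqIso)

theorem EqIso_class {A B : DG W Γ} (h : EqIso A B) (hT : ClassConj χ 𝒞 A.toGVar) :
    ClassConj χ 𝒞 B.toGVar := by
  obtain ⟨r, s, h1, h2⟩ := h
  intro j b hb ⟨Δ, hΔ, hact⟩
  have h3 := hT j (W.map r b) (W.map_mem _ hb) ⟨Δ, hΔ, fun g hg => by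
    rw [h1, hact g hg, map_smul]⟩
  have h4 : W.map s (W.map r b) ∈ 𝒞.C B.X := 𝒞.map_mem s h3
  rwa [h2] at h4

/-- The conjecture for a product implies it for the second factor. -/
theorem class_drop {A B : DG W Γ} (hDX : HomEqNum W A.X) (h1 : (1 : W.H A.X) ≠ 0)
    (hT : ClassConj χ 𝒞 (A.prod B).toGVar) : ClassConj χ 𝒞 B.toGVar := by
  intro j b hb ⟨Δ, hΔ, hact⟩
  have h2 := hT j (W.map (snd A.X B.X) b) (W.map_mem _ hb) ⟨Δ, hΔ, fun g hg => by
    rw [DG.act_snd, hact g hg, map_smul]⟩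
  obtain ⟨a, ha, ha0⟩ := exists_pt hDX h1
  have h3 : W.push (snd A.X B.X) (W.map (fst A.X B.X) a * W.map (snd A.X B.X) b) ∈ 𝒞.C B.X :=
    𝒞.push_mem _ (𝒞.mul_mem (𝒞.map_mem _ (𝒞.alg_le _ (alg_mem ha))) h2)
  rw [W.push_snd] at h3
  have h4 := Submodule.smul_mem _ (W.tr A.X a)⁻¹ h3
  rwa [smul_smul, inv_mul_cancel₀ ha0, one_smul] at h4

theorem class_append (hDX : ∀ i, HomEqNum W (X i).X) (h1 : ∀ i, (1 : W.H (X i).X) ≠ 0)
    {l l' : List Λ} (hT : ClassConj χ 𝒞 (tow X Z c (l ++ l')).toGVar) :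
    ClassConj χ 𝒞 (tow X Z c l').toGVar := by
  induction l with
  | nil => exact hT
  | cons s l ih => exact ih (class_drop (hDX (c s)) (h1 (c s)) hT)

/-- **The conjecture for a product implies it for all subproducts.** -/
theorem class_sublist (hDX : ∀ i, HomEqNum W (X i).X) (h1 : ∀ i, (1 : W.H (X i).X) ≠ 0)
    {l l' : List Λ} (h : l'.Sublist l) (hT : ClassConj χ 𝒞 (tow X Z c l).toGVar) :
    ClassConj χ 𝒞 (tow X Z c l').toGVar := by
  obtain ⟨l'', hl⟩ := h.exists_perm_append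
  exact class_append hDX h1 (EqIso_class (EqIso.perm (hl.trans List.perm_append_comm)) hT)

end sub

variable {W : WeilCohomology.{u, 0} ops} {Γ : Type} [Group Γ] {ι Λ : Type} [DecidableEq Λ] {κ : ℕ}
  {χ : Γ →* W.Kˣ} {X : ι → DG W Γ} {c : Λ → ι} {f : ∀ i, SFrame κ (X i).X W}
  {𝒞 : ClassSystem W}

/-- All Tate functions give classes in the system. -/
def StC (χ : Γ →* W.Kˣ) (𝒞 : ClassSystem W) (X : ι → DG W Γ) (c : Λ → ι)
    (f : ∀ i, SFrame κ (X i).X W) (B : DG W Γ) (l : List Λ) : Prop :=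
  ∀ m j F, IsT χ X c f B l m j F → asm X c f B l F ∈ 𝒞.C (tow X B c l).X

theorem StC.of_class {B : DG W Γ} (hX : ∀ i g, ∀ t ∈ transcendental W (X i).X,
    (X i).act g t ∈ transcendental W (X i).X)
    (hmid : ∀ i, transcendental W (X i).X ≤ W.gr (X i).X (X i).X.dim) {l : List Λ}
    (hl : l.Nodup) (hT : ClassConj χ 𝒞 (tow X B c l).toGVar) : StC χ 𝒞 X c f B l := by
  intro m j F hF
  obtain ⟨Δ, hΔ, hact⟩ := hF.act
  have h1 := asm_gr (c := c) (f := f) hmid l F hF.gr
  rw [hF.deg] at h1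
  exact hT j _ h1 ⟨Δ, hΔ, fun g hg => by
    rw [asm_act hX g hl F, hact g hg, asm_smul]⟩

theorem StC.class {B : DG W Γ} (h : StC χ 𝒞 X c f B []) : ClassConj χ 𝒞 B.toGVar := by
  intro j x hx ⟨Δ, hΔ, hact⟩
  exact h (2 * j) j (fun _ => x) ⟨fun _ _ _ => rfl, fun _ => hx, by simp [dsum], Δ, hΔ,
    fun g hg => funext fun J => hact g hg⟩

/-- **The recursion.** -/
theorem StC.step (hG : ∀ i, IsGalois W χ (X i).X (X i).act)
    (hmid : ∀ i, transcendental W (X i).X ≤ W.gr (X i).X (X i).X.dim) {B : DG W Γ} {s : Λ}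
    {l : List Λ} (hs : s ∉ l) (h1 : StC χ 𝒞 X c f B l) (h2 : StC χ 𝒞 X c f B (l ++ [s])) :
    StC χ 𝒞 X c f ((X (c s)).prod B) l := by
  intro m j F hF
  obtain ⟨Δ, hΔ, hact⟩ := hF.act
  obtain ⟨Δ', hΔ', hfix⟩ := exists_fix (hG (c s)) (f (c s)).s
  have hX : ∀ g, ∀ t ∈ transcendental W (X (c s)).X, (X (c s)).act g t ∈
    transcendental W (X (c s)).X := fun g t ht => act_trans (hG (c s)) g ht
  have hdecJ : ∀ J, F J = (∑ n, W.map (fst (X (c s)).X B.X) ((f (c s)).s.bC n : W.H (X (c s)).X) *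
      W.map (snd (X (c s)).X B.X) ((f (c s)).cC B.X n (F J))) +
      ∑ a, W.map (fst (X (c s)).X B.X) ((f (c s)).t a) *
        W.map (snd (X (c s)).X B.X) ((f (c s)).cT B.X a (F J)) := fun J =>
    (f (c s)).expand_prod B.X (F J)
  have hdec : F = (∑ n, fun J => W.map (fst (X (c s)).X B.X) ((f (c s)).s.bC n : W.H (X (c s)).X) *
      W.map (snd (X (c s)).X B.X) ((f (c s)).cC B.X n (F J))) +
      fun J => ∑ a, W.map (fst (X (c s)).X B.X) ((f (c s)).t a) *
        W.map (snd (X (c s)).X B.X) ((f (c s)).cT B.X a (F J)) := by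
    funext J
    rw [Pi.add_apply, Finset.sum_apply]
    exact hdecJ J
  have hactC : ∀ g ∈ Δ', ∀ n y, (f (c s)).cC B.X n (((X (c s)).prod B).act g y) =
      (χ g : W.K) ^ (f (c s)).s.jC n • B.act g ((f (c s)).cC B.X n y) := by
    intro g hg n y
    rw [act_coords (f (c s)) (hX g) (hfix g hg) y]
    exact cC_sum _ _ _ n
  have hactT : ∀ g ∈ Δ', ∀ b y, (f (c s)).cT B.X b (((X (c s)).prod B).act g y) =
      ∑ a, bil W (X (c s)).X ((f (c s)).u b) ((X (c s)).act g ((f (c s)).t a)) •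
        B.act g ((f (c s)).cT B.X a y) := by
    intro g hg b y
    by_cases hb : (b.2 : ℕ) < (f (c s)).g
    · rw [act_coords (f (c s)) (hX g) (hfix g hg) y]
      exact cT_sum _ _ _ b hb
    · rw [cT_off _ (not_lt.1 hb), (f (c s)).u_off (not_lt.1 hb)]
      simp
  have hasm : asm X c f ((X (c s)).prod B) l F = (∑ n, asm X c f ((X (c s)).prod B) l fun J =>
      W.map (fst (X (c s)).X B.X) ((f (c s)).s.bC n : W.H (X (c s)).X) *
      W.map (snd (X (c s)).X B.X) ((f (c s)).cC B.X n (F J))) +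
      asm X c f ((X (c s)).prod B) l fun J => ∑ a, W.map (fst (X (c s)).X B.X) ((f (c s)).t a) *
        W.map (snd (X (c s)).X B.X) ((f (c s)).cT B.X a (F J)) := by
    conv_lhs => rw [hdec]
    rw [asm_add, asm_sum]
  rw [hasm]
  refine Submodule.add_mem _ (Submodule.sum_mem _ fun n _ => ?_) ?_
  · obtain ⟨w, v, h⟩ := asm_fst (A := X (c s)) (B := B) (c := c) (f := f) l
    rw [h _ ((f (c s)).s.bC n).2 fun J => (f (c s)).cC B.X n (F J)]
    refine 𝒞.mul_mem (𝒞.map_mem _ (𝒞.alg_le _ ((f (c s)).s.bC n).2)) (𝒞.map_mem _ ?_)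
    by_cases hn : 2 * (f (c s)).s.jC n ≤ m
    · refine h1 (m - 2 * (f (c s)).s.jC n) (j - (f (c s)).s.jC n) _
        ⟨fun J J' hJ => by rw [hF.dep J J' hJ],
          fun J => (cC_gr (f (c s)) (hmid (c s)) (hF.gr J) n).1 hn, ?_,
          Δ ⊓ Δ', inferInstance, fun g hg => ?_⟩
      · have := hF.deg
        omega
      · have hχ : (χ g : W.K) ≠ 0 := Units.ne_zero _
        have e1 : (fun J => B.act g ((f (c s)).cC B.X n (F J))) = fun J =>
            (((χ g : W.K) ^ (f (c s)).s.jC n)⁻¹ • (f (c s)).cC B.X n)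
              (((X (c s)).prod B).act g (F J)) := by
          funext J
          rw [LinearMap.smul_apply, hactC g hg.2, smul_smul,
            inv_mul_cancel₀ (pow_ne_zero _ hχ), one_smul]
        rw [e1]
        have e2 := SL_lin (Nm X c f g) (l := l) (fun _ => ((χ g : W.K) ^ (f (c s)).s.jC n)⁻¹ •
          (f (c s)).cC B.X n) (fun _ _ _ _ => rfl) fun J => ((X (c s)).prod B).act g (F J)
        rw [e2, hact g hg.1]
        funext J
        rw [Pi.smul_apply, Pi.smul_apply, LinearMap.smul_apply, map_smul, smul_smul]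
        congr 1
        have e3 : j = (j - (f (c s)).s.jC n) + (f (c s)).s.jC n := by
          have := hF.deg
          omega
        conv_lhs => rw [e3, pow_add]
        rw [mul_comm ((χ g : W.K) ^ (j - (f (c s)).s.jC n)), ← mul_assoc,
          inv_mul_cancel₀ (pow_ne_zero _ hχ), one_mul]
    · have e1 : (fun J => (f (c s)).cC B.X n (F J)) = 0 := by
        funext J
        exact (cC_gr (f (c s)) (hmid (c s)) (hF.gr J) n).2 hn
      rw [e1, asm_zero]
      exact Submodule.zero_mem _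
  · obtain ⟨r, h⟩ := asm_snoc (X := X) (B := B) (c := c) (f := f) hs
    have hindep : ∀ J b, F (update J s b) = F J := by
      intro J b
      refine hF.dep _ _ fun t ht => ?_
      rw [update_of_ne]
      rintro rfl
      exact hs ht
    have e0 : (fun J => ∑ a, W.map (fst (X (c s)).X B.X) ((f (c s)).t a) *
        W.map (snd (X (c s)).X B.X) ((f (c s)).cT B.X a (F J))) = fun J => ∑ a,
        W.map (fst (X (c s)).X B.X) ((f (c s)).t a) * W.map (snd (X (c s)).X B.X)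
          ((fun J => (f (c s)).cT B.X (J s) (F J)) (update J s a)) := by
      funext J
      refine Finset.sum_congr rfl fun a _ => ?_
      beta_reduce
      rw [update_self, hindep]
    rw [(congrArg (asm X c f ((X (c s)).prod B) l) e0).trans
      (h fun J => (f (c s)).cT B.X (J s) (F J))]
    refine 𝒞.map_mem _ ?_
    by_cases hn : (X (c s)).X.dim ≤ m
    · refine h2 (m - (X (c s)).X.dim) j _ ⟨fun J J' hJ => ?_,
        fun J => (cT_gr (f (c s)) (hmid (c s)) (hF.gr J) (J s)).1 hn, ?_,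
        Δ ⊓ Δ', inferInstance, fun g hg => ?_⟩
      · rw [hF.dep J J' fun t ht => hJ t (List.mem_append_left _ ht),
          hJ s (List.mem_append_right _ (List.mem_singleton.2 rfl))]
      · have h3 := hF.deg
        have h4 : dsum X c (l ++ [s]) = dsum X c l + (X (c s)).X.dim := by
          simp [dsum]
        omega
      · rw [SL_append]
        have e1 : SL (Nm X c f g) [s] (fun J => B.act g ((f (c s)).cT B.X (J s) (F J))) =
            fun J => (f (c s)).cT B.X (J s) (((X (c s)).prod B).act g (F J)) := by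
          funext J
          rw [hactT g hg.2]
          simp only [SL, Sp, update_self, hindep]
          rfl
        rw [e1]
        have e2 := SL_lin (Nm X c f g) (l := l) (fun J => (f (c s)).cT B.X (J s))
          (fun t ht b J => by
            rw [update_of_ne]
            rintro rfl
            exact hs ht) fun J => ((X (c s)).prod B).act g (F J)
        rw [e2, hact g hg.1]
        funext J
        rw [Pi.smul_apply, Pi.smul_apply, map_smul]
    · have e1 : (fun J => (f (c s)).cT B.X (J s) (F J)) = 0 := by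
        funext J
        exact (cT_gr (f (c s)) (hmid (c s)) (hF.gr J) (J s)).2 hn
      rw [e1, asm_zero]
      exact Submodule.zero_mem _

/-- The reduction to functions with values in the cohomology of the base. -/
theorem StC.tow (hG : ∀ i, IsGalois W χ (X i).X (X i).act)
    (hmid : ∀ i, transcendental W (X i).X ≤ W.gr (X i).X (X i).X.dim) {Z : DG W Γ}
    (l₂ : List Λ) : ∀ l₁ : List Λ, (l₁ ++ l₂).Nodup →
      (∀ l', l'.Sublist l₂ → StC χ 𝒞 X c f Z (l₁ ++ l')) → StC χ 𝒞 X c f (tow X Z c l₂) l₁ := by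
  induction l₂ with
  | nil =>
    intro l₁ _ h
    have h1 := h [] (List.Sublist.refl _)
    rwa [List.append_nil] at h1
  | cons s l₂ ih =>
    intro l₁ hnd h
    have hs : s ∉ l₁ := by
      intro hs
      rw [List.nodup_append] at hnd
      exact hnd.2.2 s hs s List.mem_cons_self rfl
    have hnd1 : ((l₁ ++ [s]) ++ l₂).Nodup := by
      rw [List.append_assoc]
      exact hnd
    have hnd2 : (l₁ ++ l₂).Nodup := by
      refine hnd.sublist ?_
      exact List.Sublist.append_left (List.sublist_cons_self s l₂) l₁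
    refine StC.step hG hmid hs (ih l₁ hnd2 fun l' hl' => h l' (hl'.cons s)) ?_
    refine ih (l₁ ++ [s]) hnd1 fun l' hl' => ?_
    rw [List.append_assoc]
    exact h _ (hl'.cons_cons s)

theorem class_of_sub (hG : ∀ i, IsGalois W χ (X i).X (X i).act)
    (hmid : ∀ i, transcendental W (X i).X ≤ W.gr (X i).X (X i).X.dim) {Z : DG W Γ}
    {l : List Λ} (hl : l.Nodup) (h : ∀ l', l'.Sublist l → StC χ 𝒞 X c f Z l') :
    ClassConj χ 𝒞 (tow X Z c l).toGVar :=
  StC.class (StC.tow hG hmid l [] hl fun l' hl' => h l' hl')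

/-- **The insertion gives an algebraic class.** -/
theorem asm_insertC (hmid : ∀ i, transcendental W (X i).X ≤ W.gr (X i).X (X i).X.dim)
    (hDX : ∀ i, HomEqNum W (X i).X) {Z : DG W Γ} {l : List Λ} {m j : ℕ} {p q : Λ} (hp : p ∈ l)
    (hq : q ∈ l) (hpq : p ≠ q) (hc : c p = c q) (hl : l.Nodup)
    (hS : StC χ 𝒞 X c f Z ((l.erase p).erase q)) {y : (Λ → Lt κ) → W.H Z.X}
    (hy : IsT χ X c f Z ((l.erase p).erase q) m j y) (h1 : ∀ a, upd p a y = y)
    (h2 : ∀ a, upd q a y = y) :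
    asm X c f Z l (iw f c p q y) ∈ 𝒞.C (tow X Z c l).X := by
  have hperm := perm_two hp hq hpq
  obtain ⟨φ, ε, h5⟩ := asm_perm (X := X) (c := c) (f := f) (Z := Z) hmid hperm hl
  rw [h5]
  refine Submodule.smul_mem _ _ (𝒞.map_mem _ ?_)
  have h6 := asm_pair (X := X) (c := c) (f := f) (Z := Z) (l := (l.erase p).erase q) hpq
    (F' := y) h1 h2
  change asm X c f Z (p :: q :: (l.erase p).erase q) (fun J =>
    (omz (f (c p)).g (J p) (J q) : W.K) • y J) ∈ _
  rw [h6]
  exact 𝒞.mul_mem (𝒞.map_mem _ (𝒞.alg_le _ (dOm_alg' hc (hDX _) (hmid _))))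
    (𝒞.map_mem _ (hS _ _ _ hy))

/-- **Traceless functions.** -/
theorem exists_trC [Fintype Λ] (hG : ∀ i, IsGalois W χ (X i).X (X i).act)
    (hmid : ∀ i, transcendental W (X i).X ≤ W.gr (X i).X (X i).X.dim)
    (hDX : ∀ i, HomEqNum W (X i).X) {Z : DG W Γ} {l : List Λ}
    (hl : l.Nodup) (hS : ∀ p ∈ l, ∀ q ∈ l, p ≠ q → StC χ 𝒞 X c f Z ((l.erase p).erase q))
    {m j : ℕ} {F : (Λ → Lt κ) → W.H Z.X} (hF : IsT χ X c f Z l m j F)
    (hna : asm X c f Z l F ∉ 𝒞.C (tow X Z c l).X) :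
    ∃ F' : (Λ → Lt κ) → W.H Z.X, IsT χ X c f Z l m j F' ∧ F' ≠ 0 ∧
      ∀ p ∈ l, ∀ q ∈ l, p ≠ q → c p = c q → ∀ J, ctw p q F' J = 0 := by
  classical
  let S : Finset (Λ × Λ) := univ.filter fun p => p.1 ∈ l ∧ p.2 ∈ l ∧ p.1 ≠ p.2 ∧ c p.1 = c p.2
  have hSm : ∀ p, p ∈ S ↔ p.1 ∈ l ∧ p.2 ∈ l ∧ p.1 ≠ p.2 ∧ c p.1 = c p.2 := fun p => by simp [S]
  let V := TV χ X c f Z l m j hF.deg
  have hV : ∀ F, F ∈ V ↔ IsT χ X c f Z l m j F := fun F => Iff.rfl
  let Om : ((Λ → Lt κ) → W.H Z.X) → ((Λ → Lt κ) → W.H Z.X) := fun F =>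
    ∑ p ∈ S, iw f c p.1 p.2 (cw p.1 p.2 F)
  have hOm : ∀ F ∈ V, Om F ∈ V := by
    intro F hF'
    refine Submodule.sum_mem _ fun p hp => ?_
    obtain ⟨h1, h2, h3, h4⟩ := (hSm p).1 hp
    exact IsT.insert hG h1 h2 h3 h4 hl hF.deg
      (IsT.contract hG ((hV F).1 hF') h1 h2 h3 h4 hl)
  have hadd : ∀ F F', Om (F + F') = Om F + Om F' := by
    intro F F'
    rw [← Finset.sum_add_distrib]
    exact Finset.sum_congr rfl fun p _ => by rw [cw_add, iw_add]
  have hsmul : ∀ (x : W.K) F, Om (x • F) = x • Om F := by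
    intro x F
    rw [Finset.smul_sum]
    exact Finset.sum_congr rfl fun p _ => by rw [cw_smul, iw_smul]
  let L : V →ₗ[W.K] V :=
    { toFun := fun F => ⟨Om F.1, hOm F.1 F.2⟩
      map_add' := fun F F' => Subtype.ext (hadd _ _)
      map_smul' := fun x F => Subtype.ext (hsmul _ _) }
  have hns : ¬Function.Surjective L := by
    intro hsurj
    obtain ⟨F₁, hF₁⟩ := hsurj ⟨F, hF⟩
    apply hna
    have h1 : F = Om F₁.1 := (congrArg Subtype.val hF₁).symm
    rw [h1, asm_sum]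
    refine Submodule.sum_mem _ fun p hp => ?_
    obtain ⟨h2, h3, h4, h5⟩ := (hSm p).1 hp
    exact asm_insertC hmid hDX h2 h3 h4 h5 hl (hS _ h2 _ h3 h4)
      (IsT.contract hG ((hV _).1 F₁.2) h2 h3 h4 h5 hl) (fun a => cw_upd1 _ a)
      (fun a => cw_upd2 h4 _ a)
  have hni : ¬Function.Injective L := fun h => hns (LinearMap.injective_iff_surjective.1 h)
  obtain ⟨F₀, h0, hne⟩ : ∃ F₀ : V, L F₀ = 0 ∧ F₀ ≠ 0 := by
    by_contra hcon
    push Not at hcon
    exact hni ((injective_iff_map_eq_zero L).2 hcon)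
  refine ⟨F₀.1, (hV _).1 F₀.2, fun h => hne (Subtype.ext h), fun p hp q hq hpq hc => ?_⟩
  let _ : Module ℚ (W.H Z.X) := Module.compHom (W.H Z.X) (algebraMap ℚ W.K)
  refine omega_zero (S := S) (g := fun s => (f (c s)).g) (F := F₀.1)
    (fun p hp => ((hSm p).1 hp).2.2.1) (fun p hp J hJ => ?_) (fun J => ?_) (p, q)
    ((hSm _).2 ⟨hp, hq, hpq, hc⟩)
  · exact ((hV _).1 F₀.2).off hl ((hSm p).1 hp).1 hJ
  · have h1 := congrFun (congrArg Subtype.val h0) J
    have h2 : (L F₀ : (Λ → Lt κ) → W.H Z.X) J = ∑ p ∈ S,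
        iw f c p.1 p.2 (cw p.1 p.2 F₀.1) J := Finset.sum_apply _ _ _
    rw [h2] at h1
    refine Eq.trans (Finset.sum_congr rfl fun p _ => ?_) h1
    rw [iw, Int.cast_smul_eq_zsmul]
    rfl

end Pool.Agent.Y132.AH
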